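import Mathlib

set_option autoImplicit false

namespace Pool.Agent.FG76

/-- Sum of `κ` over the edges of the path `k, s₁ k, s₂ s₁ k, …` given by the word
`w = [sₙ, …, s₁]`. -/
def pathSum {K : Type} [Group K] (κ : K → K → ZMod 2) : List K → K → ZMod 2
  | [], _ => 0
  | s :: w, k => κ (w.prod * k) (s * (w.prod * k)) + pathSum κ w k

/-- A finite type system of actions on `ℤ` parametrized by a subshift of finite type,
for a finitely presented group `K`. -/
structure Sys (A K : Type) [Group K] where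
  T : Set K
  T_inv : ∀ s ∈ T, s⁻¹ ∈ T
  T_gen : ∀ k : K, ∃ w : List K, (∀ s ∈ w, s ∈ T) ∧ w.prod = k
  Sig : Set (ℤ → A)
  ρ : (ℤ → A) → K →* Equiv.Perm ℤ
  R : ℤ
  R_pos : 0 < R
  disp : ∀ s ∈ T, ∀ y ∈ Sig, ∀ c, |ρ y s c - c| ≤ R
  loc : ∀ s ∈ T, ∀ y ∈ Sig, ∀ y' ∈ Sig, ∀ c c' : ℤ, (∀ i, |i| ≤ R → y (c + i) = y' (c' + i)) →
    ρ y s c - c = ρ y' s c' - c'
  R1 : ℤ
  ft : ∀ y : ℤ → A, (∀ c, ∃ x ∈ Sig, ∃ c' : ℤ, ∀ i, |i| ≤ R1 → y (c + i) = x (c' + i)) → y ∈ Sig
  L : ℕ
  pot : ∀ κ : K → K → ZMod 2, (∀ k k', κ k k' = κ k' k) →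
    (∀ w : List K, (∀ s ∈ w, s ∈ T) → w.length ≤ L → w.prod = 1 → ∀ k, pathSum κ w k = 0) →
    ∃ ψ : K → ZMod 2, ∀ s ∈ T, ∀ k, ψ (s * k) = ψ k + κ k (s * k)

namespace Sys

variable {A K : Type} [Group K] (S : Sys A K)

/-- Induction on the group by left multiplication by letters. -/
theorem ind {P : K → Prop} (h1 : P 1) (hs : ∀ s ∈ S.T, ∀ k, P k → P (s * k)) (k : K) : P k := by
  obtain ⟨w, hw, rfl⟩ := S.T_gen k
  induction w with
  | nil => simpa using h1
  | cons s w ih =>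
    rw [List.prod_cons]
    exact hs s (hw s (by simp)) _ (ih fun s' hs' => hw s' (by simp [hs']))

theorem word_disp {y : ℤ → A} (hy : y ∈ S.Sig) (w : List K) (hw : ∀ s ∈ w, s ∈ S.T) (c : ℤ) :
    |S.ρ y w.prod c - c| ≤ w.length * S.R := by
  induction w with
  | nil => simp
  | cons s w ih =>
    rw [List.prod_cons, map_mul, Equiv.Perm.mul_apply]
    have h1 := ih fun s' hs' => hw s' (by simp [hs'])
    have h2 := S.disp s (hw s (by simp)) y hy (S.ρ y w.prod c)
    rw [List.length_cons]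
    push_cast
    have e : (S.ρ y s (S.ρ y w.prod c) - c) =
      (S.ρ y s (S.ρ y w.prod c) - S.ρ y w.prod c) + (S.ρ y w.prod c - c) := by ring
    rw [e]
    refine (abs_add_le _ _).trans ?_
    linarith

theorem word_loc {y y' : ℤ → A} (hy : y ∈ S.Sig) (hy' : y' ∈ S.Sig) (w : List K)
    (hw : ∀ s ∈ w, s ∈ S.T) (c c' : ℤ)
    (h : ∀ i, |i| ≤ w.length * S.R → y (c + i) = y' (c' + i)) :
    S.ρ y w.prod c - c = S.ρ y' w.prod c' - c' := by
  induction w with
  | nil => simp
  | cons s w ih =>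
    have hR := S.R_pos
    have hw' : ∀ s ∈ w, s ∈ S.T := fun s' hs' => hw s' (by simp [hs'])
    rw [List.prod_cons, map_mul, map_mul, Equiv.Perm.mul_apply, Equiv.Perm.mul_apply]
    have h1 := ih hw' (fun i hi => h i (by rw [List.length_cons]; push_cast; linarith))
    have h0 := S.word_disp hy w hw' c
    have h2 := S.loc s (hw s (by simp)) y hy y' hy' (S.ρ y w.prod c) (S.ρ y' w.prod c')
      (fun i hi => by
        have := h (S.ρ y w.prod c - c + i) (by
          rw [List.length_cons]; push_cast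
          refine (abs_add_le _ _).trans ?_
          linarith)
        rw [show c + (S.ρ y w.prod c - c + i) = S.ρ y w.prod c + i by ring] at this
        rw [this, h1]
        congr 1; ring)
    linarith

/-- A radius controlling both the displacement and the locality of `k`. -/
theorem exists_rad (k : K) : ∃ r : ℤ, 0 ≤ r ∧ (∀ y ∈ S.Sig, ∀ c, |S.ρ y k c - c| ≤ r) ∧
    ∀ y ∈ S.Sig, ∀ y' ∈ S.Sig, ∀ c c' : ℤ, (∀ i, |i| ≤ r → y (c + i) = y' (c' + i)) →
      S.ρ y k c - c = S.ρ y' k c' - c' := by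
  obtain ⟨w, hw, rfl⟩ := S.T_gen k
  have hR := S.R_pos
  exact ⟨w.length * S.R, by positivity, fun y hy c => S.word_disp hy w hw c,
    fun y hy y' hy' c c' h => S.word_loc hy hy' w hw c c' h⟩

theorem shift_mem {y : ℤ → A} (hy : y ∈ S.Sig) (a : ℤ) : (fun c => y (c + a)) ∈ S.Sig :=
  S.ft _ fun c => ⟨y, hy, c + a, fun i _ => by
    show y (c + i + a) = y (c + a + i); congr 1; ring⟩

theorem rho_shift {y : ℤ → A} (hy : y ∈ S.Sig) (a : ℤ) (k : K) (c : ℤ) :
    S.ρ (fun c => y (c + a)) k c = S.ρ y k (c + a) - a := by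
  obtain ⟨r, -, -, h⟩ := S.exists_rad k
  have := h _ (S.shift_mem hy a) y hy c (c + a) (fun i _ => by
    show y (c + i + a) = y (c + a + i); congr 1; ring)
  linarith

theorem rho_add_period {y : ℤ → A} (hy : y ∈ S.Sig) {p : ℤ} (hp : ∀ c, y (c + p) = y c)
    (k : K) (c : ℤ) : S.ρ y k (c + p) = S.ρ y k c + p := by
  obtain ⟨r, -, -, h⟩ := S.exists_rad k
  have := h y hy y hy (c + p) c (fun i _ => by
    rw [show c + p + i = (c + i) + p by ring, hp])
  linarith

end Sys

theorem period_mul {A : Type} {y : ℤ → A} {p : ℤ} (hp : ∀ c, y (c + p) = y c) (n : ℤ) :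
    ∀ c, y (c + n * p) = y c := by
  induction n using Int.induction_on with
  | zero => intro c; simp
  | succ i ih =>
    intro c
    rw [show c + ((i : ℤ) + 1) * p = (c + i * p) + p by ring, hp, ih]
  | pred i ih =>
    intro c
    rw [← hp, show c + (-(i : ℤ) - 1) * p + p = c + (-(i : ℤ)) * p by ring, ih]

/-- Periodic continuation of `x` restricted to `[i, i+p)`. -/
def glue {A : Type} (x : ℤ → A) (i p : ℤ) : ℤ → A := fun c => x (i + (c - i) % p)

theorem glue_period {A : Type} (x : ℤ → A) (i p : ℤ) (c : ℤ) :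
    glue x i p (c + p) = glue x i p c := by
  unfold glue
  rw [show c + p - i = (c - i) + p by ring, Int.add_emod_right]

theorem glue_eq {A : Type} (x : ℤ → A) (i p r : ℤ) (hr : r < p)
    (h : ∀ k, |k| ≤ r → x (i + k) = x (i + p + k)) (c : ℤ) (h1 : i - r ≤ c) (h2 : c ≤ i + p + r) :
    glue x i p c = x c := by
  by_cases hc : c < i
  · have e : (c - i) % p = c - i + p := by
      rw [← Int.add_emod_right, Int.emod_eq_of_lt (by linarith) (by linarith)]
    unfold glue
    rw [e]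
    have := h (c - i) (by rw [abs_le]; constructor <;> linarith)
    rw [show i + (c - i + p) = i + p + (c - i) by ring, ← this]
    congr 1; ring
  · by_cases hc2 : c < i + p
    · unfold glue
      rw [Int.emod_eq_of_lt (by linarith) (by linarith)]
      congr 1; ring
    · have e : (c - i) % p = c - i - p := by
        rw [← Int.sub_emod_right, Int.emod_eq_of_lt (by linarith) (by linarith)]
      unfold glue
      rw [e]
      have := h (c - i - p) (by rw [abs_le]; constructor <;> linarith)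
      rw [this]
      congr 1; ring

theorem glue_window {A : Type} (x : ℤ → A) (i p r : ℤ) (hr : r < p) (hr0 : 0 ≤ r)
    (h : ∀ k, |k| ≤ r → x (i + k) = x (i + p + k)) (c : ℤ) :
    ∃ n : ℤ, i ≤ c + n * p ∧ c + n * p < i + p ∧
      ∀ k, |k| ≤ r → glue x i p (c + k) = x (c + n * p + k) := by
  have hp : 0 < p := by linarith
  refine ⟨-((c - i) / p), ?_, ?_, ?_⟩
  · have := Int.emod_nonneg (c - i) hp.ne'
    rw [Int.emod_def] at this
    linarith
  · have := Int.emod_lt_of_pos (c - i) hp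
    rw [Int.emod_def] at this
    linarith
  · intro k hk
    have h1 := Int.emod_nonneg (c - i) hp.ne'
    have h2 := Int.emod_lt_of_pos (c - i) hp
    rw [Int.emod_def] at h1 h2
    rw [abs_le] at hk
    rw [← glue_eq x i p r hr h (c + -((c - i) / p) * p + k) (by linarith) (by linarith)]
    have := period_mul (glue_period x i p) (-((c - i) / p)) (c + k)
    rw [← this]
    congr 1; ring

namespace Sys

variable {A K : Type} [Group K] (S : Sys A K)

theorem glue_mem {x : ℤ → A} (hx : x ∈ S.Sig) (i p r : ℤ) (hr : r < p) (hr0 : 0 ≤ r)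
    (hr1 : S.R1 ≤ r) (h : ∀ k, |k| ≤ r → x (i + k) = x (i + p + k)) : glue x i p ∈ S.Sig := by
  refine S.ft _ fun c => ?_
  obtain ⟨n, -, -, h3⟩ := glue_window x i p r hr hr0 h c
  exact ⟨x, hx, c + n * p, fun k hk => h3 k (hk.trans hr1)⟩

/-- `y` is periodic. -/
def Per {A : Type} (y : ℤ → A) : Prop := ∃ p : ℤ, 0 < p ∧ ∀ c, y (c + p) = y c

/-- The closure of the periodic points. -/
def PP : Set (ℤ → A) := {x | ∀ r : ℤ, ∃ z ∈ S.Sig, Per z ∧ ∀ i, |i| ≤ r → z i = x i}

theorem PP_sub {x : ℤ → A} (hx : x ∈ S.PP) : x ∈ S.Sig := by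
  refine S.ft _ fun c => ?_
  obtain ⟨z, hz, -, h⟩ := hx (|c| + |S.R1|)
  refine ⟨z, hz, c, fun i hi => (h _ ?_).symm⟩
  have := abs_add_le c i
  have := le_abs_self S.R1
  linarith

theorem PP_shift {x : ℤ → A} (hx : x ∈ S.PP) (a : ℤ) : (fun c => x (c + a)) ∈ S.PP := by
  intro r
  obtain ⟨z, hz, ⟨p, hp, hzp⟩, h⟩ := hx (r + |a|)
  refine ⟨fun c => z (c + a), S.shift_mem hz a, ⟨p, hp, fun c => ?_⟩, fun i hi => h _ ?_⟩
  · show z (c + p + a) = z (c + a)
    rw [show c + p + a = c + a + p by ring, hzp]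
  · have := abs_add_le i a
    linarith

end Sys

end Pool.Agent.FG76
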