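import Mathlib
import Pool.Agent.FG76.Sys

set_option autoImplicit false

namespace Pool.Agent.FG76

/-- The mod `2` chain of the path from `0` given by the word `w`. -/
def chain {K : Type} [Group K] (r : K →* Equiv.Perm ℤ) : List K → ℤ → ℤ → ZMod 2
  | [], _, _ => 0
  | s :: w, c, c' => chain r w c c' +
      ((if c = r w.prod 0 ∧ c' = r s (r w.prod 0) then 1 else 0) +
      (if c' = r w.prod 0 ∧ c = r s (r w.prod 0) then 1 else 0))

variable {K : Type} [Group K] (r : K →* Equiv.Perm ℤ)

theorem chain_symm (w : List K) (c c' : ℤ) : chain r w c c' = chain r w c' c := by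
  induction w with
  | nil => rfl
  | cons s w ih => rw [chain, chain, ih]; ring

theorem chain_diag (w : List K) (c : ℤ) : chain r w c c = 0 := by
  induction w with
  | nil => rfl
  | cons s w ih => rw [chain, ih, zero_add, CharTwo.add_self_eq_zero]

theorem chain_supp {T : Set K} (hT : ∀ s ∈ T, s⁻¹ ∈ T) (w : List K) (hw : ∀ s ∈ w, s ∈ T)
    (c c' : ℤ) (h : chain r w c c' ≠ 0) : (∃ s ∈ T, c' = r s c) ∧ ∃ k, c = r k 0 := by
  induction w with
  | nil => exact absurd rfl h
  | cons s w ih =>
    rw [chain] at h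
    by_cases h1 : chain r w c c' = 0
    · rw [h1, zero_add] at h
      by_cases h2 : c = r w.prod 0 ∧ c' = r s (r w.prod 0)
      · exact ⟨⟨s, hw s (by simp), by rw [h2.1, h2.2]⟩, w.prod, h2.1⟩
      · rw [if_neg h2, zero_add] at h
        by_cases h3 : c' = r w.prod 0 ∧ c = r s (r w.prod 0)
        · refine ⟨⟨s⁻¹, hT s (hw s (by simp)), ?_⟩, s * w.prod, ?_⟩
          · rw [h3.2, h3.1, ← Equiv.Perm.mul_apply, ← map_mul, inv_mul_cancel, map_one,
              Equiv.Perm.one_apply]
          · rw [h3.2, map_mul, Equiv.Perm.mul_apply]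
        · exact absurd (by rw [if_neg h3]) h
    · exact ih (fun s' hs' => hw s' (by simp [hs'])) h1

/-- indicator -/
def dl (a b : ℤ) : ZMod 2 := if a = b then 1 else 0

theorem chain_bdry (R : ℤ) (w : List K) (hw : ∀ s ∈ w, ∀ c, |r s c - c| ≤ R) (c : ℤ) :
    ∑ d ∈ Finset.Icc (-R) R, chain r w c (c + d) = dl c 0 + dl c (r w.prod 0) := by
  induction w with
  | nil => simp [chain]; rw [CharTwo.add_self_eq_zero]
  | cons s w ih =>
    have ih' := ih fun s' hs' => hw s' (by simp [hs'])
    have hs := hw s (by simp) (r w.prod 0)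
    rw [abs_le] at hs
    simp only [chain]
    rw [Finset.sum_add_distrib, ih', Finset.sum_add_distrib, List.prod_cons, map_mul,
      Equiv.Perm.mul_apply]
    have e1 : ∑ d ∈ Finset.Icc (-R) R,
        (if c = r w.prod 0 ∧ c + d = r s (r w.prod 0) then (1 : ZMod 2) else 0) =
        dl c (r w.prod 0) := by
      unfold dl
      by_cases h : c = r w.prod 0
      · rw [if_pos h, Finset.sum_eq_single (r s (r w.prod 0) - c)]
        · rw [if_pos ⟨h, by ring⟩]
        · intro b _ hb
          rw [if_neg]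
          rintro ⟨-, h2⟩
          exact hb (by linarith)
        · intro hn
          exfalso; apply hn
          rw [Finset.mem_Icc]; constructor <;> linarith
      · rw [if_neg h]
        exact Finset.sum_eq_zero fun b _ => if_neg fun h' => h h'.1
    have e2 : ∑ d ∈ Finset.Icc (-R) R,
        (if c + d = r w.prod 0 ∧ c = r s (r w.prod 0) then (1 : ZMod 2) else 0) =
        dl c (r s (r w.prod 0)) := by
      unfold dl
      by_cases h : c = r s (r w.prod 0)
      · rw [if_pos h, Finset.sum_eq_single (r w.prod 0 - c)]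
        · rw [if_pos ⟨by ring, h⟩]
        · intro b _ hb
          rw [if_neg]
          rintro ⟨h2, -⟩
          exact hb (by linarith)
        · intro hn
          exfalso; apply hn
          rw [Finset.mem_Icc]; constructor <;> linarith
      · rw [if_neg h]
        exact Finset.sum_eq_zero fun b _ => if_neg fun h' => h h'.2
    rw [e1, e2]
    generalize dl c 0 = a
    generalize dl c (r w.prod 0) = b
    generalize dl c (r s (r w.prod 0)) = d
    revert a b d; decide

/-- side of the cut at `i` -/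
def sd (i c : ℤ) : ZMod 2 := if i ≤ c then 1 else 0

theorem sd_aux (R i p q : ℤ) (h : -R ≤ q - p ∧ q - p ≤ R) :
    (if (i ≤ p ∧ p < i + R) ∧ (i - R ≤ q ∧ q < i) then (1 : ZMod 2) else 0) +
    (if (i ≤ q ∧ q < i + R) ∧ (i - R ≤ p ∧ p < i) then (1 : ZMod 2) else 0) =
    sd i p + sd i q := by
  unfold sd
  split_ifs <;> first | (exfalso; omega) | decide

theorem chain_flux (R : ℤ) (w : List K) (hw : ∀ s ∈ w, ∀ c, |r s c - c| ≤ R) (i : ℤ) :
    ∑ c ∈ Finset.Ico i (i + R), ∑ c' ∈ Finset.Ico (i - R) i, chain r w c c' =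
      sd i 0 + sd i (r w.prod 0) := by
  induction w with
  | nil => simp [chain]; rw [CharTwo.add_self_eq_zero]
  | cons s w ih =>
    have ih' := ih fun s' hs' => hw s' (by simp [hs'])
    have hs := hw s (by simp) (r w.prod 0)
    rw [abs_le] at hs
    simp only [chain]
    simp only [Finset.sum_add_distrib]
    rw [ih', List.prod_cons, map_mul, Equiv.Perm.mul_apply]
    generalize r w.prod 0 = p at *
    generalize r s p = q at *
    have e : ∀ a b : ℤ, ∑ c ∈ Finset.Ico i (i + R), ∑ c' ∈ Finset.Ico (i - R) i,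
        (if c = a ∧ c' = b then (1 : ZMod 2) else 0) =
        if (i ≤ a ∧ a < i + R) ∧ (i - R ≤ b ∧ b < i) then 1 else 0 := by
      intro a b
      by_cases h : (i ≤ a ∧ a < i + R) ∧ (i - R ≤ b ∧ b < i)
      · rw [if_pos h, Finset.sum_eq_single a, Finset.sum_eq_single b]
        · rw [if_pos ⟨rfl, rfl⟩]
        · intro c _ hc; rw [if_neg]; rintro ⟨-, h⟩; exact hc h
        · intro hn; exfalso; apply hn; rw [Finset.mem_Ico]; exact h.2
        · intro c _ hc
          exact Finset.sum_eq_zero fun _ _ => if_neg fun h => hc h.1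
        · intro hn; exfalso; apply hn; rw [Finset.mem_Ico]; exact h.1
      · rw [if_neg h]
        refine Finset.sum_eq_zero fun c hc => Finset.sum_eq_zero fun c' hc' => if_neg ?_
        rintro ⟨rfl, rfl⟩
        rw [Finset.mem_Ico] at hc hc'
        exact h ⟨hc, hc'⟩
    have e' : ∀ a b : ℤ, ∑ c ∈ Finset.Ico i (i + R), ∑ c' ∈ Finset.Ico (i - R) i,
        (if c' = a ∧ c = b then (1 : ZMod 2) else 0) =
        if (i ≤ b ∧ b < i + R) ∧ (i - R ≤ a ∧ a < i) then 1 else 0 := by
      intro a b
      rw [← e b a]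
      refine Finset.sum_congr rfl fun c _ => Finset.sum_congr rfl fun c' _ => ?_
      simp only [and_comm]
    rw [e, e', sd_aux R i p q hs]
    generalize sd i 0 = a
    generalize sd i p = b
    generalize sd i q = d
    revert a b d; decide

/-- Sum of a symmetric function with zero diagonal, mod `2`. -/
theorem sum_symm_zero (V : Finset ℤ) (f : ℤ → ℤ → ZMod 2) (hs : ∀ a b, f a b = f b a)
    (hd : ∀ a, f a a = 0) : ∑ a ∈ V, ∑ b ∈ V, f a b = 0 := by
  rw [← Finset.sum_product']
  refine Finset.sum_involution (fun x _ => (x.2, x.1)) ?_ ?_ ?_ ?_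
  · intro x _
    show f x.1 x.2 + f x.2 x.1 = 0
    rw [hs x.2 x.1, CharTwo.add_self_eq_zero]
  · intro x _ hx h
    apply hx
    have : x.2 = x.1 := congrArg Prod.fst h
    rw [this, hd]
  · intro x hx
    rw [Finset.mem_product] at hx ⊢
    exact ⟨hx.2, hx.1⟩
  · intro x _; rfl

/-- No flux through a finite invariant set. -/
theorem flux_zero (R i : ℤ) (f : ℤ → ℤ → ZMod 2) (hs : ∀ a b, f a b = f b a)
    (hd : ∀ a, f a a = 0) (hR : ∀ a b, f a b ≠ 0 → |b - a| ≤ R)
    (hbd : ∀ c, ∑ d ∈ Finset.Icc (-R) R, f c (c + d) = 0) (V : Finset ℤ)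
    (hV : ∀ a b, f a b ≠ 0 → a ∈ V → b ∈ V)
    (hcut : ∀ c ∈ Finset.Ico i (i + R), ∀ c' ∈ Finset.Ico (i - R) i, f c c' ≠ 0 → c ∈ V) :
    ∑ c ∈ Finset.Ico i (i + R), ∑ c' ∈ Finset.Ico (i - R) i, f c c' = 0 := by
  classical
  have h1 : ∀ c ∈ V, ∑ c' ∈ V, f c c' = 0 := by
    intro c hc
    rw [← hbd c]
    have e : ∑ d ∈ Finset.Icc (-R) R, f c (c + d) = ∑ c' ∈ Finset.Icc (c - R) (c + R), f c c' := by
      refine Finset.sum_nbij' (fun d => c + d) (fun c' => c' - c) ?_ ?_ ?_ ?_ ?_
      · intro d hd; rw [Finset.mem_Icc] at hd ⊢; constructor <;> linarith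
      · intro d hd; rw [Finset.mem_Icc] at hd ⊢; constructor <;> linarith
      · intro d _; ring
      · intro d _; ring
      · intro d _; rfl
    rw [e]
    refine Finset.sum_congr_of_eq_on_inter ?_ ?_ ?_
    · intro a _ ha'
      by_contra hne
      apply ha'
      have := hR c a hne
      rw [abs_le] at this
      rw [Finset.mem_Icc]; constructor <;> linarith
    · intro a _ ha'
      by_contra hne
      exact ha' (hV c a hne hc)
    · intro a _ _; rfl
  have h2 : ∑ c ∈ V.filter (fun c => i ≤ c), ∑ c' ∈ V, f c c' = 0 :=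
    Finset.sum_eq_zero fun c hc => h1 c (Finset.mem_filter.1 hc).1
  have h3 : ∀ c, ∑ c' ∈ V, f c c' = ∑ c' ∈ V.filter (fun c => i ≤ c), f c c' +
      ∑ c' ∈ V.filter (fun c => ¬ i ≤ c), f c c' := fun c =>
    (Finset.sum_filter_add_sum_filter_not V _ _).symm
  simp only [h3] at h2
  rw [Finset.sum_add_distrib, sum_symm_zero _ f hs hd, zero_add] at h2
  rw [← h2, ← Finset.sum_product', ← Finset.sum_product']
  refine Finset.sum_congr_of_eq_on_inter ?_ ?_ ?_
  · rintro ⟨a, b⟩ ha ha'
    rw [Finset.mem_product] at ha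
    by_contra hne
    apply ha'
    have hne' : f a b ≠ 0 := hne
    have haV := hcut a ha.1 b ha.2 hne'
    have hbV := hV a b hne' haV
    have h1 := Finset.mem_Ico.1 ha.1
    have h2 := Finset.mem_Ico.1 ha.2
    rw [Finset.mem_product, Finset.mem_filter, Finset.mem_filter]
    exact ⟨⟨haV, h1.1⟩, hbV, not_le.2 h2.2⟩
  · rintro ⟨a, b⟩ ha ha'
    rw [Finset.mem_product, Finset.mem_filter, Finset.mem_filter] at ha
    by_contra hne
    apply ha'
    have hne' : f a b ≠ 0 := hne
    have h1 := hR a b hne'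
    rw [abs_le] at h1
    have h2 := ha.1.2
    have h3 := not_le.1 ha.2.2
    simp only at h2 h3
    rw [Finset.mem_product, Finset.mem_Ico, Finset.mem_Ico]
    simp only
    exact ⟨⟨h2, by linarith⟩, by linarith, h3⟩
  · intro a _ _; rfl

end Pool.Agent.FG76
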