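import Mathlib
import Pool.Agent.FG76.Chain

set_option autoImplicit false

namespace Pool.Agent.FG76

namespace Sys

variable {A K : Type} [Group K] (S : Sys A K)

/-- Pigeonhole for the cuts. -/
theorem cut_pigeon [Finite A] (x : ℤ → A) (R r : ℤ) (hr : 0 ≤ r) :
    ∃ Z : ℤ, 0 ≤ Z ∧ ∀ (f : ℤ → ℤ → ZMod 2) (z : ℤ), Z < |z| →
      ∃ i p : ℤ, r < p ∧ sd i 0 + sd i z = 1 ∧
      (∀ c, i ≤ c → c < i + p → c ≠ 0 ∧ c ≠ z) ∧
      (∀ k, |k| ≤ r → x (i + k) = x (i + p + k) ∧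
        ∀ d, |d| ≤ R → f (i + k) d = f (i + p + k) d) := by
  classical
  let Wn := (Set.Icc (-r) r : Set ℤ) → A × ((Set.Icc (-R) R : Set ℤ) → ZMod 2)
  have hfin : Finite Wn := inferInstance
  have := Fintype.ofFinite Wn
  obtain ⟨n0, hn0⟩ : ∃ n0, n0 = Fintype.card Wn := ⟨_, rfl⟩
  obtain ⟨P, hP⟩ : ∃ P : ℤ, P = r + 1 := ⟨_, rfl⟩
  refine ⟨(n0 + 2) * P, by rw [hP]; positivity, fun f z hz => ?_⟩
  obtain ⟨σ, hσ⟩ : ∃ σ : ℤ, (σ = 1 ∧ (n0 + 2) * P < z) ∨ (σ = -1 ∧ z < -((n0 + 2) * P)) := by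
    rcases lt_abs.1 hz with h | h
    · exact ⟨1, Or.inl ⟨rfl, h⟩⟩
    · exact ⟨-1, Or.inr ⟨rfl, by linarith⟩⟩
  let cut : Fin (n0 + 1) → ℤ := fun n => σ * (((n : ℕ) : ℤ) + 1) * P
  let g : Fin (n0 + 1) → Wn := fun n k => (x (cut n + k), fun d => f (cut n + k) d)
  obtain ⟨n, n', hne, heq⟩ := Fintype.exists_ne_map_eq_of_card_lt g (by simp [hn0])
  wlog hlt : cut n < cut n' generalizing n n'
  · refine this n' n hne.symm heq.symm ?_
    have h1 : cut n ≠ cut n' := by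
      intro h
      apply hne
      have h2 : σ * (((n : ℕ) : ℤ) + 1) * P = σ * (((n' : ℕ) : ℤ) + 1) * P := h
      have hP0 : P ≠ 0 := by rw [hP]; positivity
      have hσ0 : σ ≠ 0 := by rcases hσ with h | h <;> rw [h.1] <;> norm_num
      have h3 := mul_left_cancel₀ hσ0 (mul_right_cancel₀ hP0 h2)
      exact Fin.ext (by omega)
    omega
  have hn := n.2
  have hn' := n'.2
  have hPpos : 0 < P := by rw [hP]; positivity
  have hnb : ((n : ℕ) : ℤ) ≤ n0 := by exact_mod_cast Nat.lt_succ_iff.1 hn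
  have hnb' : ((n' : ℕ) : ℤ) ≤ n0 := by exact_mod_cast Nat.lt_succ_iff.1 hn'
  have hn0' : (0 : ℤ) ≤ ((n : ℕ) : ℤ) := by positivity
  have hn0'' : (0 : ℤ) ≤ ((n' : ℕ) : ℤ) := by positivity
  have hcutdef : ∀ n : Fin (n0 + 1), cut n = σ * (((n : ℕ) : ℤ) + 1) * P := fun _ => rfl
  refine ⟨cut n, cut n' - cut n, ?_, ?_, ?_, ?_⟩
  · -- spacing
    have h1 : cut n' - cut n = (σ * (((n' : ℕ) : ℤ) - ((n : ℕ) : ℤ))) * P := by
      rw [hcutdef, hcutdef]; ring
    have h2 : 0 < (σ * (((n' : ℕ) : ℤ) - ((n : ℕ) : ℤ))) := by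
      have : 0 < (σ * (((n' : ℕ) : ℤ) - ((n : ℕ) : ℤ))) * P := by rw [← h1]; linarith
      exact (mul_pos_iff_of_pos_right hPpos).1 this
    rw [h1]
    have : P ≤ (σ * (((n' : ℕ) : ℤ) - ((n : ℕ) : ℤ))) * P := by nlinarith
    linarith
  · rcases hσ with ⟨h1, h2⟩ | ⟨h1, h2⟩
    · have e1 : P ≤ cut n := by rw [hcutdef, h1]; nlinarith
      have e2 : cut n ≤ (n0 + 2) * P := by rw [hcutdef, h1]; nlinarith
      unfold sd
      rw [if_neg (by linarith), if_pos (by linarith)]; decide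
    · have e1 : cut n ≤ -P := by rw [hcutdef, h1]; nlinarith
      have e2 : -((n0 + 2) * P) ≤ cut n := by rw [hcutdef, h1]; nlinarith
      unfold sd
      rw [if_pos (by linarith), if_neg (by linarith)]; decide
  · intro c hc1 hc2
    rcases hσ with ⟨h1, h2⟩ | ⟨h1, h2⟩
    · have e1 : P ≤ cut n := by rw [hcutdef, h1]; nlinarith
      have e2 : cut n' ≤ (n0 + 2) * P := by rw [hcutdef, h1]; nlinarith
      constructor
      · intro h; linarith
      · intro h; linarith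
    · have e1 : cut n' ≤ -P := by rw [hcutdef, h1]; nlinarith
      have e2 : -((n0 + 2) * P) ≤ cut n := by rw [hcutdef, h1]; nlinarith
      constructor
      · intro h; linarith
      · intro h; linarith
  · intro k hk
    rw [abs_le] at hk
    have h1 := congrFun heq ⟨k, hk⟩
    have h2 : x (cut n + k) = x (cut n' + k) := congrArg Prod.fst h1
    have h3 := congrArg Prod.snd h1
    rw [show cut n + (cut n' - cut n) + k = cut n' + k by ring]
    refine ⟨h2, fun d hd => ?_⟩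
    rw [abs_le] at hd
    exact congrFun h3 ⟨d, hd⟩

/-- **(3a)** -/
theorem exists_cut [Finite A] {x : ℤ → A} (hx : x ∈ S.Sig)
    (hunb : ∀ Z : ℤ, ∃ k, Z < |S.ρ x k 0|) (R' : ℤ) :
    ∃ y ∈ S.Sig, Per y ∧ ∃ i : ℤ, (∀ c, |c - i| ≤ R' → y c = x c) ∧
      ∃ k0 : K, |S.ρ x k0 0 - i| ≤ S.R ∧ (∀ Z : ℤ, ∃ k, Z < |S.ρ y k (S.ρ x k0 0)|) ∧
        ∀ k, |S.ρ y k (S.ρ x k0 0) - i| ≤ R' → ∃ k', S.ρ x k' 0 = S.ρ y k (S.ρ x k0 0) := by
  have hRpos := S.R_pos
  obtain ⟨r, hr⟩ : ∃ r : ℤ, r = |R'| + |S.R1| + S.R := ⟨_, rfl⟩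
  have h0 := abs_nonneg R'
  have h1 := abs_nonneg S.R1
  have h2 := le_abs_self R'
  have h3 := le_abs_self S.R1
  have hr0 : 0 ≤ r := by linarith
  obtain ⟨w, hw, i, p, hrp, hflux, hout, hwin⟩ : ∃ w : List K, (∀ s ∈ w, s ∈ S.T) ∧
      ∃ i p : ℤ, r < p ∧ sd i 0 + sd i (S.ρ x w.prod 0) = 1 ∧
      (∀ c, i ≤ c → c < i + p → c ≠ 0 ∧ c ≠ S.ρ x w.prod 0) ∧
      (∀ k, |k| ≤ r → (x (i + k), ∃ k', S.ρ x k' 0 = i + k) =
          (x (i + p + k), ∃ k', S.ρ x k' 0 = i + p + k) ∧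
        ∀ d, |d| ≤ S.R → chain (S.ρ x) w (i + k) (i + k + d) =
          chain (S.ρ x) w (i + p + k) (i + p + k + d)) := by
    obtain ⟨Z, -, hZ⟩ := cut_pigeon (fun c => (x c, ∃ k', S.ρ x k' 0 = c)) S.R r hr0
    obtain ⟨k, hk⟩ := hunb Z
    obtain ⟨w, hw, rfl⟩ := S.T_gen k
    obtain ⟨i, p, h1, h2, h3, h4⟩ := hZ (fun c d => chain (S.ρ x) w c (c + d)) _ hk
    exact ⟨w, hw, i, p, h1, h2, h3, h4⟩
  have hsupp := fun c c' => chain_supp (S.ρ x) S.T_inv w hw c c'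
  have hdisp : ∀ s ∈ w, ∀ c, |S.ρ x s c - c| ≤ S.R := fun s hs c => S.disp s (hw s hs) x hx c
  have hrange : ∀ c d, chain (S.ρ x) w c (c + d) ≠ 0 → |d| ≤ S.R := by
    intro c d h
    obtain ⟨⟨s, hs, h1⟩, -⟩ := hsupp _ _ h
    have := S.disp s hs x hx c
    rw [← h1] at this
    rwa [show c + d - c = d by ring] at this
  -- the configuration
  obtain ⟨X, hX⟩ : ∃ X : ℤ → (A × Prop) × (ℤ → ZMod 2), X = fun c =>
    ((x c, ∃ k', S.ρ x k' 0 = c), fun d => chain (S.ρ x) w c (c + d)) := ⟨_, rfl⟩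
  have hXw : ∀ k, |k| ≤ r → X (i + k) = X (i + p + k) := by
    intro k hk
    obtain ⟨h1, h2⟩ := hwin k hk
    rw [hX]
    refine Prod.ext h1 (funext fun d => ?_)
    show chain (S.ρ x) w (i + k) (i + k + d) = chain (S.ρ x) w (i + p + k) (i + p + k + d)
    by_cases hd : |d| ≤ S.R
    · exact h2 d hd
    · have e1 : chain (S.ρ x) w (i + k) (i + k + d) = 0 := by
        by_contra h; exact hd (hrange _ _ h)
      have e2 : chain (S.ρ x) w (i + p + k) (i + p + k + d) = 0 := by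
        by_contra h; exact hd (hrange _ _ h)
      rw [e1, e2]
  have hxw : ∀ k, |k| ≤ r → x (i + k) = x (i + p + k) := fun k hk =>
    congrArg Prod.fst (hwin k hk).1
  have hp : 0 < p := by linarith
  obtain ⟨y, hy⟩ : ∃ y, y = glue x i p := ⟨_, rfl⟩
  have hySig : y ∈ S.Sig := by
    rw [hy]; exact S.glue_mem hx i p r hrp hr0 (by linarith) hxw
  obtain ⟨Y, hY⟩ : ∃ Y, Y = glue X i p := ⟨_, rfl⟩
  have hYy : ∀ c, (Y c).1.1 = y c := by
    intro c; rw [hY, hy]; unfold glue; rw [hX]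
  have hYw : ∀ c, ∃ n : ℤ, i ≤ c + n * p ∧ c + n * p < i + p ∧
      ∀ k, |k| ≤ r → Y (c + k) = X (c + n * p + k) := by
    intro c; rw [hY]; exact glue_window X i p r hrp hr0 hXw c
  have hYX : ∀ c, i - r ≤ c → c ≤ i + p + r → Y c = X c := by
    intro c h1 h2; rw [hY]; exact glue_eq X i p r hrp hXw c h1 h2
  refine ⟨y, hySig, ⟨p, hp, fun c => by rw [hy]; exact glue_period x i p c⟩, i, ?_, ?_⟩
  · intro c hc
    rw [abs_le] at hc
    rw [hy]
    exact glue_eq x i p r hrp hxw c (by linarith) (by linarith)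
  -- the periodic continuation of the orbit is invariant
  have hOinv : ∀ k c, (Y c).1.2 → (Y (S.ρ y k c)).1.2 := by
    intro k
    refine S.ind (P := fun k => ∀ c, (Y c).1.2 → (Y (S.ρ y k c)).1.2) ?_ ?_ k
    · intro c hc; rwa [map_one, Equiv.Perm.one_apply]
    · intro s hs k ih c hc
      rw [map_mul, Equiv.Perm.mul_apply]
      have h1 := ih c hc
      obtain ⟨n, h2, h3, h4⟩ := hYw (S.ρ y k c)
      have h5 := S.loc s hs y hySig x hx (S.ρ y k c) (S.ρ y k c + n * p) (fun j hj => by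
        rw [← hYy, h4 j (by linarith), hX])
      have h6 := h4 0 (by rw [abs_zero]; exact hr0)
      rw [add_zero, add_zero] at h6
      rw [h6, hX] at h1
      obtain ⟨k', hk'⟩ := h1
      have h7 := S.disp s hs y hySig (S.ρ y k c)
      have h8 := h4 (S.ρ y s (S.ρ y k c) - S.ρ y k c) (by linarith)
      rw [show S.ρ y k c + (S.ρ y s (S.ρ y k c) - S.ρ y k c) = S.ρ y s (S.ρ y k c) by ring,
        h5] at h8
      rw [h8, hX]
      refine ⟨s * k', ?_⟩
      rw [map_mul, Equiv.Perm.mul_apply, hk']; ring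
  have hOnear : ∀ k0, |S.ρ x k0 0 - i| ≤ S.R → ∀ k, |S.ρ y k (S.ρ x k0 0) - i| ≤ R' →
      ∃ k', S.ρ x k' 0 = S.ρ y k (S.ρ x k0 0) := by
    intro k0 hk0 k hk
    have h1 : (Y (S.ρ x k0 0)).1.2 := by
      rw [abs_le] at hk0
      rw [hYX _ (by linarith) (by linarith), hX]
      exact ⟨k0, rfl⟩
    have h2 := hOinv k _ h1
    rw [abs_le] at hk
    rw [hYX _ (by linarith) (by linarith), hX] at h2
    exact h2
  suffices hsuff : ∃ k0 : K, |S.ρ x k0 0 - i| ≤ S.R ∧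
      ∀ Z : ℤ, ∃ k, Z < |S.ρ y k (S.ρ x k0 0)| by
    obtain ⟨k0, h1, h2⟩ := hsuff
    exact ⟨k0, h1, h2, hOnear k0 h1⟩
  by_contra hcon
  push Not at hcon
  obtain ⟨f, hf⟩ : ∃ f : ℤ → ℤ → ZMod 2, f = fun c c' => (Y c).2 (c' - c) := ⟨_, rfl⟩
  -- local description of `f`
  have hfloc : ∀ c, ∃ n : ℤ, i ≤ c + n * p ∧ c + n * p < i + p ∧
      (∀ k, |k| ≤ r → y (c + k) = x (c + n * p + k)) ∧
      ∀ k, |k| ≤ r → ∀ c', f (c + k) c' = chain (S.ρ x) w (c + n * p + k) (c' + n * p) := by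
    intro c
    obtain ⟨n, h1, h2, h3⟩ := hYw c
    refine ⟨n, h1, h2, fun k hk => ?_, fun k hk c' => ?_⟩
    · rw [← hYy, h3 k hk, hX]
    · rw [hf]
      show (Y (c + k)).2 (c' - (c + k)) = _
      rw [h3 k hk, hX]
      show chain (S.ρ x) w (c + n * p + k) (c + n * p + k + (c' - (c + k))) = _
      congr 1; ring
  have hf0 : ∀ c, ∃ n : ℤ, i ≤ c + n * p ∧ c + n * p < i + p ∧
      (∀ k, |k| ≤ r → y (c + k) = x (c + n * p + k)) ∧
      ∀ c', f c c' = chain (S.ρ x) w (c + n * p) (c' + n * p) := by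
    intro c
    obtain ⟨n, h1, h2, h3, h4⟩ := hfloc c
    refine ⟨n, h1, h2, h3, fun c' => ?_⟩
    have := h4 0 (by rw [abs_zero]; exact hr0) c'
    rwa [add_zero, add_zero] at this
  have hfR : ∀ a b, f a b ≠ 0 → |b - a| ≤ S.R := by
    intro a b hab
    obtain ⟨n, -, -, -, h4⟩ := hf0 a
    rw [h4, show b + n * p = a + n * p + (b - a) by ring] at hab
    exact hrange _ _ hab
  have hfs : ∀ a b, f a b = f b a := by
    intro a b
    by_cases hab : |b - a| ≤ S.R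
    · obtain ⟨n, -, -, -, h4⟩ := hfloc a
      have e1 := h4 0 (by rw [abs_zero]; exact hr0) b
      have e2 := h4 (b - a) (by linarith) a
      rw [add_zero, add_zero] at e1
      rw [show a + (b - a) = b by ring, show a + n * p + (b - a) = b + n * p by ring] at e2
      rw [e1, e2, chain_symm]
    · have e1 : f a b = 0 := by
        by_contra h; exact hab (hfR a b h)
      have e2 : f b a = 0 := by
        by_contra h; exact hab (by rw [abs_sub_comm]; exact hfR b a h)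
      rw [e1, e2]
  have hfd : ∀ a, f a a = 0 := by
    intro a
    obtain ⟨n, -, -, -, h4⟩ := hf0 a
    rw [h4, chain_diag]
  have hfb : ∀ c, ∑ d ∈ Finset.Icc (-S.R) S.R, f c (c + d) = 0 := by
    intro c
    obtain ⟨n, h1, h2, -, h4⟩ := hf0 c
    have e : ∑ d ∈ Finset.Icc (-S.R) S.R, f c (c + d) =
        ∑ d ∈ Finset.Icc (-S.R) S.R, chain (S.ρ x) w (c + n * p) (c + n * p + d) := by
      refine Finset.sum_congr rfl fun d _ => ?_
      rw [h4]; congr 1; ring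
    rw [e, chain_bdry (S.ρ x) S.R w hdisp]
    obtain ⟨h5, h6⟩ := hout _ h1 h2
    unfold dl
    rw [if_neg h5, if_neg h6, add_zero]
  -- the finite invariant set
  let V : Set ℤ := {c | ∃ o, |o - i| ≤ S.R ∧ (∃ k0, S.ρ x k0 0 = o) ∧ ∃ k, c = S.ρ y k o}
  have hVfin : V.Finite := by
    have hsub : V ⊆ ⋃ o ∈ {o : ℤ | |o - i| ≤ S.R ∧ ∃ k0, S.ρ x k0 0 = o},
        {c | ∃ k, c = S.ρ y k o} := by
      rintro c ⟨o, h1, h2, h3⟩
      exact Set.mem_biUnion (show o ∈ {o : ℤ | |o - i| ≤ S.R ∧ ∃ k0, S.ρ x k0 0 = o} from ⟨h1, h2⟩)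
        h3
    refine Set.Finite.subset (Set.Finite.biUnion ?_ ?_) hsub
    · refine Set.Finite.subset (Set.finite_Icc (i - S.R) (i + S.R)) ?_
      rintro o ⟨h, -⟩
      rw [abs_le] at h
      exact ⟨by linarith, by linarith⟩
    · rintro o ⟨h, k0, rfl⟩
      obtain ⟨Z, hZ⟩ := hcon k0 h
      refine Set.Finite.subset (Set.finite_Icc (-Z) Z) ?_
      rintro c ⟨k, rfl⟩
      have := hZ k
      rw [abs_le] at this
      exact this
  have hmemV : ∀ c, c ∈ hVfin.toFinset ↔ ∃ o, |o - i| ≤ S.R ∧ (∃ k0, S.ρ x k0 0 = o) ∧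
      ∃ k, c = S.ρ y k o := by
    intro c; rw [Set.Finite.mem_toFinset]; rfl
  have hzero := flux_zero S.R i f hfs hfd hfR hfb hVfin.toFinset (by
    intro a b hab ha
    rw [hmemV] at ha ⊢
    obtain ⟨o, h1, h2, k, rfl⟩ := ha
    obtain ⟨n, -, -, h3, h4⟩ := hf0 (S.ρ y k o)
    rw [h4] at hab
    obtain ⟨⟨s, hs, h5⟩, -⟩ := hsupp _ _ hab
    refine ⟨o, h1, h2, s * k, ?_⟩
    have := S.loc s hs y hySig x hx (S.ρ y k o) (S.ρ y k o + n * p)
      (fun j hj => h3 j (by linarith))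
    rw [← h5] at this
    rw [map_mul, Equiv.Perm.mul_apply]
    linarith) (by
    intro c hc c' hc' hne
    rw [Finset.mem_Ico] at hc hc'
    have e : f c c' = chain (S.ρ x) w c c' := by
      rw [hf]
      show (Y c).2 (c' - c) = _
      rw [hYX c (by linarith [hc.1]) (by linarith [hc.2]), hX]
      show chain (S.ρ x) w c (c + (c' - c)) = _
      congr 1; ring
    rw [e] at hne
    obtain ⟨-, k, hk⟩ := hsupp _ _ hne
    rw [hmemV]
    refine ⟨c, ?_, ⟨k, hk.symm⟩, 1, by rw [map_one, Equiv.Perm.one_apply]⟩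
    rw [abs_le]; constructor <;> linarith [hc.1, hc.2])
  have hone : ∑ c ∈ Finset.Ico i (i + S.R), ∑ c' ∈ Finset.Ico (i - S.R) i, f c c' = 1 := by
    rw [← hflux, ← chain_flux (S.ρ x) S.R w hdisp]
    refine Finset.sum_congr rfl fun c hc => Finset.sum_congr rfl fun c' _ => ?_
    rw [Finset.mem_Ico] at hc
    rw [hf]
    show (Y c).2 (c' - c) = _
    rw [hYX c (by linarith [hc.1]) (by linarith [hc.2]), hX]
    show chain (S.ρ x) w c (c + (c' - c)) = _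
    congr 1; ring
  rw [hzero] at hone
  exact absurd hone (by decide)

end Sys

end Pool.Agent.FG76
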