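import Mathlib
import Pool.Agent.FG76.Sys

set_option autoImplicit false

namespace Pool.Agent.FG76

def InB (B p : ℤ) : Prop := -B ≤ p ∧ p < B

def Cross (p q : ℤ) : Prop := (0 ≤ p ∧ q < 0) ∨ (p < 0 ∧ 0 ≤ q)

theorem Cross.symm {p q : ℤ} (h : Cross p q) : Cross q p := by
  unfold Cross at *; tauto

/-- side of the cut, as an element of `ZMod 2` -/
def eta (p : ℤ) : ZMod 2 := if 0 ≤ p then 1 else 0

theorem eta_cross {p q : ℤ} (h : Cross p q) : eta q = eta p + 1 := by
  unfold eta
  rcases h with ⟨h1, h2⟩ | ⟨h1, h2⟩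
  · rw [if_neg (by omega), if_pos h1]; decide
  · rw [if_pos h2, if_neg (by omega)]; decide

theorem eta_not_cross {p q : ℤ} (h : ¬ Cross p q) : eta q = eta p := by
  unfold eta
  unfold Cross at h
  by_cases h1 : 0 ≤ p
  · have : 0 ≤ q := by by_contra h2; exact h (Or.inl ⟨h1, by omega⟩)
    rw [if_pos h1, if_pos this]
  · have : ¬ 0 ≤ q := by intro h2; exact h (Or.inr ⟨by omega, h2⟩)
    rw [if_neg h1, if_neg this]

namespace Sys

variable {A K : Type} [Group K] (S : Sys A K)

def Adj (pos : K → ℤ) (B : ℤ) (k k' : K) : Prop :=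
  InB B (pos k) ∧ InB B (pos k') ∧ ∃ s ∈ S.T, k' = s * k

def Rel (pos : K → ℤ) (B : ℤ) : K → K → Prop := Relation.ReflTransGen (S.Adj pos B)

/-- `pos` moves boundedly along letters. -/
def Bdd (pos : K → ℤ) : Prop := ∀ s ∈ S.T, ∀ k, |pos (s * k) - pos k| ≤ S.R

variable {S} {pos : K → ℤ} {B : ℤ}

theorem Adj.symm {k k' : K} (h : S.Adj pos B k k') : S.Adj pos B k' k := by
  obtain ⟨h1, h2, s, hs, rfl⟩ := h
  exact ⟨h2, h1, s⁻¹, S.T_inv s hs, by simp⟩

theorem Rel.symm {k k' : K} (h : S.Rel pos B k k') : S.Rel pos B k' k := by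
  induction h with
  | refl => exact Relation.ReflTransGen.refl
  | tail _ h ih => exact Relation.ReflTransGen.head h.symm ih

theorem Rel.trans {k k' k'' : K} (h : S.Rel pos B k k') (h' : S.Rel pos B k' k'') :
    S.Rel pos B k k'' := Relation.ReflTransGen.trans h h'

theorem Rel.refl (k : K) : S.Rel pos B k k := Relation.ReflTransGen.refl

theorem Rel.inB {k k' : K} (h : S.Rel pos B k k') (hk : InB B (pos k)) : InB B (pos k') := by
  induction h with
  | refl => exact hk
  | tail _ h _ => exact h.2.1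

/-- Right translation. -/
theorem rel_translate (a : K) (k k' : K) :
    S.Rel (fun k => pos (k * a)) B k k' ↔ S.Rel pos B (k * a) (k' * a) := by
  constructor
  · intro h
    induction h with
    | refl => exact Relation.ReflTransGen.refl
    | tail _ h ih =>
      refine Relation.ReflTransGen.tail ih ?_
      obtain ⟨h1, h2, s, hs, rfl⟩ := h
      exact ⟨h1, h2, s, hs, by rw [mul_assoc]⟩
  · intro h
    have : ∀ g, S.Rel pos B (k * a) g → S.Rel (fun k => pos (k * a)) B k (g * a⁻¹) := by
      intro g hg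
      induction hg with
      | refl => rw [mul_inv_cancel_right]; exact Relation.ReflTransGen.refl
      | tail _ h ih =>
        refine Relation.ReflTransGen.tail ih ?_
        obtain ⟨h1, h2, s, hs, rfl⟩ := h
        refine ⟨?_, ?_, s, hs, by rw [mul_assoc]⟩
        · show InB B (pos (_ * a⁻¹ * a)); rw [inv_mul_cancel_right]; exact h1
        · show InB B (pos (_ * a⁻¹ * a)); rw [inv_mul_cancel_right]; exact h2
    have := this _ h
    rwa [mul_inv_cancel_right] at this

open Classical in
/-- Crossing edges inside the component of `v`. -/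
noncomputable def kap (S : Sys A K) (pos : K → ℤ) (B : ℤ) (v k k' : K) : ZMod 2 :=
  if S.Rel pos B v k ∧ S.Rel pos B v k' ∧ Cross (pos k) (pos k') then 1 else 0

theorem kap_symm (v k k' : K) : S.kap pos B v k k' = S.kap pos B v k' k := by
  unfold kap
  congr 1
  apply propext
  constructor
  · rintro ⟨h1, h2, h3⟩; exact ⟨h2, h1, h3.symm⟩
  · rintro ⟨h1, h2, h3⟩; exact ⟨h2, h1, h3.symm⟩

theorem Bdd.word (hb : S.Bdd pos) (w : List K) (hw : ∀ s ∈ w, s ∈ S.T) (k : K) :
    |pos (w.prod * k) - pos k| ≤ w.length * S.R := by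
  induction w with
  | nil => simp
  | cons s w ih =>
    have h1 := ih fun s' hs' => hw s' (by simp [hs'])
    have h2 := hb s (hw s (by simp)) (w.prod * k)
    rw [List.prod_cons, List.length_cons, mul_assoc]
    push_cast
    have e : pos (s * (w.prod * k)) - pos k =
      (pos (s * (w.prod * k)) - pos (w.prod * k)) + (pos (w.prod * k) - pos k) := by ring
    rw [e]
    refine (abs_add_le _ _).trans ?_
    linarith

theorem Bdd.cross (hb : S.Bdd pos) {s : K} (hs : s ∈ S.T) {k : K}
    (h : Cross (pos k) (pos (s * k))) : -S.R ≤ pos k ∧ pos k < S.R := by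
  have := hb s hs k
  rw [abs_le] at this
  rcases h with h | h <;> constructor <;> linarith [h.1, h.2, S.R_pos]

theorem telescope (v : K) (w : List K) (k : K)
    (h : ∀ u, u <:+ w → S.Rel pos B v (u.prod * k)) :
    pathSum (S.kap pos B v) w k = eta (pos (w.prod * k)) + eta (pos k) := by
  induction w with
  | nil => simp [pathSum]; rw [CharTwo.add_self_eq_zero]
  | cons s w ih =>
    have h1 := ih fun u hu => h u (hu.trans (List.suffix_cons s w))
    have h2 := h w (List.suffix_cons s w)
    have h3 := h (s :: w) (List.suffix_refl _)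
    rw [List.prod_cons, mul_assoc] at h3
    rw [pathSum, h1, List.prod_cons, mul_assoc]
    unfold kap
    by_cases hc : Cross (pos (w.prod * k)) (pos (s * (w.prod * k)))
    · rw [if_pos ⟨h2, h3, hc⟩, eta_cross hc]; ring
    · rw [if_neg (fun h => hc h.2.2), eta_not_cross hc]; ring

theorem pathSum_zero (hb : S.Bdd pos) (v : K) (w : List K) (hw : ∀ s ∈ w, s ∈ S.T) (k : K)
    (h : ∀ u, u <:+ w → S.Rel pos B v (u.prod * k) →
      ¬ (-S.R ≤ pos (u.prod * k) ∧ pos (u.prod * k) < S.R)) :
    pathSum (S.kap pos B v) w k = 0 := by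
  induction w with
  | nil => rfl
  | cons s w ih =>
    rw [pathSum, ih (fun s' hs' => hw s' (by simp [hs']))
      fun u hu => h u (hu.trans (List.suffix_cons s w)), add_zero]
    unfold kap
    rw [if_neg]
    rintro ⟨h1, h2, h3⟩
    exact h w (List.suffix_cons s w) h1 (hb.cross (hw s (by simp)) h3)

theorem all_in (v : K) (w : List K) (hw : ∀ s ∈ w, s ∈ S.T) (k : K)
    (h : ∀ u, u <:+ w → InB B (pos (u.prod * k))) :
    ∀ u, u <:+ w → (S.Rel pos B v (u.prod * k) ↔ S.Rel pos B v k) := by
  induction w with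
  | nil =>
    intro u hu
    rw [List.suffix_nil] at hu
    subst hu; simp
  | cons s w ih =>
    have ih' := ih (fun s' hs' => hw s' (by simp [hs']))
      fun u hu => h u (hu.trans (List.suffix_cons s w))
    intro u hu
    rw [List.suffix_cons_iff] at hu
    rcases hu with rfl | hu
    · have h2 := h w (List.suffix_cons s w)
      have h3 := h (s :: w) (List.suffix_refl _)
      rw [List.prod_cons, mul_assoc] at h3
      rw [← ih' w (List.suffix_refl _), List.prod_cons, mul_assoc]
      have hadj : S.Adj pos B (w.prod * k) (s * (w.prod * k)) := ⟨h2, h3, s, hw s (by simp), rfl⟩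
      constructor
      · intro h; exact h.tail hadj.symm
      · intro h; exact h.tail hadj
    · exact ih' u hu

theorem relator (hb : S.Bdd pos) (hB : (2 * S.L + 1) * S.R ≤ B) (v : K) (w : List K)
    (hw : ∀ s ∈ w, s ∈ S.T) (hL : w.length ≤ S.L) (hp : w.prod = 1) (k : K) :
    pathSum (S.kap pos B v) w k = 0 := by
  by_cases hc : ∃ u, u <:+ w ∧ S.Rel pos B v (u.prod * k) ∧
      (-S.R ≤ pos (u.prod * k) ∧ pos (u.prod * k) < S.R)
  · obtain ⟨u, hu, hr, h1, h2⟩ := hc
    have hR := S.R_pos
    have len : ∀ u, u <:+ w → (u.length : ℤ) * S.R ≤ S.L * S.R := by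
      intro u hu
      have : u.length ≤ S.L := (hu.length_le).trans hL
      exact mul_le_mul_of_nonneg_right (by exact_mod_cast this) hR.le
    have hin : ∀ u, u <:+ w → InB B (pos (u.prod * k)) := by
      intro u' hu'
      have a1 := hb.word u (fun s hs => hw s (hu.subset hs)) k
      have a2 := hb.word u' (fun s hs => hw s (hu'.subset hs)) k
      have l1 := len u hu
      have l2 := len u' hu'
      rw [abs_le] at a1 a2
      constructor <;> nlinarith
    have hall := all_in v w hw k hin
    have hk : S.Rel pos B v k := (hall u hu).1 hr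
    rw [telescope v w k fun u' hu' => (hall u' hu').2 hk, hp, one_mul, CharTwo.add_self_eq_zero]
  · push Not at hc
    refine pathSum_zero hb v w hw k fun u hu h1 h2 => ?_
    exact absurd h2.2 (not_lt.2 (hc u hu h1 h2.1))

/-- The wall function of the component of `v`. -/
theorem exists_pot (hb : S.Bdd pos) (hB : (2 * S.L + 1) * S.R ≤ B) (v : K) :
    ∃ ψ : K → ZMod 2, ∀ s ∈ S.T, ∀ k, ψ (s * k) = ψ k + S.kap pos B v k (s * k) :=
  S.pot _ (kap_symm v) fun w hw hL hp k => relator hb hB v w hw hL hp k

end Sys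

theorem pot_word {K : Type} [Group K] {T : Set K} {κ : K → K → ZMod 2} {ψ : K → ZMod 2}
    (h : ∀ s ∈ T, ∀ k, ψ (s * k) = ψ k + κ k (s * k)) (w : List K) (hw : ∀ s ∈ w, s ∈ T) (k : K) :
    ψ (w.prod * k) = ψ k + pathSum κ w k := by
  induction w with
  | nil => simp [pathSum]
  | cons s w ih =>
    rw [List.prod_cons, mul_assoc, h s (hw s (by simp)), ih fun s' hs' => hw s' (by simp [hs']),
      pathSum]
    ring

end Pool.Agent.FG76
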