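import Mathlib

set_option autoImplicit false

namespace Pool.Agent.FG76

open scoped Pointwise

/-- Ping-pong for right multiplication. -/
theorem pingpong {K : Type} [Group K] (a b : K) (X1 Y1 X2 Y2 : Set K)
    (n1 : X1.Nonempty) (n2 : X2.Nonempty)
    (d1 : ∀ x, x ∈ X1 → x ∈ X2 → False) (d2 : ∀ x, x ∈ Y1 → x ∈ Y2 → False)
    (d3 : ∀ x, x ∈ X1 → x ∈ Y1 → False) (d4 : ∀ x, x ∈ X1 → x ∈ Y2 → False)
    (d5 : ∀ x, x ∈ X2 → x ∈ Y1 → False) (d6 : ∀ x, x ∈ X2 → x ∈ Y2 → False)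
    (ha : ∀ x, x ∉ Y1 → x * a ∈ X1) (ha' : ∀ x, x ∉ X1 → x * a⁻¹ ∈ Y1)
    (hb : ∀ x, x ∉ Y2 → x * b ∈ X2) (hb' : ∀ x, x ∉ X2 → x * b⁻¹ ∈ Y2) :
    ∃ f : FreeGroup (Fin 2) →* K, Function.Injective f := by
  let act : MulAction K K :=
    { smul := fun g x => x * g⁻¹
      one_smul := fun x => by show x * (1:K)⁻¹ = x; simp
      mul_smul := fun g h x => by
        show x * (g * h)⁻¹ = (x * h⁻¹) * g⁻¹
        simp [mul_assoc] }
  have hsm : ∀ g x : K, @HSMul.hSMul K K K (@instHSMul K K act.toSMul) g x = x * g⁻¹ :=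
    fun g x => rfl
  refine ⟨FreeGroup.lift ![a⁻¹, b⁻¹], ?_⟩
  refine @FreeGroup.injective_lift_of_ping_pong (Fin 2) _ K _ ![a⁻¹, b⁻¹] K act
    ![X1, X2] ![Y1, Y2] ?_ ?_ ?_ ?_ ?_ ?_
  · intro i; fin_cases i
    · exact n1
    · exact n2
  · intro i j hij
    fin_cases i <;> fin_cases j
    · exact absurd rfl hij
    · exact Set.disjoint_left.2 fun x h1 h2 => d1 x h1 h2
    · exact Set.disjoint_left.2 fun x h1 h2 => d1 x h2 h1
    · exact absurd rfl hij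
  · intro i j hij
    fin_cases i <;> fin_cases j
    · exact absurd rfl hij
    · exact Set.disjoint_left.2 fun x h1 h2 => d2 x h1 h2
    · exact Set.disjoint_left.2 fun x h1 h2 => d2 x h2 h1
    · exact absurd rfl hij
  · intro i j
    fin_cases i <;> fin_cases j
    · exact Set.disjoint_left.2 fun x h1 h2 => d3 x h1 h2
    · exact Set.disjoint_left.2 fun x h1 h2 => d4 x h1 h2
    · exact Set.disjoint_left.2 fun x h1 h2 => d5 x h1 h2
    · exact Set.disjoint_left.2 fun x h1 h2 => d6 x h1 h2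
  · intro i
    fin_cases i
    · rintro _ ⟨x, hx, rfl⟩
      show x * (a⁻¹)⁻¹ ∈ X1
      rw [inv_inv]; exact ha x hx
    · rintro _ ⟨x, hx, rfl⟩
      show x * (b⁻¹)⁻¹ ∈ X2
      rw [inv_inv]; exact hb x hx
  · intro i
    fin_cases i
    · rintro _ ⟨x, hx, rfl⟩
      show x * ((a⁻¹)⁻¹)⁻¹ ∈ Y1
      rw [inv_inv]; exact ha' x hx
    · rintro _ ⟨x, hx, rfl⟩
      show x * ((b⁻¹)⁻¹)⁻¹ ∈ Y2
      rw [inv_inv]; exact hb' x hx


/-- The data of a wall `E`, with half space indicator `ψ`, and a translation `t`. -/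
structure WallData {K : Type} [Group K] (G : Subgroup K) (t : K) (E : Set K) (ψ : K → Bool) :
    Prop where
  nor : ∀ g ∈ G, ∀ n : ℤ, t ^ n * g * t ^ (-n) ∈ G
  one : (1 : K) ∈ E
  sep0 : ∀ h ∈ G, h ∉ E → ∀ k, ψ k ≠ ψ h → ψ (k * h⁻¹) = ψ h⁻¹
  sepn : ∀ h ∈ G, ∀ n : ℤ, n ≠ 0 → ∀ k, ψ k ≠ ψ (t ^ n * h) →
    ψ (k * (t ^ n * h)⁻¹) = ψ (t ^ n * h)⁻¹
  inv : ∀ g ∈ G, g ∈ E → ∀ k, ψ (k * g) = ψ k
  tr : ∀ v ∈ E, ∀ h ∈ G, v * h ∈ E → h ∈ E
  fin : ∀ a, ∃ F : Finset K, ∀ x, ψ (a * x) ≠ ψ x → ∃ v ∈ F, v * x ∈ E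
  evp : ∀ k, ∃ n0 : ℤ, ∀ n, n0 ≤ n → ψ (k * t ^ n) = true ∧ ψ (k * t ^ (-n)) = false
  uni : ∃ N : ℤ, ∀ g ∈ G, ∀ n, N ≤ n → ψ (t ^ n * g) = ψ (t ^ N * g) ∧
    ψ (t ^ (-n) * g) = ψ (t ^ (-N) * g)
  et : ∀ g ∈ G, g ∈ E → ψ (g * t⁻¹) = false ∧ ψ (g * t) = true
  tn : ∀ n : ℤ, 1 ≤ n → ψ (t ^ n) = true ∧ ψ (t ^ (-n)) = false

namespace WallData

variable {K : Type} [Group K] {G : Subgroup K} {t : K} {E : Set K} {ψ : K → Bool}

theorem mirror (W : WallData G t E ψ) : WallData G t⁻¹ E (fun k => !ψ k) where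
  nor := by
    intro g hg n
    have := W.nor g hg (-n)
    simpa [inv_zpow'] using this
  one := W.one
  sep0 := by
    intro h hG hE k hk
    have := W.sep0 h hG hE k (by simpa using hk)
    simp [this]
  sepn := by
    intro h hG n hn k hk
    have := W.sepn h hG (-n) (by omega) k (by simpa [inv_zpow'] using hk)
    simp only [inv_zpow']
    rw [this]
  inv := by
    intro g hG hE k
    simp [W.inv g hG hE k]
  tr := W.tr
  fin := by
    intro a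
    obtain ⟨F, hF⟩ := W.fin a
    exact ⟨F, fun x hx => hF x (by simpa using hx)⟩
  evp := by
    intro k
    obtain ⟨n0, h⟩ := W.evp k
    refine ⟨n0, fun n hn => ?_⟩
    have := h n hn
    simp only [inv_zpow', neg_neg]
    rw [this.1, this.2]
    exact ⟨rfl, rfl⟩
  uni := by
    obtain ⟨N, hN⟩ := W.uni
    refine ⟨N, fun g hg n hn => ?_⟩
    have := hN g hg n hn
    simp only [inv_zpow', neg_neg]
    rw [this.1, this.2]
    exact ⟨rfl, rfl⟩
  et := by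
    intro g hG hE
    have := W.et g hG hE
    rw [inv_inv, this.1, this.2]
    exact ⟨rfl, rfl⟩
  tn := by
    intro n hn
    have := W.tn n hn
    simp only [inv_zpow', neg_neg]
    rw [this.1, this.2]
    exact ⟨rfl, rfl⟩

/-- Positive half spaces `H⁺ₙ` and `H⁺ₙ g` are disjoint. -/
def DPP (t : K) (ψ : K → Bool) (g : K) (n : ℤ) : Prop :=
  ∀ k, ψ (k * t ^ (-n)) = true → ψ (k * g⁻¹ * t ^ (-n)) = true → False

theorem sept (W : WallData G t E ψ) (n : ℤ) (hn : 0 ≤ n) (k : K) (hk : ψ k = false) :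
    ψ (k * t ^ (-n)) = false := by
  rcases eq_or_lt_of_le hn with h | h
  · subst h; simpa using hk
  · have h1 := W.sepn 1 G.one_mem n (by omega) k (by
      rw [mul_one, (W.tn n (by omega)).1, hk]; simp)
    rw [mul_one, ← zpow_neg, (W.tn n (by omega)).2] at h1
    exact h1

theorem sept' (W : WallData G t E ψ) (n : ℤ) (hn : 0 ≤ n) (k : K) (hk : ψ k = true) :
    ψ (k * t ^ n) = true := by
  by_contra hcon
  have h1 : ψ (k * t ^ n) = false := by simpa using hcon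
  have := W.sept n hn _ h1
  rw [show k * t ^ n * t ^ (-n) = k by group, hk] at this
  exact absurd this (by simp)

theorem DPP_mono (W : WallData G t E ψ) {g : K} {n n' : ℤ} (h : n ≤ n') (hD : DPP t ψ g n) :
    DPP t ψ g n' := by
  have key : ∀ k, ψ (k * t ^ (-n')) = true → ψ (k * t ^ (-n)) = true := by
    intro k hk
    by_contra hcon
    have h1 : ψ (k * t ^ (-n)) = false := by simpa using hcon
    have := W.sept (n' - n) (by omega) _ h1
    rw [show k * t ^ (-n) * t ^ (-(n' - n)) = k * t ^ (-n') by group, hk] at this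
    exact absurd this (by simp)
  intro k h1 h2
  exact hD k (key k h1) (key _ h2)

theorem case10 (W : WallData G t E ψ) {g : K} (hg : g ∈ G) (n : ℤ)
    (hE : t ^ n * g * t ^ (-n) ∉ E) (h1 : ψ (t ^ n * g * t ^ (-n)) = true)
    (h0 : ψ (t ^ n * g * t ^ (-n))⁻¹ = false) : ∃ n', DPP t ψ g n' := by
  obtain ⟨h, hh⟩ : ∃ h, h = t ^ n * g * t ^ (-n) := ⟨_, rfl⟩
  have hG : h ∈ G := by rw [hh]; exact W.nor g hg n
  rw [← hh] at hE h1 h0
  have mono1 : ∀ k, ψ k = false → ψ (k * h⁻¹) = false := by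
    intro k hk
    rw [← h0]
    exact W.sep0 h hG hE k (by rw [hk, h1]; simp)
  have mono2 : ∀ (j : ℕ) k, ψ k = false → ψ (k * h⁻¹ ^ j) = false := by
    intro j
    induction j with
    | zero => intro k hk; simpa using hk
    | succ j ih =>
      intro k hk
      rw [pow_succ, ← mul_assoc]
      exact mono1 _ (ih k hk)
  have mono3 : ∀ k, ψ k = true → ψ (k * h) = true := by
    intro k hk
    by_contra hcon
    have h1 : ψ (k * h) = false := by simpa using hcon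
    have := mono1 _ h1
    rw [mul_inv_cancel_right, hk] at this
    exact absurd this (by simp)
  have pos : ∀ j : ℕ, ψ (h ^ (j + 1)) = true := by
    intro j
    induction j with
    | zero => simpa using h1
    | succ j ih => rw [pow_succ]; exact mono3 _ ih
  have neg : ∀ j : ℕ, ψ (h⁻¹ ^ (j + 1)) = false := by
    intro j
    have := mono2 j h⁻¹ h0
    rwa [← pow_succ'] at this
  obtain ⟨N, hN⟩ := W.uni
  obtain ⟨N1, hN1, hN2⟩ : ∃ N1 : ℤ, N ≤ N1 ∧ 1 ≤ N1 := ⟨max N 1, le_max_left _ _, le_max_right _ _⟩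
  have drop : ∃ j : ℕ, ψ (t ^ N1 * h⁻¹ ^ j) = false := by
    by_contra hcon
    push Not at hcon
    have hall : ∀ j : ℕ, ψ (t ^ N1 * h⁻¹ ^ j) = true := fun j => by simpa using hcon j
    obtain ⟨F, hF⟩ := W.fin (t ^ N1)
    have hv : ∀ j : ℕ, ∃ v : F, (v : K) * h⁻¹ ^ (j + 1) ∈ E := by
      intro j
      obtain ⟨v, hv, hvE⟩ := hF (h⁻¹ ^ (j + 1)) (by rw [hall, neg]; simp)
      exact ⟨⟨v, hv⟩, hvE⟩
    choose v hv using hv
    obtain ⟨j, j', hne, heq⟩ := Finite.exists_ne_map_eq_of_infinite v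
    wlog hlt : j < j' generalizing j j'
    · exact this j' j (Ne.symm hne) heq.symm (by omega)
    obtain ⟨i, rfl⟩ : ∃ i, j' = j + (i + 1) := ⟨j' - j - 1, by omega⟩
    have hE2 : h⁻¹ ^ (i + 1) ∈ E := by
      refine W.tr _ (hv j) (h⁻¹ ^ (i + 1)) (G.pow_mem (G.inv_mem hG) _) ?_
      rw [mul_assoc, ← pow_add, heq]
      have := hv (j + (i + 1))
      rwa [show j + 1 + (i + 1) = j + (i + 1) + 1 by omega]
    have e1 := W.inv _ (G.pow_mem (G.inv_mem hG) _) hE2 (h ^ (i + 1))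
    have e2 := W.inv _ (G.pow_mem (G.inv_mem hG) _) hE2 1
    rw [inv_pow, mul_inv_cancel, pos i] at e1
    rw [one_mul, neg i, e1] at e2
    exact absurd e2 (by simp)
  classical
  have hfind := Nat.find_spec drop
  have hmin : ∀ j < Nat.find drop, ψ (t ^ N1 * h⁻¹ ^ j) = true := fun j hj => by
    simpa using Nat.find_min drop hj
  obtain ⟨r, hr⟩ : ∃ r, Nat.find drop = r + 1 := by
    rcases Nat.exists_eq_succ_of_ne_zero (n := Nat.find drop) (by
      intro h0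
      rw [h0, pow_zero, mul_one, (W.tn N1 hN2).1] at hfind
      exact absurd hfind (by simp)) with ⟨r, hr⟩
    exact ⟨r, hr⟩
  rw [hr] at hfind hmin
  have hr1 : ∀ q, N1 ≤ q → ψ (t ^ q * h⁻¹ ^ r) = true := by
    intro q hq
    rw [(hN _ (G.pow_mem (G.inv_mem hG) r) q (by omega)).1,
      ← (hN _ (G.pow_mem (G.inv_mem hG) r) N1 (by omega)).1]
    exact hmin r (by omega)
  have hr2 : ∀ q, N1 ≤ q → ψ (t ^ q * h⁻¹ ^ (r + 1)) = false := by
    intro q hq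
    rw [(hN _ (G.pow_mem (G.inv_mem hG) (r + 1)) q (by omega)).1,
      ← (hN _ (G.pow_mem (G.inv_mem hG) (r + 1)) N1 (by omega)).1]
    exact hfind
  obtain ⟨q1, hq1⟩ := W.evp (h ^ r)
  obtain ⟨q2, hq2⟩ := W.evp (h ^ (r + 1))
  obtain ⟨q, hqN, hqq1, hqq2⟩ : ∃ q, N1 ≤ q ∧ q1 ≤ q ∧ q2 ≤ q :=
    ⟨max N1 (max q1 q2), by omega, by omega, by omega⟩
  have hA0 := (hq1 q hqq1).2
  have hB0 := (hq2 q hqq2).2
  have claimA : ∀ k, ψ (k * t ^ (-q)) = true → ψ (k * h⁻¹ ^ r) = true := by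
    intro k hk
    by_contra hcon
    have h1 : ψ (k * h⁻¹ ^ r) = false := by simpa using hcon
    have := W.sepn (h⁻¹ ^ r) (G.pow_mem (G.inv_mem hG) r) q (by omega) (k * h⁻¹ ^ r)
      (by rw [h1, hr1 q hqN]; simp)
    rw [show k * h⁻¹ ^ r * (t ^ q * h⁻¹ ^ r)⁻¹ = k * t ^ (-q) by group,
      show (t ^ q * h⁻¹ ^ r)⁻¹ = h ^ r * t ^ (-q) by group, hk, hA0] at this
    exact absurd this (by simp)
  have claimB : ∀ k, ψ (k * t ^ (-q)) = true → ψ (k * h⁻¹ ^ (r + 1)) = false := by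
    intro k hk
    by_contra hcon
    have h1 : ψ (k * h⁻¹ ^ (r + 1)) = true := by simpa using hcon
    have := W.sepn (h⁻¹ ^ (r + 1)) (G.pow_mem (G.inv_mem hG) (r + 1)) q (by omega)
      (k * h⁻¹ ^ (r + 1)) (by rw [h1, hr2 q hqN]; simp)
    rw [show k * h⁻¹ ^ (r + 1) * (t ^ q * h⁻¹ ^ (r + 1))⁻¹ = k * t ^ (-q) by group,
      show (t ^ q * h⁻¹ ^ (r + 1))⁻¹ = h ^ (r + 1) * t ^ (-q) by group, hk, hB0] at this
    exact absurd this (by simp)
  have hDh : DPP t ψ h q := by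
    intro k h1 h2
    have hb := claimB k h1
    have ha := claimA _ h2
    rw [mul_assoc, ← pow_succ', hb] at ha
    exact absurd ha (by simp)
  refine ⟨n + q, fun k h1 h2 => hDh (k * t ^ (-n)) ?_ ?_⟩
  · rw [show k * t ^ (-n) * t ^ (-q) = k * t ^ (-(n + q)) by group]; exact h1
  · rw [hh, show k * t ^ (-n) * (t ^ n * g * t ^ (-n))⁻¹ * t ^ (-q)
      = k * g⁻¹ * t ^ (-(n + q)) by group]
    exact h2

/-- Main dichotomy lemma. -/
theorem DLp (W : WallData G t E ψ) {g : K} (hg : g ∈ G) (n : ℤ)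
    (h0 : ψ (g⁻¹ * t ^ (-n)) = false) (hn : 1 ≤ n) (hE : t ^ n * g * t ^ (-n) ∉ E) :
    ∃ n', DPP t ψ g n' := by
  have hG : t ^ n * g * t ^ (-n) ∈ G := W.nor g hg n
  cases hh1 : ψ (t ^ n * g * t ^ (-n)) with
  | false =>
    cases hh2 : ψ (t ^ n * g * t ^ (-n))⁻¹ with
    | false =>
      refine ⟨n, fun k h1 h2 => ?_⟩
      have := W.sep0 _ hG hE (k * t ^ (-n)) (by rw [h1, hh1]; simp)
      rw [show k * t ^ (-n) * (t ^ n * g * t ^ (-n))⁻¹ = k * g⁻¹ * t ^ (-n) by group, h2, hh2]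
        at this
      exact absurd this (by simp)
    | true =>
      have e : (t ^ n * g * t ^ (-n))⁻¹ = t ^ n * g⁻¹ * t ^ (-n) := by group
      have e' : (t ^ n * g⁻¹ * t ^ (-n))⁻¹ = t ^ n * g * t ^ (-n) := by group
      obtain ⟨n', h⟩ := W.case10 (g := g⁻¹) (G.inv_mem hg) n (by
        intro hmem
        apply hE
        refine W.tr _ hmem _ hG ?_
        rw [← e', mul_inv_cancel]
        exact W.one) (by rw [← e]; exact hh2) (by rw [e']; exact hh1)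
      refine ⟨n', fun k h1 h2 => ?_⟩
      refine h (k * g⁻¹) h2 ?_
      rw [inv_inv, inv_mul_cancel_right]
      exact h1
  | true =>
    cases hh2 : ψ (t ^ n * g * t ^ (-n))⁻¹ with
    | false => exact W.case10 hg n hE hh1 hh2
    | true =>
      exfalso
      have := W.sep0 _ hG hE (t ^ (-n)) (by rw [(W.tn n hn).2, hh1]; simp)
      rw [show t ^ (-n) * (t ^ n * g * t ^ (-n))⁻¹ = g⁻¹ * t ^ (-n) by group, h0, hh2] at this
      exact absurd this (by simp)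

theorem noDPP_conj (W : WallData G t E ψ) {g : K} (hg : g ∈ G) (hno : ∀ n, ¬ DPP t ψ g n) :
    ∃ n0 : ℤ, ∀ n, n0 ≤ n → t ^ n * g * t ^ (-n) ∈ E := by
  obtain ⟨n0, h0⟩ := W.evp g⁻¹
  refine ⟨max n0 1, fun n hn => ?_⟩
  by_contra hE
  obtain ⟨n', h⟩ := W.DLp hg n (h0 n (le_trans (le_max_left _ _) hn)).2
    (le_trans (le_max_right _ _) hn) hE
  exact hno n' h

/-- If `g` has no `DPP`, it stabilises the half space `H⁺ₙ` for `n` large. -/
theorem noDPP_stab (W : WallData G t E ψ) {g : K} (hg : g ∈ G) (hno : ∀ n, ¬ DPP t ψ g n) :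
    ∃ n0 : ℤ, ∀ n, n0 ≤ n → ∀ k, ψ (k * g * t ^ (-n)) = ψ (k * t ^ (-n)) := by
  obtain ⟨n0, h0⟩ := W.noDPP_conj hg hno
  refine ⟨n0, fun n hn k => ?_⟩
  have := W.inv _ (W.nor g hg n) (h0 n hn) (k * t ^ (-n))
  rw [← this]
  congr 1
  group

/-- A pair of opposite `D` conditions produces a free group. -/
theorem free_of_DPP (W : WallData G t E ψ) {g : K} (hg : g ∈ G) {n1 n2 : ℤ}
    (h1 : DPP t ψ g n1) (h2 : DPP t⁻¹ (fun k => !ψ k) g n2) :
    ∃ f : FreeGroup (Fin 2) →* K, Function.Injective f := by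
  obtain ⟨N, hN⟩ := W.uni
  obtain ⟨m1, hm1⟩ := W.evp g
  obtain ⟨m2, hm2⟩ := W.evp g⁻¹
  obtain ⟨n, hn1, hn2, hn3, hn4, hn5, hn6⟩ :
      ∃ n : ℤ, n1 ≤ n ∧ n2 ≤ n ∧ N ≤ n ∧ m1 ≤ n ∧ m2 ≤ n ∧ 1 ≤ n :=
    ⟨max n1 (max n2 (max N (max m1 (max m2 1)))), by omega, by omega, by omega, by omega,
      by omega, by omega⟩
  replace h1 := W.DPP_mono hn1 h1
  replace h2 := W.mirror.DPP_mono hn2 h2
  have h2' : ∀ k, ψ (k * t ^ n) = false → ψ (k * g⁻¹ * t ^ n) = false → False := by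
    intro k ha hb
    refine h2 k ?_ ?_
    · simp only [inv_zpow', neg_neg]; rw [ha]; rfl
    · simp only [inv_zpow', neg_neg]; rw [hb]; rfl
  have d3 : ∀ k, ψ (k * t ^ (-n)) = true → ψ (k * t ^ n) = false → False := by
    intro k ha hb
    have := W.sept (2 * n) (by omega) _ hb
    rw [show k * t ^ n * t ^ (-(2 * n)) = k * t ^ (-n) by group, ha] at this
    exact absurd this (by simp)
  -- values of `ψ` at `t^n g^{±1} t^n`
  have val : ∀ g' ∈ G, (ψ (g' * t ^ n) = true) → (ψ (g'⁻¹ * t ^ (-n)) = false) →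
      ∀ k, ψ (k * t ^ n) = false → ψ (k * g'⁻¹ * t ^ (-n)) = true → False := by
    intro g' hg' ha hb k hc hd
    have hG1 : t ^ (-n) * g' * t ^ n ∈ G := by
      have := W.nor g' hg' (-n); rwa [neg_neg] at this
    have hG2 : t ^ n * g'⁻¹ * t ^ (-n) ∈ G := W.nor g'⁻¹ (G.inv_mem hg') n
    have e1 : t ^ (2 * n) * (t ^ (-n) * g' * t ^ n) = t ^ n * g' * t ^ n := by group
    have e1' : t ^ n * (t ^ (-n) * g' * t ^ n) = g' * t ^ n := by group
    have e2 : t ^ (-(2 * n)) * (t ^ n * g'⁻¹ * t ^ (-n)) = t ^ (-n) * g'⁻¹ * t ^ (-n) := by group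
    have e2' : t ^ (-n) * (t ^ n * g'⁻¹ * t ^ (-n)) = g'⁻¹ * t ^ (-n) := by group
    have v1 : ψ (t ^ n * g' * t ^ n) = true := by
      rw [← e1, (hN _ hG1 (2 * n) (by omega)).1, ← (hN _ hG1 n (by omega)).1, e1', ha]
    have v2 : ψ (t ^ (-n) * g'⁻¹ * t ^ (-n)) = false := by
      rw [← e2, (hN _ hG2 (2 * n) (by omega)).2, ← (hN _ hG2 n (by omega)).2, e2', hb]
    have := W.sepn _ hG1 (2 * n) (by omega) (k * t ^ n) (by rw [e1, v1, hc]; simp)
    rw [e1, show k * t ^ n * (t ^ n * g' * t ^ n)⁻¹ = k * g'⁻¹ * t ^ (-n) by group, hd,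
      show (t ^ n * g' * t ^ n)⁻¹ = t ^ (-n) * g'⁻¹ * t ^ (-n) by group, v2] at this
    exact absurd this (by simp)
  have v1 := val g hg (hm1 n hn4).1 (hm2 n hn5).2
  have v2 := val g⁻¹ (G.inv_mem hg) (hm2 n hn5).1 (by rw [inv_inv]; exact (hm1 n hn4).2)
  rw [inv_inv] at v2
  refine pingpong (t ^ (2 * n)) (g⁻¹ * t ^ (2 * n) * g)
    {k | ψ (k * t ^ (-n)) = true} {k | ψ (k * t ^ n) = false}
    {k | ψ (k * g⁻¹ * t ^ (-n)) = true} {k | ψ (k * g⁻¹ * t ^ n) = false}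
    ⟨t ^ (2 * n), ?_⟩ ⟨t ^ (2 * n) * g, ?_⟩ ?_ ?_ ?_ ?_ ?_ ?_ ?_ ?_ ?_ ?_
  · show ψ (t ^ (2 * n) * t ^ (-n)) = true
    rw [show t ^ (2 * n) * t ^ (-n) = t ^ n by group]
    exact (W.tn n hn6).1
  · show ψ (t ^ (2 * n) * g * g⁻¹ * t ^ (-n)) = true
    rw [show t ^ (2 * n) * g * g⁻¹ * t ^ (-n) = t ^ n by group]
    exact (W.tn n hn6).1
  · exact fun k ha hb => h1 k ha hb
  · exact fun k ha hb => h2' k ha hb
  · exact fun k ha hb => d3 k ha hb
  · -- X1 ∩ Y2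
    intro k ha hb
    refine v2 (k * g⁻¹) hb ?_
    rw [inv_mul_cancel_right]
    exact ha
  · -- X2 ∩ Y1
    intro k ha hb
    exact v1 k hb ha
  · exact fun k ha hb => d3 _ ha hb
  · intro k hk
    have hk' : ψ (k * t ^ n) = true := by simpa using hk
    show ψ (k * t ^ (2 * n) * t ^ (-n)) = true
    rw [show k * t ^ (2 * n) * t ^ (-n) = k * t ^ n by group]
    exact hk'
  · intro k hk
    have hk' : ψ (k * t ^ (-n)) = false := by simpa using hk
    show ψ (k * (t ^ (2 * n))⁻¹ * t ^ n) = false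
    rw [show k * (t ^ (2 * n))⁻¹ * t ^ n = k * t ^ (-n) by group]
    exact hk'
  · intro k hk
    have hk' : ψ (k * g⁻¹ * t ^ n) = true := by simpa using hk
    show ψ (k * (g⁻¹ * t ^ (2 * n) * g) * g⁻¹ * t ^ (-n)) = true
    rw [show k * (g⁻¹ * t ^ (2 * n) * g) * g⁻¹ * t ^ (-n) = k * g⁻¹ * t ^ n by group]
    exact hk'
  · intro k hk
    have hk' : ψ (k * g⁻¹ * t ^ (-n)) = false := by simpa using hk
    show ψ (k * (g⁻¹ * t ^ (2 * n) * g)⁻¹ * g⁻¹ * t ^ n) = false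
    rw [show k * (g⁻¹ * t ^ (2 * n) * g)⁻¹ * g⁻¹ * t ^ n = k * g⁻¹ * t ^ (-n) by group]
    exact hk'

/-- If there is no free subgroup then either no element has `DPP`, or none has the mirror. -/
theorem dichotomy (W : WallData G t E ψ)
    (noF : ¬ ∃ f : FreeGroup (Fin 2) →* K, Function.Injective f) :
    (∀ g ∈ G, ∀ n, ¬ DPP t ψ g n) ∨ (∀ g ∈ G, ∀ n, ¬ DPP t⁻¹ (fun k => !ψ k) g n) := by
  by_contra hcon
  push Not at hcon
  obtain ⟨⟨g1, hg1, n1, h1⟩, ⟨g2, hg2, n2, h2⟩⟩ := hcon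
  have no1 : ∀ n, ¬ DPP t⁻¹ (fun k => !ψ k) g1 n := fun n hn => noF (W.free_of_DPP hg1 h1 hn)
  have no2 : ∀ n, ¬ DPP t ψ g2 n := fun n hn => noF (W.free_of_DPP hg2 hn h2)
  obtain ⟨m2, hm2⟩ := W.noDPP_stab hg2 no2
  obtain ⟨m1, hm1⟩ := W.mirror.noDPP_stab hg1 no1
  obtain ⟨n, hn1, hn2, hn3, hn4⟩ : ∃ n : ℤ, n1 ≤ n ∧ n2 ≤ n ∧ m1 ≤ n ∧ m2 ≤ n :=
    ⟨max n1 (max n2 (max m1 m2)), by omega, by omega, by omega, by omega⟩
  replace h1 := W.DPP_mono hn1 h1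
  replace h2 := W.mirror.DPP_mono hn2 h2
  refine noF (W.free_of_DPP (g := g1 * g2) (G.mul_mem hg1 hg2) (n1 := n) (n2 := n) ?_ ?_)
  · -- H⁺ ∩ H⁺ g1 g2 = ∅ : `H⁺ g2 = H⁺`
    intro k ha hb
    -- k ∈ H⁺ , k g2⁻¹ g1⁻¹ ∈ H⁺
    refine h1 (k * g2⁻¹) ?_ ?_
    · have := hm2 n hn4 (k * g2⁻¹)
      rw [inv_mul_cancel_right] at this
      rw [← this]; exact ha
    · rw [mul_inv_rev, ← mul_assoc] at hb
      exact hb
  · intro k ha hb
    -- k ∈ H⁻ , k g2⁻¹ g1⁻¹ ∈ H⁻, `H⁻ g1 = H⁻`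
    refine h2 k ha ?_
    have := hm1 n hn3 (k * g2⁻¹ * g1⁻¹)
    rw [inv_mul_cancel_right] at this
    rw [mul_inv_rev, ← mul_assoc] at hb
    exact this.trans hb

/-- Finite actions do not see the difference between `G ∩ E` and `G`: the one-sided case. -/
theorem fix_of_noDPP (W : WallData G t E ψ) (hno : ∀ g ∈ G, ∀ n, ¬ DPP t ψ g n)
    (Y : Type) [Finite Y] (a : K →* Equiv.Perm Y) (y : Y)
    (hy : ∀ g ∈ G, g ∈ E → a g y = y) : ∀ g ∈ G, a g y = y := by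
  have hIt : ∀ g ∈ G, g ∈ E → t * g * t⁻¹ ∈ E := by
    intro g hg hE
    by_contra hcon
    have hginv : g⁻¹ ∈ E := by
      refine W.tr g hE _ (G.inv_mem hg) ?_
      rw [mul_inv_cancel]; exact W.one
    obtain ⟨n', h⟩ := W.DLp hg 1 (by
      rw [zpow_neg, zpow_one]
      exact (W.et _ (G.inv_mem hg) hginv).1) le_rfl (by simpa using hcon)
    exact hno g hg n' h
  -- the fixed point set
  let Fx : Set Y := {z | ∀ g ∈ G, g ∈ E → a g z = z}
  have hmap : ∀ z ∈ Fx, a t⁻¹ z ∈ Fx := by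
    intro z hz g hg hE
    have h1 := hz (t * g * t⁻¹) (by simpa using W.nor g hg 1) (hIt g hg hE)
    rw [← Equiv.Perm.mul_apply, ← map_mul]
    conv_rhs => rw [← h1]
    rw [← Equiv.Perm.mul_apply, ← map_mul]
    congr 2
    group
  have hmap' : ∀ z ∈ Fx, a t z ∈ Fx := by
    -- injective self-map of a finite set is surjective
    let f : Fx → Fx := fun z => ⟨a t⁻¹ z, hmap z z.2⟩
    have hf : Function.Injective f := by
      intro z z' h
      have : a t⁻¹ (z : Y) = a t⁻¹ (z' : Y) := congrArg Subtype.val h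
      exact Subtype.ext ((a t⁻¹).injective this)
    have hs : Function.Surjective f := Finite.surjective_of_injective hf
    intro z hz
    obtain ⟨w, hw⟩ := hs ⟨z, hz⟩
    have hw' : a t⁻¹ (w : Y) = z := congrArg Subtype.val hw
    rw [← hw', ← Equiv.Perm.mul_apply, ← map_mul, mul_inv_cancel, map_one, Equiv.Perm.one_apply]
    exact w.2
  have hpow : ∀ (n : ℕ), ∀ z ∈ Fx, a (t ^ n) z ∈ Fx := by
    intro n
    induction n with
    | zero => intro z hz; simpa using hz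
    | succ n ih =>
      intro z hz
      rw [pow_succ', map_mul, Equiv.Perm.mul_apply]
      exact hmap' _ (ih z hz)
  intro g hg
  obtain ⟨n0, hn0⟩ := W.noDPP_conj hg (hno g hg)
  have h1 := hn0 (n0.toNat : ℤ) (Int.self_le_toNat n0)
  have h2 := hpow n0.toNat y hy _ (W.nor g hg _) h1
  rw [← Equiv.Perm.mul_apply, ← map_mul] at h2
  have h3 := congrArg (a (t ^ n0.toNat)⁻¹) h2
  rw [← Equiv.Perm.mul_apply, ← map_mul, ← Equiv.Perm.mul_apply, ← map_mul,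
    inv_mul_cancel, map_one, Equiv.Perm.one_apply] at h3
  convert h3 using 3
  group

/-- **Theorem W.** -/
theorem fix (W : WallData G t E ψ)
    (noF : ¬ ∃ f : FreeGroup (Fin 2) →* K, Function.Injective f)
    (Y : Type) [Finite Y] (a : K →* Equiv.Perm Y) (y : Y)
    (hy : ∀ g ∈ G, g ∈ E → a g y = y) : ∀ g ∈ G, a g y = y := by
  rcases W.dichotomy noF with h | h
  · exact W.fix_of_noDPP h Y a y hy
  · exact W.mirror.fix_of_noDPP h Y a y hy

end WallData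

end Pool.Agent.FG76
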