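import Mathlib
import Pool.Agent.FG76.Comp
import Pool.Agent.FG76.Wall

set_option autoImplicit false

namespace Pool.Agent.FG76

namespace Sys

variable {A K : Type} [Group K] {S : Sys A K} {pos : K → ℤ} {B : ℤ}

/-- Far away from the cut nothing crosses. -/
theorem far (hb : S.Bdd pos) (a : K) : ∃ c d : ℤ, 0 ≤ c ∧ 0 ≤ d ∧
    (∀ k, |pos (a * k) - pos k| ≤ d) ∧
    ∀ {α : Type} (ψ : K → α), (∀ s ∈ S.T, ∀ k, ψ (s * k) ≠ ψ k → Cross (pos k) (pos (s * k))) →
      ∀ k, c ≤ |pos k| → ψ (a * k) = ψ k := by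
  have hR := S.R_pos
  refine S.ind (P := fun a => ∃ c d : ℤ, 0 ≤ c ∧ 0 ≤ d ∧
    (∀ k, |pos (a * k) - pos k| ≤ d) ∧
    ∀ {α : Type} (ψ : K → α), (∀ s ∈ S.T, ∀ k, ψ (s * k) ≠ ψ k → Cross (pos k) (pos (s * k))) →
      ∀ k, c ≤ |pos k| → ψ (a * k) = ψ k) ?_ ?_ a
  · exact ⟨0, 0, le_rfl, le_rfl, fun k => by simp, fun ψ _ k _ => by rw [one_mul]⟩
  · rintro s hs a ⟨c, d, hc, hd, h1, h2⟩
    refine ⟨c + d + S.R + 1, d + S.R, by linarith, by linarith, fun k => ?_, ?_⟩
    · have e : pos (s * a * k) - pos k = (pos (s * (a * k)) - pos (a * k)) +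
        (pos (a * k) - pos k) := by rw [mul_assoc]; ring
      rw [e]
      refine (abs_add_le _ _).trans ?_
      have := hb s hs (a * k)
      have := h1 k
      linarith
    · intro α ψ hψ k hk
      have e1 := h2 ψ hψ k (by linarith)
      rw [← e1, mul_assoc]
      by_contra hne
      have hcr := hb.cross hs (hψ s hs (a * k) hne)
      have h3 := h1 k
      have h4 : |pos (a * k)| ≤ S.R := by rw [abs_le]; constructor <;> linarith [hcr.1, hcr.2]
      have h5 : |pos k| ≤ |pos (a * k) - pos k| + |pos (a * k)| := by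
        have := abs_sub_abs_le_abs_sub (pos k) (pos (a * k))
        rw [abs_sub_comm] at this
        linarith
      linarith

theorem pos_zpow {t : K} {M : ℤ} (htM : ∀ k, pos (k * t) = pos k + M) (k : K) (n : ℤ) :
    pos (k * t ^ n) = pos k + n * M := by
  induction n using Int.induction_on with
  | zero => simp
  | succ i ih => rw [zpow_add_one, ← mul_assoc, htM, ih]; ring
  | pred i ih =>
    have := htM (k * t ^ (-(i : ℤ) - 1))
    rw [mul_assoc, ← zpow_add_one, sub_add_cancel, ih] at this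
    linarith

theorem far_zpow (B M c : ℤ) (p : ℤ) (hB : |p| ≤ B) (hM : M ≠ 0) (n : ℤ)
    (hn : c + B ≤ n) (hn0 : 0 ≤ n) : c ≤ |p + n * M| ∧ c ≤ |p + (-n) * M| := by
  have h1 : 1 ≤ |M| := Int.one_le_abs hM
  have h2 : n ≤ |n * M| := by
    rw [abs_mul, abs_of_nonneg hn0]; nlinarith
  constructor
  · have := abs_sub_abs_le_abs_sub (n * M) (-p)
    rw [abs_neg, sub_neg_eq_add, add_comm (n * M)] at this
    linarith
  · have := abs_sub_abs_le_abs_sub (-n * M) (-p)
    rw [abs_neg, sub_neg_eq_add, add_comm (-n * M), neg_mul, abs_neg] at this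
    rw [neg_mul]
    linarith

theorem constE {ψ : K → Bool}
    (hψ : ∀ s ∈ S.T, ∀ k, ψ (s * k) ≠ ψ k ↔
      S.Rel pos B 1 k ∧ S.Rel pos B 1 (s * k) ∧ Cross (pos k) (pos (s * k)))
    (h : K) (hd : ∀ e, S.Rel pos B 1 e → ¬ S.Rel pos B 1 (e * h)) :
    ∀ e, S.Rel pos B 1 e → ψ (e * h) = ψ h := by
  intro e he
  induction he with
  | refl => rw [one_mul]
  | @tail b c hab hbc ih =>
    rw [← ih]
    obtain ⟨_, _, s, hs, rfl⟩ := hbc
    by_contra hne
    rw [mul_assoc] at hne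
    exact hd b hab ((hψ s hs _).1 hne).1

theorem sepE {ψ : K → Bool}
    (hψ : ∀ s ∈ S.T, ∀ k, ψ (s * k) ≠ ψ k ↔
      S.Rel pos B 1 k ∧ S.Rel pos B 1 (s * k) ∧ Cross (pos k) (pos (s * k)))
    (h : K) (hd : ∀ e, S.Rel pos B 1 e → ¬ S.Rel pos B 1 (e * h)) :
    ∀ k, ψ k ≠ ψ h → ψ (k * h⁻¹) = ψ h⁻¹ := by
  have hc1 := constE hψ h hd
  have hc2 := constE hψ h⁻¹ (fun e he he' => hd _ he' (by rwa [inv_mul_cancel_right]))
  have key : ∀ k, ψ k = ψ h ∨ ψ (k * h⁻¹) = ψ h⁻¹ := by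
    refine S.ind (Or.inr (by rw [one_mul])) ?_
    intro s hs k ih
    by_cases h1 : ψ (s * k) = ψ k
    · by_cases h2 : ψ (s * k * h⁻¹) = ψ (k * h⁻¹)
      · rwa [h1, h2]
      · left
        have := ((hψ s hs (k * h⁻¹)).1 (by rwa [← mul_assoc])).2.1
        have := hc1 _ this
        rwa [← mul_assoc, inv_mul_cancel_right] at this
    · right
      exact hc2 _ ((hψ s hs k).1 h1).2.1
  intro k hk
  exact (key k).resolve_left hk

/-- `ψ` is the side indicator on the component. -/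
theorem side {ψ : K → Bool}
    (hψ : ∀ s ∈ S.T, ∀ k, ψ (s * k) ≠ ψ k ↔
      S.Rel pos B 1 k ∧ S.Rel pos B 1 (s * k) ∧ Cross (pos k) (pos (s * k)))
    (hψ1 : ψ 1 = decide (0 ≤ pos 1)) :
    ∀ k, S.Rel pos B 1 k → ψ k = decide (0 ≤ pos k) := by
  intro k hk
  induction hk with
  | refl => exact hψ1
  | @tail b c hab hbc ih =>
    have hac : S.Rel pos B 1 c := hab.tail hbc
    obtain ⟨_, _, s, hs, rfl⟩ := hbc
    have h1 := hψ s hs b
    by_cases hc : Cross (pos b) (pos (s * b))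
    · have h2 := h1.2 ⟨hab, hac, hc⟩
      rw [ih] at h2
      rcases hc with ⟨h3, h4⟩ | ⟨h3, h4⟩
      · rw [decide_eq_true h3] at h2
        rw [decide_eq_false (by omega)]
        simpa using h2
      · rw [decide_eq_false (by omega)] at h2
        rw [decide_eq_true h4]
        simpa using h2
    · have h2 : ψ (s * b) = ψ b := by
        by_contra h3; exact hc (h1.1 h3).2.2
      rw [h2, ih]
      congr 1
      apply propext
      unfold Cross at hc
      constructor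
      · intro h; by_contra h'; exact hc (Or.inl ⟨h, by omega⟩)
      · intro h; by_contra h'; exact hc (Or.inr ⟨by omega, h⟩)

theorem wallData_of_pos {M : ℤ} (hb : S.Bdd pos)
    (h1 : InB B (pos 1)) (G : Subgroup K) (hG : ∀ h ∈ G, ∀ k, pos (k * h) = pos k)
    (hG' : ∀ h, (∀ k, pos (k * h) = pos k) → h ∈ G)
    (t : K) (htM : ∀ k, pos (k * t) = pos k + M) (hM : 2 * B ≤ |M|)
    (ψ : K → Bool)
    (hψ : ∀ s ∈ S.T, ∀ k, ψ (s * k) ≠ ψ k ↔
      S.Rel pos B 1 k ∧ S.Rel pos B 1 (s * k) ∧ Cross (pos k) (pos (s * k)))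
    (hψ1 : ψ 1 = decide (0 ≤ pos 1))
    (tn : ∀ n : ℤ, 1 ≤ n → ψ (t ^ n) = true ∧ ψ (t ^ (-n)) = false) :
    WallData G t {k | S.Rel pos B 1 k} ψ := by
  have hB : 0 < B := by unfold InB at h1; omega
  have hM0 : M ≠ 0 := by rintro rfl; simp at hM; omega
  have hp1 : |pos 1| ≤ B := by rw [abs_le]; unfold InB at h1; omega
  have htn := fun k n => pos_zpow (pos := pos) htM k n
  have hcr : ∀ s ∈ S.T, ∀ k, ψ (s * k) ≠ ψ k → Cross (pos k) (pos (s * k)) :=
    fun s hs k h => ((hψ s hs k).1 h).2.2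
  have hGt : ∀ h ∈ G, ∀ k k', S.Rel pos B (k * h) (k' * h) ↔ S.Rel pos B k k' := by
    intro h hh k k'
    rw [← rel_translate]
    have : (fun k => pos (k * h)) = pos := funext fun k => hG h hh k
    rw [this]
  have tr : ∀ v, S.Rel pos B 1 v → ∀ h ∈ G, S.Rel pos B 1 (v * h) → S.Rel pos B 1 h := by
    intro v hv h hh hvh
    have := (hGt h hh 1 v).2 hv
    rw [one_mul] at this
    exact hvh.trans this.symm
  have disjn : ∀ h ∈ G, ∀ n : ℤ, n ≠ 0 → ∀ e, S.Rel pos B 1 e →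
      ¬ S.Rel pos B 1 (e * (t ^ n * h)) := by
    intro h hh n hn e he he'
    have p1 := he.inB h1
    have p2 := he'.inB h1
    rw [← mul_assoc, hG h hh, htn] at p2
    unfold InB at p1 p2
    have h3 : |M| ≤ |n * M| := by
      rw [abs_mul]
      have := Int.one_le_abs hn
      nlinarith [abs_nonneg M]
    have h4 : |n * M| < 2 * B := by
      rw [abs_lt]; constructor <;> linarith [p1.1, p1.2, p2.1, p2.2]
    linarith
  refine ⟨?_, Rel.refl _, ?_, ?_, ?_, tr, ?_, ?_, ?_, ?_, tn⟩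
  · intro g hg n
    refine hG' _ fun k => ?_
    rw [← mul_assoc, ← mul_assoc, htn, hG g hg, htn]; ring
  · intro h hh hE
    refine sepE hψ h fun e he he' => hE (tr e he h hh he')
  · intro h hh n hn
    exact sepE hψ _ (disjn h hh n hn)
  · intro g hg hE
    have hE' : S.Rel pos B 1 g := hE
    refine S.ind ?_ ?_
    · rw [one_mul, side hψ hψ1 g hE', hψ1]
      have := hG g hg 1
      rw [one_mul] at this
      rw [this]
    · intro s hs k ih
      have a1 := hψ s hs (k * g)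
      have a2 := hψ s hs k
      have hr : ∀ k, S.Rel pos B 1 (k * g) ↔ S.Rel pos B 1 k := by
        intro k
        rw [← hGt g hg 1 k, one_mul]
        exact ⟨fun h => hE'.symm.trans h, fun h => hE'.trans h⟩
      rw [← mul_assoc, hr, hr, hG g hg, hG g hg, ← a2] at a1
      by_cases h3 : ψ (s * k) = ψ k
      · have h4 : ψ (s * k * g) = ψ (k * g) := by
          by_contra h4; exact a1.1 h4 h3
        rw [h4, h3, ih]
      · have h4 := a1.2 h3
        rw [ih] at h4
        revert h3 h4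
        cases ψ (s * k * g) <;> cases ψ (s * k) <;> cases ψ k <;> simp
  · intro a
    classical
    refine S.ind (P := fun a => ∃ F : Finset K, ∀ x, ψ (a * x) ≠ ψ x →
      ∃ v ∈ F, v * x ∈ {k | S.Rel pos B 1 k}) ⟨∅, fun x h => absurd (by rw [one_mul]) h⟩ ?_ a
    rintro s hs a ⟨F, hF⟩
    refine ⟨insert a F, fun x hx => ?_⟩
    by_cases h : ψ (a * x) = ψ x
    · refine ⟨a, Finset.mem_insert_self _ _, ?_⟩
      rw [← h, mul_assoc] at hx
      exact ((hψ s hs _).1 hx).1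
    · obtain ⟨v, hv, hvx⟩ := hF x h
      exact ⟨v, Finset.mem_insert_of_mem hv, hvx⟩
  · intro k
    obtain ⟨c, -, hc, -, -, hk⟩ := far hb k
    refine ⟨c + B + 1, fun n hn => ?_⟩
    have h2 := far_zpow B M c (pos 1) hp1 hM0 n (by linarith) (by linarith)
    have h3 := htn 1 n
    have h4 := htn 1 (-n)
    rw [one_mul] at h3 h4
    rw [hk ψ hcr _ (by rw [h3]; exact h2.1), hk ψ hcr _ (by rw [h4]; exact h2.2)]
    exact tn n (by linarith)
  · obtain ⟨c1, -, hc1, -, -, hk1⟩ := far hb t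
    obtain ⟨c2, -, hc2, -, -, hk2⟩ := far hb t⁻¹
    refine ⟨c1 + c2 + B, fun g hg n hn => ?_⟩
    refine Int.leInduction (motive := fun n _ => ψ (t ^ n * g) = ψ (t ^ (c1 + c2 + B) * g) ∧
      ψ (t ^ (-n) * g) = ψ (t ^ (-(c1 + c2 + B)) * g)) ⟨rfl, rfl⟩ ?_ n hn
    intro n hn ih
    have h2 := far_zpow B M (c1 + c2) (pos 1) hp1 hM0 n (by linarith) (by linarith)
    have h3 := htn 1 n
    have h4 := htn 1 (-n)
    rw [one_mul] at h3 h4
    constructor
    · rw [← ih.1, add_comm n 1, zpow_one_add, mul_assoc]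
      refine hk1 ψ hcr _ ?_
      rw [hG g hg, h3]; linarith [h2.1]
    · rw [← ih.2, show -(n + 1) = -1 + -n by ring, zpow_add, mul_assoc, zpow_neg_one]
      refine hk2 ψ hcr _ ?_
      rw [hG g hg, h4]; linarith [h2.2]
  · intro g hg hE
    have e1 := constE hψ (t ^ (-1 : ℤ)) (by
      have := disjn 1 G.one_mem (-1) (by norm_num)
      simpa using this) g hE
    have e2 := constE hψ (t ^ (1 : ℤ)) (by
      have := disjn 1 G.one_mem 1 (by norm_num)
      simpa using this) g hE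
    have e3 := tn 1 le_rfl
    rw [e3.2, zpow_neg_one] at e1
    rw [e3.1, zpow_one] at e2
    exact ⟨e1, e2⟩

end Sys

end Pool.Agent.FG76
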