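import Mathlib
import Pool.Agent.FG76.WallOf

set_option autoImplicit false

namespace Pool.Agent.FG76

theorem z2a : ∀ z b : ZMod 2, decide (z + 1 + b = 1) ≠ decide (z + b = 1) := by decide
theorem z2b : ∀ z b : ZMod 2, z + 1 + b = 1 → decide (z + b = 1) = false := by decide
theorem z2c : ∀ z b : ZMod 2, ¬ (z + 1 + b = 1) → decide (z + b = 1) = true := by decide

/-- Right stabilizer of a position function. -/
def stab {K : Type} [Group K] (pos : K → ℤ) : Subgroup K where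
  carrier := {h | ∀ k, pos (k * h) = pos k}
  mul_mem' := by
    intro a b ha hb k
    rw [← mul_assoc, hb, ha]
  one_mem' := by intro k; rw [mul_one]
  inv_mem' := by
    intro a ha k
    have := ha (k * a⁻¹)
    rw [inv_mul_cancel_right] at this
    exact this.symm

theorem mem_stab {K : Type} [Group K] {pos : K → ℤ} {h : K} :
    h ∈ stab pos ↔ ∀ k, pos (k * h) = pos k := Iff.rfl

theorem pathSum_ne {K : Type} [Group K] {κ : K → K → ZMod 2} (w : List K) (k : K)
    (h : pathSum κ w k ≠ 0) : ∃ u s, (s :: u) <:+ w ∧ κ (u.prod * k) (s * (u.prod * k)) ≠ 0 := by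
  induction w with
  | nil => exact absurd rfl h
  | cons s w ih =>
    by_cases h1 : pathSum κ w k = 0
    · refine ⟨w, s, List.suffix_refl _, ?_⟩
      rw [pathSum, h1, add_zero] at h
      exact h
    · obtain ⟨u, s', hu, hk⟩ := ih h1
      exact ⟨u, s', hu.trans (List.suffix_cons s w), hk⟩

namespace Sys

variable {A K : Type} [Group K] {S : Sys A K} {pos : K → ℤ} {B : ℤ}

theorem kap_congr {v v' : K} (h : S.Rel pos B v v') : S.kap pos B v = S.kap pos B v' := by
  funext k k'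
  unfold kap
  congr 1
  apply propext
  have e : ∀ k, S.Rel pos B v k ↔ S.Rel pos B v' k :=
    fun k => ⟨fun h' => h.symm.trans h', fun h' => h.trans h'⟩
  rw [e, e]

open Classical in
/-- kappa of a set -/
noncomputable def kapC (pos : K → ℤ) (C : Set K) (k k' : K) : ZMod 2 :=
  if k ∈ C ∧ k' ∈ C ∧ Cross (pos k) (pos k') then 1 else 0

theorem sum_comps (hb : S.Bdd pos) (hRB : S.R ≤ B) (w : List K) (hw : ∀ s ∈ w, s ∈ S.T) (k : K)
    (F : Finset (Set K)) (h1 : ∀ u, u <:+ w → {x | S.Rel pos B (u.prod * k) x} ∈ F)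
    (h2 : ∀ C ∈ F, ∃ v, C = {x | S.Rel pos B v x}) :
    ∑ C ∈ F, pathSum (kapC pos C) w k = eta (pos (w.prod * k)) + eta (pos k) := by
  induction w with
  | nil => simp [pathSum]; rw [CharTwo.add_self_eq_zero]
  | cons s w ih =>
    have ih' := ih (fun s' hs' => hw s' (by simp [hs']))
      fun u hu => h1 u (hu.trans (List.suffix_cons s w))
    have e1 : ∑ C ∈ F, pathSum (kapC pos C) (s :: w) k =
        ∑ C ∈ F, kapC pos C (w.prod * k) (s * (w.prod * k)) +
        ∑ C ∈ F, pathSum (kapC pos C) w k := by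
      rw [← Finset.sum_add_distrib]; rfl
    rw [e1, ih', List.prod_cons, mul_assoc]
    by_cases hc : Cross (pos (w.prod * k)) (pos (s * (w.prod * k)))
    · rw [eta_cross hc]
      have hs := hw s (by simp)
      have a1 := hb.cross hs hc
      have a2 := hb.cross (k := s * (w.prod * k)) (S.T_inv s hs)
        (by rw [inv_mul_cancel_left]; exact hc.symm)
      have hadj : S.Adj pos B (w.prod * k) (s * (w.prod * k)) :=
        ⟨⟨by linarith, by linarith⟩, ⟨by linarith, by linarith⟩, s, hs, rfl⟩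
      rw [Finset.sum_eq_single_of_mem _ (h1 w (List.suffix_cons s w))]
      · unfold kapC
        rw [if_pos]
        · ring
        · exact ⟨Rel.refl _, (Rel.refl _).tail hadj, hc⟩
      · intro C hC hne
        obtain ⟨v, rfl⟩ := h2 C hC
        unfold kapC
        rw [if_neg]
        rintro ⟨h3, -, -⟩
        apply hne
        ext x
        have h3' : S.Rel pos B v (w.prod * k) := h3
        exact ⟨fun h => h3'.symm.trans h, fun h => h3'.trans h⟩
    · rw [eta_not_cross hc, Finset.sum_eq_zero]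
      · ring
      · intro C _
        unfold kapC
        rw [if_neg (fun h => hc h.2.2)]

/-- **(3c)** existence of the wall. -/
theorem exists_wall (hb : S.Bdd pos) (hB : (2 * S.L + 1) * S.R ≤ B) (t1 : K) (M1 : ℤ)
    (ht1 : ∀ k, pos (k * t1) = pos k + M1) (hM1 : 0 < M1) :
    ∃ v t ψ, InB B (pos v) ∧ WallData (stab fun k => pos (k * v)) t
      {k | S.Rel (fun k => pos (k * v)) B 1 k} ψ := by
  classical
  have hR := S.R_pos
  have hRB : S.R ≤ B := by
    have : (0 : ℤ) ≤ 2 * S.L * S.R := by positivity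
    linarith
  have hpot := fun v => exists_pot (pos := pos) hb hB v
  choose Ψ hΨ using hpot
  have hcr : ∀ v, ∀ s ∈ S.T, ∀ k, Ψ v (s * k) ≠ Ψ v k → Cross (pos k) (pos (s * k)) := by
    intro v s hs k h
    rw [hΨ v s hs k] at h
    by_contra hc
    apply h
    unfold kap
    rw [if_neg (fun h => hc h.2.2), add_zero]
  obtain ⟨c1, -, hc1, -, -, hk1⟩ := far hb t1
  obtain ⟨c2, -, hc2, -, -, hk2⟩ := far hb t1⁻¹
  have htn := fun k n => pos_zpow (pos := pos) ht1 k n
  obtain ⟨N, hN⟩ : ∃ N : ℤ, N = c1 + c2 + |pos 1| + 1 := ⟨_, rfl⟩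
  have hN0 : 0 < N := by have := abs_nonneg (pos 1); linarith
  have hconst : ∀ v n, N ≤ n → Ψ v (t1 ^ n) = Ψ v (t1 ^ N) ∧
      Ψ v (t1 ^ (-n)) = Ψ v (t1 ^ (-N)) := by
    intro v n hn
    refine Int.leInduction (motive := fun n _ => Ψ v (t1 ^ n) = Ψ v (t1 ^ N) ∧
      Ψ v (t1 ^ (-n)) = Ψ v (t1 ^ (-N))) ⟨rfl, rfl⟩ ?_ n hn
    intro n hn ih
    have h2 := far_zpow |pos 1| M1 (c1 + c2) (pos 1) le_rfl hM1.ne' n (by linarith) (by linarith)
    have h3 := htn 1 n
    have h4 := htn 1 (-n)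
    rw [one_mul] at h3 h4
    constructor
    · rw [← ih.1, add_comm n 1, zpow_one_add]
      refine hk1 (Ψ v) (hcr v) _ ?_
      rw [h3]; linarith [h2.1]
    · rw [← ih.2, show -(n + 1) = -1 + -n by ring, zpow_add, zpow_neg_one]
      refine hk2 (Ψ v) (hcr v) _ ?_
      rw [h4]; linarith [h2.2]
  -- the path
  obtain ⟨w, hw, hwp⟩ := S.T_gen (t1 ^ (2 * N))
  have hend : w.prod * t1 ^ (-N) = t1 ^ N := by
    rw [hwp, ← zpow_add]; congr 1; ring
  have hsum := sum_comps (pos := pos) hb hRB w hw (t1 ^ (-N))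
    (w.tails.toFinset.image fun u => {x | S.Rel pos B (u.prod * t1 ^ (-N)) x})
    (by
      intro u hu
      refine Finset.mem_image.2 ⟨u, ?_, rfl⟩
      rw [List.mem_toFinset, List.mem_tails]
      exact hu)
    (by
      intro C hC
      obtain ⟨u, -, rfl⟩ := Finset.mem_image.1 hC
      exact ⟨_, rfl⟩)
  have hp1 := htn 1 N
  have hp2 := htn 1 (-N)
  rw [one_mul] at hp1 hp2
  have hge : N ≤ N * M1 := by nlinarith
  have hcross : Cross (pos (t1 ^ (-N))) (pos (t1 ^ N)) := by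
    right
    rw [hp1, hp2]
    have := neg_abs_le (pos 1)
    have := le_abs_self (pos 1)
    constructor <;> linarith
  rw [hend, eta_cross hcross] at hsum
  have hsum1 : ∑ C ∈ w.tails.toFinset.image
      (fun u => {x | S.Rel pos B (u.prod * t1 ^ (-N)) x}),
      pathSum (kapC pos C) w (t1 ^ (-N)) ≠ 0 := by
    rw [hsum]
    rw [show eta (pos (t1 ^ (-N))) + 1 + eta (pos (t1 ^ (-N))) =
      (eta (pos (t1 ^ (-N))) + eta (pos (t1 ^ (-N)))) + 1 by ring, CharTwo.add_self_eq_zero]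
    decide
  obtain ⟨C, hC, hne⟩ := Finset.exists_ne_zero_of_sum_ne_zero hsum1
  obtain ⟨u', -, rfl⟩ := Finset.mem_image.1 hC
  obtain ⟨v', hv'⟩ : ∃ v', v' = u'.prod * t1 ^ (-N) := ⟨_, rfl⟩
  rw [← hv'] at hne
  have hne' : pathSum (S.kap pos B v') w (t1 ^ (-N)) ≠ 0 := hne
  obtain ⟨u, s, hu, hus⟩ := pathSum_ne _ _ hne'
  obtain ⟨v, hv⟩ : ∃ v, v = u.prod * t1 ^ (-N) := ⟨_, rfl⟩
  rw [← hv] at hus
  have hus' : S.Rel pos B v' v ∧ S.Rel pos B v' (s * v) ∧ Cross (pos v) (pos (s * v)) := by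
    unfold kap at hus
    by_contra h
    rw [if_neg h] at hus
    exact hus rfl
  have hs : s ∈ S.T := hw s (hu.subset (by simp))
  have hvB : InB B (pos v) := by
    have := hb.cross hs hus'.2.2
    exact ⟨by linarith, by linarith⟩
  rw [kap_congr hus'.1] at hne'
  have hdiff : Ψ v (t1 ^ N) = Ψ v (t1 ^ (-N)) + 1 := by
    have h1 := pot_word (hΨ v) w hw (t1 ^ (-N))
    rw [hend] at h1
    rw [h1]
    congr 1
    revert hne'
    generalize pathSum (S.kap pos B v) w (t1 ^ (-N)) = z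
    revert z; decide
  -- constants for `v`
  obtain ⟨cv, -, hcv, -, -, hkv⟩ := far hb v
  obtain ⟨q, hq⟩ : ∃ q : ℤ, q = N + cv + |pos 1| + 2 * B := ⟨_, rfl⟩
  have hqN : N ≤ q := by have := abs_nonneg (pos 1); linarith
  have hq1 : 1 ≤ q := by linarith
  have hval : ∀ n : ℤ, 1 ≤ n → Ψ v (v * t1 ^ (q * n)) = Ψ v (t1 ^ N) ∧
      Ψ v (v * t1 ^ (-(q * n))) = Ψ v (t1 ^ (-N)) := by
    intro n hn
    have hqn : q ≤ q * n := by nlinarith
    have h2 := far_zpow |pos 1| M1 cv (pos 1) le_rfl hM1.ne' (q * n) (by linarith) (by linarith)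
    have h3 := htn 1 (q * n)
    have h4 := htn 1 (-(q * n))
    rw [one_mul] at h3 h4
    rw [hkv (Ψ v) (hcr v) _ (by rw [h3]; exact h2.1), hkv (Ψ v) (hcr v) _ (by rw [h4]; exact h2.2)]
    exact hconst v _ (by linarith)
  obtain ⟨b0, hb0⟩ : ∃ b0 : ZMod 2, b0 = Ψ v v + eta (pos v) := ⟨_, rfl⟩
  obtain ⟨ψ, hψdef⟩ : ∃ ψ : K → Bool, ψ = fun k => decide (Ψ v (k * v) + b0 = 1) := ⟨_, rfl⟩
  have hψ : ∀ s ∈ S.T, ∀ k, ψ (s * k) ≠ ψ k ↔
      S.Rel (fun k => pos (k * v)) B 1 k ∧ S.Rel (fun k => pos (k * v)) B 1 (s * k) ∧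
        Cross (pos (k * v)) (pos (s * k * v)) := by
    intro s hs k
    rw [rel_translate, rel_translate, one_mul, hψdef]
    show decide (Ψ v (s * k * v) + b0 = 1) ≠ decide (Ψ v (k * v) + b0 = 1) ↔ _
    rw [mul_assoc s k v, hΨ v s hs (k * v)]
    unfold kap
    by_cases h : S.Rel pos B v (k * v) ∧ S.Rel pos B v (s * (k * v)) ∧
      Cross (pos (k * v)) (pos (s * (k * v)))
    · rw [if_pos h]
      exact iff_of_true (z2a _ _) h
    · rw [if_neg h, add_zero]
      exact iff_of_false (by simp) h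
  have hψ1 : ψ 1 = decide (0 ≤ pos (1 * v)) := by
    rw [hψdef]
    show decide (Ψ v (1 * v) + b0 = 1) = _
    rw [one_mul, hb0, ← add_assoc, CharTwo.add_self_eq_zero, zero_add]
    unfold eta
    by_cases h : 0 ≤ pos v
    · rw [if_pos h, decide_eq_true h]; decide
    · rw [if_neg h, decide_eq_false h]; decide
  have hbv : S.Bdd fun k => pos (k * v) := fun s hs k => by
    show |pos (s * k * v) - pos (k * v)| ≤ S.R
    rw [mul_assoc]; exact hb s hs _
  have hqM : 2 * B ≤ |q * M1| := by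
    rw [abs_mul, abs_of_pos hM1, abs_of_pos (by linarith)]
    have := abs_nonneg (pos 1)
    nlinarith
  have conj : ∀ q n : ℤ, (v * t1 ^ q * v⁻¹) ^ n * v = v * t1 ^ (q * n) := by
    intro q n
    rw [conj_zpow, ← zpow_mul, inv_mul_cancel_right]
  have hpn : ∀ n : ℤ, 1 ≤ n → ψ ((v * t1 ^ q * v⁻¹) ^ n) = decide (Ψ v (t1 ^ N) + b0 = 1) ∧
      ψ ((v * t1 ^ q * v⁻¹) ^ (-n)) = decide (Ψ v (t1 ^ (-N)) + b0 = 1) := by
    intro n hn
    rw [hψdef]
    show decide (Ψ v ((v * t1 ^ q * v⁻¹) ^ n * v) + b0 = 1) = _ ∧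
      decide (Ψ v ((v * t1 ^ q * v⁻¹) ^ (-n) * v) + b0 = 1) = _
    rw [conj, conj, (hval n hn).1, show q * -n = -(q * n) by ring, (hval n hn).2]
    exact ⟨rfl, rfl⟩
  by_cases hβ : Ψ v (t1 ^ N) + b0 = 1
  · refine ⟨v, v * t1 ^ q * v⁻¹, ψ, hvB, ?_⟩
    refine wallData_of_pos (M := q * M1) hbv (by simpa using hvB)
      (stab fun k => pos (k * v)) (fun h hh => hh)
      (fun h hh => hh) _ ?_ hqM ψ hψ hψ1 ?_
    · intro k
      show pos (k * (v * t1 ^ q * v⁻¹) * v) = pos (k * v) + q * M1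
      rw [show k * (v * t1 ^ q * v⁻¹) * v = k * v * t1 ^ q by group, htn]
    · intro n hn
      rw [(hpn n hn).1, (hpn n hn).2, decide_eq_true hβ]
      refine ⟨rfl, ?_⟩
      rw [hdiff] at hβ
      exact z2b _ _ hβ
  · refine ⟨v, v * t1 ^ (-q) * v⁻¹, ψ, hvB, ?_⟩
    refine wallData_of_pos (M := -q * M1) hbv (by simpa using hvB)
      (stab fun k => pos (k * v)) (fun h hh => hh)
      (fun h hh => hh) _ ?_ (by rw [neg_mul, abs_neg]; exact hqM) ψ hψ hψ1 ?_
    · intro k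
      show pos (k * (v * t1 ^ (-q) * v⁻¹) * v) = pos (k * v) + -q * M1
      rw [show k * (v * t1 ^ (-q) * v⁻¹) * v = k * v * t1 ^ (-q) by group, htn]
    · intro n hn
      have e1 : (v * t1 ^ (-q) * v⁻¹) ^ n = (v * t1 ^ q * v⁻¹) ^ (-n) := by
        rw [conj_zpow, conj_zpow, ← zpow_mul, ← zpow_mul]
        congr 3; ring
      have e2 : (v * t1 ^ (-q) * v⁻¹) ^ (-n) = (v * t1 ^ q * v⁻¹) ^ n := by
        rw [conj_zpow, conj_zpow, ← zpow_mul, ← zpow_mul]
        congr 3; ring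
      rw [e1, e2, (hpn n hn).1, (hpn n hn).2, decide_eq_false hβ]
      refine ⟨?_, rfl⟩
      rw [hdiff] at hβ
      exact z2c _ _ hβ

end Sys

end Pool.Agent.FG76
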