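import Mathlib
import Pool.Agent.FG76.Exists

set_option autoImplicit false

namespace Pool.Agent.FG76

namespace Sys

variable {A K : Type} [Group K] (S : Sys A K)

/-- The action on `ℤ / q` for a `q`-periodic point. -/
theorem exists_modAction {z : ℤ → A} (hz : z ∈ S.Sig) (q : ℕ) [NeZero q]
    (hq : ∀ c, z (c + q) = z c) :
    ∃ a : K →* Equiv.Perm (ZMod q), ∀ k, ∀ c : ℤ, a k (c : ZMod q) = ((S.ρ z k c : ℤ) : ZMod q) := by
  have hadd : ∀ (k : K) (c n : ℤ), S.ρ z k (c + n * q) = S.ρ z k c + n * q := fun k c n =>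
    S.rho_add_period hz (period_mul hq n) k c
  have hwd : ∀ (k : K) (c d : ℤ), (c : ZMod q) = (d : ZMod q) →
      ((S.ρ z k c : ℤ) : ZMod q) = ((S.ρ z k d : ℤ) : ZMod q) := by
    intro k c d h
    rw [ZMod.intCast_eq_intCast_iff_dvd_sub] at h
    obtain ⟨n, hn⟩ := h
    have : d = c + n * q := by linarith
    rw [this, hadd]
    simp
  have hval : ∀ c : ZMod q, (((c.val : ℕ) : ℤ) : ZMod q) = c := by
    intro c
    rw [Int.cast_natCast, ZMod.natCast_zmod_val]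
  let act : MulAction K (ZMod q) :=
    { smul := fun k c => ((S.ρ z k ((c.val : ℕ) : ℤ) : ℤ) : ZMod q)
      one_smul := by
        intro c
        show ((S.ρ z 1 ((c.val : ℕ) : ℤ) : ℤ) : ZMod q) = c
        rw [map_one, Equiv.Perm.one_apply, hval]
      mul_smul := by
        intro a b c
        show ((S.ρ z (a * b) ((c.val : ℕ) : ℤ) : ℤ) : ZMod q) =
          ((S.ρ z a (((((S.ρ z b ((c.val : ℕ) : ℤ) : ℤ) : ZMod q)).val : ℕ) : ℤ) : ℤ) : ZMod q)
        rw [map_mul, Equiv.Perm.mul_apply]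
        apply hwd
        rw [hval] }
  refine ⟨MulAction.toPermHom K (ZMod q), fun k c => ?_⟩
  show ((S.ρ z k ((((c : ZMod q)).val : ℕ) : ℤ) : ℤ) : ZMod q) = _
  apply hwd
  rw [hval]

/-- **(3b)–(3e)** -/
theorem exists_fix (noF : ¬ ∃ f : FreeGroup (Fin 2) →* K, Function.Injective f)
    {y : ℤ → A} (hy : y ∈ S.Sig) (hyp : Per y) (o1 : ℤ)
    (hunb : ∀ Z : ℤ, ∃ k, Z < |S.ρ y k o1|) {B : ℤ} (hB : (2 * S.L + 1) * S.R ≤ B) :
    ∃ v : K, InB B (S.ρ y v o1) ∧ ∀ z ∈ S.Sig, Per z → (∀ c, |c| ≤ B + S.R → z c = y c) →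
      ∀ k, S.ρ y k = 1 → S.ρ z k (S.ρ y v o1) = S.ρ y v o1 := by
  obtain ⟨p, hp, hyp⟩ := hyp
  have hpn : ∀ n k c, S.ρ y k (c + n * p) = S.ρ y k c + n * p := fun n k c =>
    S.rho_add_period hy (period_mul hyp n) k c
  have hb : S.Bdd fun k => S.ρ y k o1 := by
    intro s hs k
    show |S.ρ y (s * k) o1 - S.ρ y k o1| ≤ S.R
    rw [map_mul, Equiv.Perm.mul_apply]
    exact S.disp s hs y hy _
  -- a translation
  obtain ⟨t1, n, hn, ht1⟩ : ∃ (t1 : K) (n : ℤ), 0 < n ∧ S.ρ y t1 o1 = o1 + n * p := by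
    have hinf : (Set.range fun k => S.ρ y k o1).Infinite := by
      intro hfin
      obtain ⟨Z, hZ⟩ := hfin.bddAbove
      obtain ⟨Z', hZ'⟩ := hfin.bddBelow
      obtain ⟨k, hk⟩ := hunb (|Z| + |Z'|)
      have h1 := hZ ⟨k, rfl⟩
      have h2 := hZ' ⟨k, rfl⟩
      simp only at h1 h2
      have h3 := le_abs_self Z
      have h4 := neg_abs_le Z'
      have h5 := abs_nonneg Z
      have h6 := abs_nonneg Z'
      have : |S.ρ y k o1| ≤ |Z| + |Z'| := by rw [abs_le]; constructor <;> linarith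
      linarith
    have := hinf.to_subtype
    obtain ⟨P, hP⟩ : ∃ P : ℕ, (P : ℤ) = p := ⟨p.toNat, Int.toNat_of_nonneg hp.le⟩
    have : NeZero P := ⟨by rintro rfl; simp at hP; omega⟩
    let f : (Set.range fun k => S.ρ y k o1) → ZMod P := fun c => ((c : ℤ) : ZMod P)
    obtain ⟨⟨_, k, rfl⟩, ⟨_, k', rfl⟩, hne, heq⟩ := Finite.exists_ne_map_eq_of_infinite f
    have heq' : ((S.ρ y k o1 : ℤ) : ZMod P) = ((S.ρ y k' o1 : ℤ) : ZMod P) := heq
    have hne' : S.ρ y k o1 ≠ S.ρ y k' o1 := fun h => hne (Subtype.ext h)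
    rw [ZMod.intCast_eq_intCast_iff_dvd_sub, hP] at heq'
    obtain ⟨n, hn⟩ := heq'
    have hn0 : n ≠ 0 := by rintro rfl; apply hne'; linarith
    have key : ∀ (k k' : K) (n : ℤ), S.ρ y k' o1 - S.ρ y k o1 = p * n →
        S.ρ y (k⁻¹ * k') o1 = o1 + n * p := by
      intro k k' n h
      rw [map_mul, Equiv.Perm.mul_apply, show S.ρ y k' o1 = S.ρ y k o1 + n * p by linarith, hpn,
        ← Equiv.Perm.mul_apply, ← map_mul, inv_mul_cancel, map_one, Equiv.Perm.one_apply]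
    rcases lt_or_gt_of_ne hn0 with h | h
    · exact ⟨k'⁻¹ * k, -n, by omega, key k' k (-n) (by linarith)⟩
    · exact ⟨k⁻¹ * k', n, h, key k k' n hn⟩
  have hM1 : ∀ k, S.ρ y (k * t1) o1 = S.ρ y k o1 + n * p := by
    intro k
    rw [map_mul, Equiv.Perm.mul_apply, ht1, hpn]
  obtain ⟨v, t, ψ, hv, W⟩ := exists_wall (S := S) hb hB t1 (n * p) hM1 (by positivity)
  refine ⟨v, hv, ?_⟩
  intro z hz hzp hagree k hk
  obtain ⟨q, hq, hzp⟩ := hzp
  obtain ⟨o, ho⟩ : ∃ o, o = S.ρ y v o1 := ⟨_, rfl⟩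
  have hpos : ∀ k, S.ρ y (k * v) o1 = S.ρ y k o := by
    intro k; rw [map_mul, Equiv.Perm.mul_apply, ho]
  have hE : ∀ e, S.Rel (fun k => S.ρ y (k * v) o1) B 1 e → S.ρ z e o = S.ρ y e o := by
    intro e he
    induction he with
    | refl => rw [map_one, map_one]
    | @tail b c hab hbc ih =>
      obtain ⟨h1, -, s, hs, rfl⟩ := hbc
      rw [map_mul, map_mul, Equiv.Perm.mul_apply, Equiv.Perm.mul_apply, ih]
      replace h1 : InB B (S.ρ y (b * v) o1) := h1
      rw [hpos] at h1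
      have := S.loc s hs z hz y hy (S.ρ y b o) (S.ρ y b o) (fun i hi => by
        apply hagree
        refine (abs_add_le _ _).trans ?_
        have : |S.ρ y b o| ≤ B := by
          rw [abs_le]; unfold InB at h1; omega
        linarith)
      linarith
  have hIfix : ∀ g ∈ stab (fun k => S.ρ y (k * v) o1),
      g ∈ {k | S.Rel (fun k => S.ρ y (k * v) o1) B 1 k} → S.ρ z g o = o := by
    intro g hg hgE
    rw [hE g hgE, ← hpos]
    have := hg 1
    rw [one_mul] at this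
    have h2 : S.ρ y (g * v) o1 = S.ρ y (1 * v) o1 := this
    rw [h2, one_mul, ho]
  have hfix : ∀ g ∈ stab (fun k => S.ρ y (k * v) o1), S.ρ z g o = o := by
    intro g hg
    obtain ⟨Q, hQ⟩ : ∃ Q : ℕ, (Q : ℤ) = q := ⟨q.toNat, Int.toNat_of_nonneg hq.le⟩
    -- modulus
    obtain ⟨c, hc⟩ : ∃ c : ℕ, c = (S.ρ z g o - o).natAbs + 1 := ⟨_, rfl⟩
    have hQ0 : 0 < Q := by have : (0 : ℤ) < Q := by rw [hQ]; exact hq
                           exact_mod_cast this
    have : NeZero (c * Q) := ⟨by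
      have : 0 < c * Q := Nat.mul_pos (by omega) hQ0
      omega⟩
    obtain ⟨a, ha⟩ := S.exists_modAction hz (c * Q) (by
      intro x
      have := period_mul hzp c x
      rw [← hQ] at this
      rw [← this]; push_cast; rfl)
    have h1 := W.fix noF (ZMod (c * Q)) a (o : ZMod (c * Q)) (by
      intro g hg hgE
      rw [ha, hIfix g hg hgE]) g hg
    rw [ha, ZMod.intCast_eq_intCast_iff_dvd_sub] at h1
    have h2 : |o - S.ρ z g o| < ((c * Q : ℕ) : ℤ) := by
      have e1 : |o - S.ρ z g o| < (c : ℤ) := by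
        rw [hc]; push_cast; rw [abs_sub_comm]; omega
      have e2 : (c : ℤ) ≤ ((c * Q : ℕ) : ℤ) := by
        exact_mod_cast Nat.le_mul_of_pos_right c hQ0
      linarith
    have h3 := Int.eq_zero_of_abs_lt_dvd h1 h2
    linarith
  rw [← ho]
  refine hfix k ?_
  intro a
  show S.ρ y (a * k * v) o1 = S.ρ y (a * v) o1
  rw [map_mul, map_mul, hk, mul_one, map_mul]

end Sys

end Pool.Agent.FG76
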