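import Mathlib
import Pool.Agent.FG76.FixPt
import Pool.Agent.FG76.Cut

set_option autoImplicit false

namespace Pool.Agent.FG76

open Topology in
/-- Compactness for sets of configurations. -/
theorem cyl_cover {A : Type} [Finite A] (Ω : Set (ℤ → A))
    (hcl : ∀ x : ℤ → A, (∀ N : ℤ, ∃ y ∈ Ω, ∀ i : ℤ, |i| ≤ N → y i = x i) → x ∈ Ω)
    (r : (ℤ → A) → ℤ) :
    ∃ t : Finset (ℤ → A), (∀ x ∈ t, x ∈ Ω) ∧
      ∀ x' ∈ Ω, ∃ x ∈ t, ∀ i : ℤ, |i| ≤ r x → x' i = x i := by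
  let _ : TopologicalSpace A := ⊥
  have _ : DiscreteTopology A := ⟨rfl⟩
  have hopen : ∀ (x : ℤ → A) (N : ℤ), {x' : ℤ → A | ∀ i : ℤ, |i| ≤ N → x' i = x i} ∈ 𝓝 x := by
    intro x N
    have h1 : IsOpen (Set.pi (Set.Icc (-N) N) (fun i => ({x i} : Set A))) :=
      isOpen_set_pi (Set.finite_Icc _ _) fun i _ => isOpen_discrete _
    refine Filter.mem_of_superset (h1.mem_nhds (fun i _ => rfl)) ?_
    intro x' hx' i hi
    exact hx' i (by rw [abs_le] at hi; exact hi)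
  have hclosed : IsClosed Ω := by
    rw [← closure_subset_iff_isClosed]
    intro x hx
    refine hcl x fun N => ?_
    obtain ⟨y, hy1, hy2⟩ := mem_closure_iff_nhds.1 hx _ (hopen x N)
    exact ⟨y, hy2, hy1⟩
  obtain ⟨t, ht1, ht2⟩ := hclosed.isCompact.elim_nhds_subcover
    (fun x => {x' : ℤ → A | ∀ i : ℤ, |i| ≤ r x → x' i = x i}) fun x _ => hopen x (r x)
  refine ⟨t, ht1, fun x' hx' => ?_⟩
  obtain ⟨x, hx, h⟩ := Set.mem_iUnion₂.1 (ht2 hx')
  exact ⟨x, hx, h⟩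

namespace Sys

variable {A K : Type} [Group K] (S : Sys A K)

/-- Covering, local version. -/
theorem cover [Finite A] (noF : ¬ ∃ f : FreeGroup (Fin 2) →* K, Function.Injective f)
    {x : ℤ → A} (hx : x ∈ S.PP) :
    ∃ r : ℤ, ∃ y ∈ S.Sig, Per y ∧ ∀ x' ∈ S.PP, (∀ i, |i| ≤ r → x' i = x i) →
      ∀ k, S.ρ y k = 1 → S.ρ x' k 0 = 0 := by
  have hxS := S.PP_sub hx
  have hRpos := S.R_pos
  by_cases hb : ∃ Z : ℤ, ∀ k, |S.ρ x k 0| ≤ Z
  · obtain ⟨Z, hZ⟩ := hb
    have follow : ∀ x' ∈ S.Sig, (∀ i, |i| ≤ Z + S.R → x' i = x i) →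
        ∀ k, S.ρ x' k 0 = S.ρ x k 0 := by
      intro x' hx' hag
      refine S.ind ?_ ?_
      · rw [map_one, map_one]
      · intro s hs k ih
        rw [map_mul, map_mul, Equiv.Perm.mul_apply, Equiv.Perm.mul_apply, ih]
        have := S.loc s hs x' hx' x hxS (S.ρ x k 0) (S.ρ x k 0) (fun i hi => by
          apply hag
          refine (abs_add_le _ _).trans ?_
          have := hZ k
          linarith)
        linarith
    obtain ⟨y, hy, hyp, hag⟩ := hx (Z + S.R)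
    refine ⟨Z + S.R, y, hy, hyp, fun x' hx' hag' k hk => ?_⟩
    rw [follow x' (S.PP_sub hx') hag' k, ← follow y hy hag k, hk, Equiv.Perm.one_apply]
  · push Not at hb
    obtain ⟨B, hB⟩ : ∃ B : ℤ, B = (2 * S.L + 1) * S.R := ⟨_, rfl⟩
    have hB0 : 0 ≤ B := by rw [hB]; positivity
    obtain ⟨y, hy, hyp, i, hag, k0, hk0, hunb, hO⟩ := S.exists_cut hxS hb (B + S.R)
    obtain ⟨y1, hy1⟩ : ∃ y1 : ℤ → A, y1 = fun c => y (c + i) := ⟨_, rfl⟩
    have hy1S : y1 ∈ S.Sig := by rw [hy1]; exact S.shift_mem hy i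
    have hy1p : Per y1 := by
      obtain ⟨p, hp, h⟩ := hyp
      refine ⟨p, hp, fun c => ?_⟩
      rw [hy1]
      show y (c + p + i) = y (c + i)
      rw [show c + p + i = c + i + p by ring, h]
    have hρ : ∀ k c, S.ρ y1 k c = S.ρ y k (c + i) - i := by
      intro k c; rw [hy1]; exact S.rho_shift hy i k c
    obtain ⟨o1, ho1⟩ : ∃ o1, o1 = S.ρ x k0 0 - i := ⟨_, rfl⟩
    have hunb1 : ∀ Z : ℤ, ∃ k, Z < |S.ρ y1 k o1| := by
      intro Z
      obtain ⟨k, hk⟩ := hunb (Z + |i|)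
      refine ⟨k, ?_⟩
      rw [hρ, ho1, sub_add_cancel]
      have := abs_sub_abs_le_abs_sub (S.ρ y k (S.ρ x k0 0)) i
      linarith
    obtain ⟨v, hv, hfix⟩ := S.exists_fix noF hy1S hy1p o1 hunb1 hB.ge
    obtain ⟨o', ho'⟩ : ∃ o', o' = S.ρ y1 v o1 := ⟨_, rfl⟩
    rw [← ho'] at hv hfix
    have ho'B : |o'| ≤ B := by rw [abs_le]; unfold InB at hv; omega
    have hq : S.ρ y v (S.ρ x k0 0) = o' + i := by
      rw [ho', hρ, ho1, sub_add_cancel, sub_add_cancel]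
    obtain ⟨k', hk'⟩ := hO v (by rw [hq, add_sub_cancel_right]; linarith)
    rw [hq] at hk'
    have hk'inv : S.ρ x k'⁻¹ (o' + i) = 0 := by
      rw [← hk', ← Equiv.Perm.mul_apply, ← map_mul, inv_mul_cancel, map_one,
        Equiv.Perm.one_apply]
    obtain ⟨r1, hr1, -, hloc1⟩ := S.exists_rad k'⁻¹
    refine ⟨|i| + B + S.R + r1, y, hy, hyp, fun x' hx' hag' k hk => ?_⟩
    obtain ⟨r2, hr2, -, hloc2⟩ := S.exists_rad k
    obtain ⟨z, hz, hzp, hagz⟩ := hx' (|i| + B + S.R + r1 + r2)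
    have hzx : ∀ c, |c| ≤ |i| + B + S.R + r1 → z c = x c := fun c hc => by
      rw [hagz c (by linarith), hag' c hc]
    have e1 : S.ρ x' k 0 = S.ρ z k 0 := by
      have h0 := abs_nonneg i
      have := hloc2 x' (S.PP_sub hx') z hz 0 0 (fun j hj => by
        rw [zero_add]; exact (hagz j (by linarith)).symm)
      linarith
    rw [e1]
    have e2 : S.ρ z k'⁻¹ (o' + i) = 0 := by
      have := hloc1 z hz x hxS (o' + i) (o' + i) (fun j hj => by
        apply hzx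
        refine (abs_add_le _ _).trans ?_
        have := abs_add_le o' i
        linarith)
      rw [hk'inv] at this
      linarith
    have e3 : S.ρ z (k' * k * k'⁻¹) (o' + i) = o' + i := by
      have h1 := hfix (fun c => z (c + i)) (S.shift_mem hz i) (by
        obtain ⟨p, hp, h⟩ := hzp
        refine ⟨p, hp, fun c => ?_⟩
        show z (c + p + i) = z (c + i)
        rw [show c + p + i = c + i + p by ring, h]) (by
        intro c hc
        rw [hy1]
        show z (c + i) = y (c + i)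
        rw [hzx (c + i) (by have := abs_add_le c i; linarith),
          hag (c + i) (by rw [add_sub_cancel_right]; exact hc)]) (k' * k * k'⁻¹) (by
        ext c
        rw [hρ, map_mul, map_mul, hk, mul_one, ← map_mul, mul_inv_cancel, map_one,
          Equiv.Perm.one_apply, Equiv.Perm.one_apply, add_sub_cancel_right])
      rw [S.rho_shift hz] at h1
      linarith
    rw [map_mul, map_mul, Equiv.Perm.mul_apply, Equiv.Perm.mul_apply, e2] at e3
    have e4 := congrArg (S.ρ z k'⁻¹) e3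
    rw [e2, ← Equiv.Perm.mul_apply, ← map_mul, inv_mul_cancel, map_one,
      Equiv.Perm.one_apply] at e4
    exact e4

/-- Covering, finite version. -/
theorem cover_fin [Finite A] (noF : ¬ ∃ f : FreeGroup (Fin 2) →* K, Function.Injective f) :
    ∃ F : Finset (ℤ → A), (∀ y ∈ F, y ∈ S.Sig ∧ Per y) ∧
      ∀ k, (∀ y ∈ F, S.ρ y k = 1) → ∀ x ∈ S.PP, S.ρ x k = 1 := by
  classical
  have h : ∀ x : ℤ → A, ∃ r : ℤ, ∃ y : ℤ → A, x ∈ S.PP → y ∈ S.Sig ∧ Per y ∧
      ∀ x' ∈ S.PP, (∀ i, |i| ≤ r → x' i = x i) → ∀ k, S.ρ y k = 1 → S.ρ x' k 0 = 0 := by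
    intro x
    by_cases hx : x ∈ S.PP
    · obtain ⟨r, y, h1, h2, h3⟩ := S.cover noF hx
      exact ⟨r, y, fun _ => ⟨h1, h2, h3⟩⟩
    · exact ⟨0, x, fun h => absurd h hx⟩
  choose r y hy using h
  obtain ⟨t, ht1, ht2⟩ := cyl_cover S.PP (by
    intro x hx N
    obtain ⟨x', hx', h1⟩ := hx N
    obtain ⟨z, hz, hzp, h2⟩ := hx' N
    exact ⟨z, hz, hzp, fun i hi => by rw [h2 i hi, h1 i hi]⟩) r
  refine ⟨t.image y, ?_, ?_⟩
  · intro y' hy'
    obtain ⟨x, hx, rfl⟩ := Finset.mem_image.1 hy'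
    exact ⟨(hy x (ht1 x hx)).1, (hy x (ht1 x hx)).2.1⟩
  · intro k hk
    have key : ∀ x ∈ S.PP, S.ρ x k 0 = 0 := by
      intro x' hx'
      obtain ⟨x, hx, hag⟩ := ht2 x' hx'
      exact (hy x (ht1 x hx)).2.2 x' hx' hag k (hk _ (Finset.mem_image_of_mem y hx))
    intro x hx
    ext c
    have h1 := key _ (S.PP_shift hx c)
    rw [S.rho_shift (S.PP_sub hx), zero_add] at h1
    rw [Equiv.Perm.one_apply]
    linarith

end Sys

end Pool.Agent.FG76
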