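import Mathlib
import Pool.Agent.FG76.Cover

set_option autoImplicit false

namespace Pool.Agent.FG76

variable {m : ℕ} {rels : Set (FreeGroup (Fin m))}

/-- letters -/
def lt (rels : Set (FreeGroup (Fin m))) (x : Fin m × Bool) : PresentedGroup rels :=
  cond x.2 (PresentedGroup.of x.1) (PresentedGroup.of x.1)⁻¹

theorem mk_eq_lift : PresentedGroup.mk rels = FreeGroup.lift (PresentedGroup.of) := by
  apply FreeGroup.ext_hom
  intro a
  rw [FreeGroup.lift_apply_of]
  rfl

theorem mk_mk (L : List (Fin m × Bool)) :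
    PresentedGroup.mk rels (FreeGroup.mk L) = (L.map (lt rels)).prod := by
  rw [mk_eq_lift, FreeGroup.lift_mk]
  rfl

theorem exists_word (k : PresentedGroup rels) :
    ∃ L : List (Fin m × Bool), (L.map (lt rels)).prod = k := by
  obtain ⟨g, rfl⟩ := PresentedGroup.mk_surjective rels k
  exact ⟨g.toWord, by rw [← mk_mk, FreeGroup.mk_toWord]⟩

theorem rel_prod {r : FreeGroup (Fin m)} (hr : r ∈ rels) : (r.toWord.map (lt rels)).prod = 1 := by
  rw [← mk_mk, FreeGroup.mk_toWord, PresentedGroup.one_of_mem hr]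

theorem lift_foldr {X : Type} (f : Fin m → Equiv.Perm X) (F : Fin m × Bool → X → X)
    (h1 : ∀ a x, F (a, true) x = f a x) (h2 : ∀ a x, F (a, false) x = (f a)⁻¹ x)
    (L : List (Fin m × Bool)) (x : X) :
    FreeGroup.lift f (FreeGroup.mk L) x = L.foldr F x := by
  rw [FreeGroup.lift_mk]
  induction L with
  | nil => rfl
  | cons s L ih =>
    rw [List.map_cons, List.prod_cons, Equiv.Perm.mul_apply, ih, List.foldr_cons]
    rcases s with ⟨a, _ | _⟩
    · exact (h2 a _).symm
    · exact (h1 a _).symm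

/-- A presented group acts on `X` as soon as the relators act trivially. -/
theorem exists_action {X : Type} (F : Fin m × Bool → X → X)
    (h1 : ∀ a x, F (a, true) (F (a, false) x) = x) (h2 : ∀ a x, F (a, false) (F (a, true) x) = x)
    (h3 : ∀ r ∈ rels, ∀ x, r.toWord.foldr F x = x) :
    ∃ Φ : PresentedGroup rels →* Equiv.Perm X, ∀ (L : List (Fin m × Bool)) x,
      Φ (L.map (lt rels)).prod x = L.foldr F x := by
  let f : Fin m → Equiv.Perm X := fun a =>
    { toFun := F (a, true)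
      invFun := F (a, false)
      left_inv := h2 a
      right_inv := h1 a }
  have hf : ∀ L x, FreeGroup.lift f (FreeGroup.mk L) x = L.foldr F x := fun L x =>
    lift_foldr f F (fun a x => rfl) (fun a x => rfl) L x
  have hrel : ∀ r ∈ rels, FreeGroup.lift f r = 1 := by
    intro r hr
    ext x
    rw [← FreeGroup.mk_toWord (x := r), hf, h3 r hr]; rfl
  refine ⟨PresentedGroup.toGroup hrel, fun L x => ?_⟩
  rw [← hf, ← mk_mk]
  rfl

/-- The potential lemma. -/
theorem pres_pot (κ : PresentedGroup rels → PresentedGroup rels → ZMod 2)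
    (hs : ∀ k k', κ k k' = κ k' k)
    (hc : ∀ r ∈ rels, ∀ k, pathSum κ (r.toWord.map (lt rels)) k = 0) :
    ∃ ψ : PresentedGroup rels → ZMod 2, ∀ s ∈ Set.range (lt rels), ∀ k,
      ψ (s * k) = ψ k + κ k (s * k) := by
  let F : Fin m × Bool → PresentedGroup rels × ZMod 2 → PresentedGroup rels × ZMod 2 :=
    fun s x => (lt rels s * x.1, x.2 + κ x.1 (lt rels s * x.1))
  have hF : ∀ (L : List (Fin m × Bool)) k b, L.foldr F (k, b) =
      ((L.map (lt rels)).prod * k, b + pathSum κ (L.map (lt rels)) k) := by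
    intro L k b
    induction L with
    | nil => simp [pathSum]
    | cons s L ih =>
      rw [List.foldr_cons, ih, List.map_cons, List.prod_cons, pathSum]
      refine Prod.ext ?_ ?_
      · show lt rels s * ((L.map (lt rels)).prod * k) = _
        rw [mul_assoc]
      · show b + pathSum κ (L.map (lt rels)) k +
          κ ((L.map (lt rels)).prod * k) (lt rels s * ((L.map (lt rels)).prod * k)) = _
        ring
  have hinv : ∀ (s s' : Fin m × Bool), lt rels s * lt rels s' = 1 → ∀ x, F s (F s' x) = x := by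
    intro s s' h x
    refine Prod.ext ?_ ?_
    · show lt rels s * (lt rels s' * x.1) = x.1
      rw [← mul_assoc, h, one_mul]
    · show x.2 + κ x.1 (lt rels s' * x.1) + κ (lt rels s' * x.1) (lt rels s * (lt rels s' * x.1))
        = x.2
      rw [← mul_assoc, h, one_mul, hs (lt rels s' * x.1) x.1, add_assoc,
        CharTwo.add_self_eq_zero, add_zero]
  obtain ⟨Φ, hΦ⟩ := exists_action (rels := rels) F
    (fun a x => hinv (a, true) (a, false) (mul_inv_cancel _) x)
    (fun a x => hinv (a, false) (a, true) (inv_mul_cancel _) x) (by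
      rintro r hr ⟨k, b⟩
      rw [hF, rel_prod hr, one_mul, hc r hr, add_zero])
  have h1 : ∀ k, (Φ k (1, 0)).1 = k := by
    intro k
    obtain ⟨L, rfl⟩ := exists_word k
    rw [hΦ, hF, mul_one]
  refine ⟨fun k => (Φ k (1, 0)).2, ?_⟩
  rintro _ ⟨s, rfl⟩ k
  show (Φ (lt rels s * k) (1, 0)).2 = (Φ k (1, 0)).2 + _
  rw [map_mul, Equiv.Perm.mul_apply]
  have e : Φ k (1, 0) = (k, (Φ k (1, 0)).2) := Prod.ext (h1 k) rfl
  have e2 := hΦ [s] (k, (Φ k (1, 0)).2)
  rw [List.map_cons, List.map_nil, List.prod_cons, List.prod_nil, mul_one, hF] at e2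
  rw [e, e2]
  simp [pathSum]

/-! ### Local rules -/

section rule

variable {A : Type} (ℓ : Fin m × Bool → (ℤ → A) → ℤ)

/-- one step -/
def stp (y : ℤ → A) (s : Fin m × Bool) (c : ℤ) : ℤ := c + ℓ s (fun i => y (i + c))

/-- run a word -/
def run (y : ℤ → A) (w : List (Fin m × Bool)) (c : ℤ) : ℤ := w.foldr (stp ℓ y) c

theorem run_cons (y : ℤ → A) (s : Fin m × Bool) (w : List (Fin m × Bool)) (c : ℤ) :
    run ℓ y (s :: w) c = stp ℓ y s (run ℓ y w c) := rfl

variable {ℓ} {R : ℤ}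

theorem stp_loc (hloc : ∀ s y y', (∀ i, |i| ≤ R → y i = y' i) → ℓ s y = ℓ s y')
    (y y' : ℤ → A) (s : Fin m × Bool) (c c' : ℤ) (h : ∀ i, |i| ≤ R → y (c + i) = y' (c' + i)) :
    stp ℓ y s c - c = stp ℓ y' s c' - c' := by
  unfold stp
  rw [hloc s (fun i => y (i + c)) (fun i => y' (i + c')) (fun i hi => by
    show y (i + c) = y' (i + c')
    rw [add_comm i c, add_comm i c', h i hi])]
  ring

theorem run_disp (hdisp : ∀ s y, |ℓ s y| ≤ R) (y : ℤ → A) (w : List (Fin m × Bool)) (c : ℤ) :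
    |run ℓ y w c - c| ≤ w.length * R := by
  induction w with
  | nil => simp [run]
  | cons s w ih =>
    rw [run_cons, List.length_cons]
    push_cast
    have h1 := hdisp s (fun i => y (i + run ℓ y w c))
    have e : stp ℓ y s (run ℓ y w c) - c =
      ℓ s (fun i => y (i + run ℓ y w c)) + (run ℓ y w c - c) := by unfold stp; ring
    rw [e]
    refine (abs_add_le _ _).trans ?_
    linarith

theorem run_loc (hdisp : ∀ s y, |ℓ s y| ≤ R)
    (hloc : ∀ s y y', (∀ i, |i| ≤ R → y i = y' i) → ℓ s y = ℓ s y') (hR : 0 ≤ R)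
    (y y' : ℤ → A) (w : List (Fin m × Bool)) (c c' : ℤ)
    (h : ∀ i, |i| ≤ w.length * R → y (c + i) = y' (c' + i)) :
    run ℓ y w c - c = run ℓ y' w c' - c' := by
  induction w with
  | nil => simp [run]
  | cons s w ih =>
    rw [run_cons, run_cons]
    have h1 := ih (fun i hi => h i (by rw [List.length_cons]; push_cast; linarith))
    have h0 := run_disp hdisp y w c
    have h2 := stp_loc hloc y y' s (run ℓ y w c) (run ℓ y' w c') (fun i hi => by
      have := h (run ℓ y w c - c + i) (by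
        rw [List.length_cons]; push_cast
        refine (abs_add_le _ _).trans ?_
        linarith)
      rw [show c + (run ℓ y w c - c + i) = run ℓ y w c + i by ring] at this
      rw [this, h1]
      congr 1; ring)
    linarith

/-- test words -/
def TW (rels : Set (FreeGroup (Fin m))) : Set (List (Fin m × Bool)) :=
  {w | (∃ a, w = [(a, true), (a, false)]) ∨ (∃ a, w = [(a, false), (a, true)]) ∨
    ∃ r ∈ rels, w = r.toWord}

theorem TW_prod {w : List (Fin m × Bool)} (hw : w ∈ TW rels) : (w.map (lt rels)).prod = 1 := by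
  rcases hw with ⟨a, rfl⟩ | ⟨a, rfl⟩ | ⟨r, hr, rfl⟩
  · simp [lt]
  · simp [lt]
  · exact rel_prod hr

theorem TW_length (hrels : rels.Finite) : ∃ L : ℕ, ∀ w ∈ TW rels, w.length ≤ L := by
  obtain ⟨L, hL⟩ : ∃ L : ℕ, ∀ r ∈ rels, r.toWord.length ≤ L := by
    obtain ⟨L, hL⟩ := (hrels.image fun r => r.toWord.length).bddAbove
    exact ⟨L, fun r hr => hL ⟨r, hr, rfl⟩⟩
  refine ⟨L + 2, ?_⟩
  rintro w (⟨a, rfl⟩ | ⟨a, rfl⟩ | ⟨r, hr, rfl⟩)
  · simp
  · simp
  · have := hL r hr; omega

/-- the subshift of finite type -/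
def SigOf (rels : Set (FreeGroup (Fin m))) (ℓ : Fin m × Bool → (ℤ → A) → ℤ) : Set (ℤ → A) :=
  {y | ∀ w ∈ TW rels, ∀ c, run ℓ y w c = c}

theorem exists_rho (rels : Set (FreeGroup (Fin m))) (ℓ : Fin m × Bool → (ℤ → A) → ℤ)
    (y : ℤ → A) : ∃ Φ : PresentedGroup rels →* Equiv.Perm ℤ, y ∈ SigOf rels ℓ →
      ∀ (L : List (Fin m × Bool)) c, Φ (L.map (lt rels)).prod c = run ℓ y L c := by
  by_cases hy : y ∈ SigOf rels ℓ
  · obtain ⟨Φ, hΦ⟩ := exists_action (rels := rels) (stp ℓ y)
      (fun a x => hy _ (Or.inl ⟨a, rfl⟩) x) (fun a x => hy _ (Or.inr (Or.inl ⟨a, rfl⟩)) x)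
      (fun r hr x => hy _ (Or.inr (Or.inr ⟨r, hr, rfl⟩)) x)
    exact ⟨Φ, fun _ => hΦ⟩
  · exact ⟨1, fun h => absurd h hy⟩

/-- The system associated with a presentation and a local rule. -/
theorem exists_sys (hrels : rels.Finite) (hdisp : ∀ s y, |ℓ s y| ≤ R)
    (hloc : ∀ s y y', (∀ i, |i| ≤ R → y i = y' i) → ℓ s y = ℓ s y') (hR : 0 < R) :
    ∃ S : Sys A (PresentedGroup rels), S.Sig = SigOf rels ℓ ∧ S.T = Set.range (lt rels) ∧
      ∀ y ∈ SigOf rels ℓ, ∀ (L : List (Fin m × Bool)) c,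
        S.ρ y (L.map (lt rels)).prod c = run ℓ y L c := by
  obtain ⟨L, hL⟩ := TW_length hrels
  choose ρ hρ using exists_rho (rels := rels) (ℓ := ℓ)
  have hs1 : ∀ y ∈ SigOf rels ℓ, ∀ s c, ρ y (lt rels s) c = stp ℓ y s c := by
    intro y hy s c
    have := hρ y hy [s] c
    simpa [run] using this
  refine ⟨
    { T := Set.range (lt rels)
      T_inv := ?_
      T_gen := ?_
      Sig := SigOf rels ℓ
      ρ := ρ
      R := R
      R_pos := hR
      disp := ?_
      loc := ?_
      R1 := L * R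
      ft := ?_
      L := L
      pot := ?_ }, rfl, rfl, hρ⟩
  · rintro _ ⟨⟨a, _ | _⟩, rfl⟩
    · exact ⟨(a, true), by simp [lt]⟩
    · exact ⟨(a, false), by simp [lt]⟩
  · intro k
    obtain ⟨w, rfl⟩ := exists_word k
    refine ⟨w.map (lt rels), ?_, rfl⟩
    intro s hs
    obtain ⟨x, -, rfl⟩ := List.mem_map.1 hs
    exact ⟨x, rfl⟩
  · rintro _ ⟨s, rfl⟩ y hy c
    rw [hs1 y hy]
    unfold stp
    rw [add_sub_cancel_left]
    exact hdisp _ _
  · rintro _ ⟨s, rfl⟩ y hy y' hy' c c' h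
    rw [hs1 y hy, hs1 y' hy']
    exact stp_loc hloc y y' s c c' h
  · intro y hy w hw c
    obtain ⟨x, hx, c', h⟩ := hy c
    have h1 := run_loc hdisp hloc hR.le y x w c c' (fun i hi => h i (hi.trans (by
      have := hL w hw
      exact mul_le_mul_of_nonneg_right (by exact_mod_cast this) hR.le)))
    have h2 := hx w hw c'
    linarith
  · intro κ hs hc
    refine pres_pot κ hs fun r hr k => hc _ ?_ ?_ (rel_prod hr) k
    · intro s hs
      obtain ⟨x, -, rfl⟩ := List.mem_map.1 hs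
      exact ⟨x, rfl⟩
    · rw [List.length_map]
      exact hL _ (Or.inr (Or.inr ⟨r, hr, rfl⟩))

end rule

end Pool.Agent.FG76
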