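import Mathlib

set_option autoImplicit false

namespace Pool.Agent.FG76

/-- `P` is closed under the operations of elementary amenability. -/
structure Cls (P : ∀ (G : Type) [Group G], Prop) : Prop where
  fin : ∀ (G : Type) [Group G] [Finite G], P G
  ab : ∀ (G : Type) [Group G], (∀ a b : G, a * b = b * a) → P G
  iso : ∀ (G G' : Type) [Group G] [Group G'], (G ≃* G') → P G → P G'
  sub : ∀ (G : Type) [Group G] (S : Subgroup G), P G → P ↥S
  quot : ∀ (G : Type) [Group G] (N : Subgroup G) [N.Normal], P G → P (G ⧸ N)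
  ext : ∀ (G : Type) [Group G] (N : Subgroup G) [N.Normal], P ↥N → P (G ⧸ N) → P G
  dir : ∀ (G : Type) [Group G], (∀ S : Subgroup G, S.FG → P ↥S) → P G

namespace Cls

variable {P : ∀ (G : Type) [Group G], Prop} (hP : Cls P)

include hP

theorem inj {G G' : Type} [Group G] [Group G'] (f : G →* G') (hf : Function.Injective f)
    (h : P G') : P G :=
  hP.iso _ _ (MonoidHom.ofInjective hf).symm (hP.sub G' f.range h)

theorem surj {G G' : Type} [Group G] [Group G'] (f : G →* G') (hf : Function.Surjective f)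
    (h : P G) : P G' :=
  hP.iso _ _ (QuotientGroup.quotientKerEquivOfSurjective f hf) (hP.quot G f.ker h)

theorem extHom {G G' : Type} [Group G] [Group G'] (f : G →* G') (h1 : P f.ker) (h2 : P G') :
    P G :=
  hP.ext G f.ker h1 (hP.iso _ _ (QuotientGroup.quotientKerEquivRange f).symm
    (hP.sub G' f.range h2))

theorem prod {G G' : Type} [Group G] [Group G'] (h1 : P G) (h2 : P G') : P (G × G') := by
  refine hP.extHom (MonoidHom.fst G G') ?_ h1
  refine hP.inj ((MonoidHom.snd G G').comp (MonoidHom.fst G G').ker.subtype) ?_ h2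
  rintro ⟨⟨a, b⟩, h⟩ ⟨⟨a', b'⟩, h'⟩ heq
  have e1 : a = 1 := h
  have e2 : a' = 1 := h'
  have e3 : b = b' := heq
  subst e1; subst e2; subst e3; rfl

end Cls

/-- The action modulo `q`. -/
theorem modAction_gen {C : Type} [Group C] (r : C →* Equiv.Perm ℤ) (q : ℕ) [NeZero q]
    (hq : ∀ k c, r k (c + q) = r k c + q) :
    ∃ a : C →* Equiv.Perm (ZMod q), ∀ k, ∀ c : ℤ, a k (c : ZMod q) = ((r k c : ℤ) : ZMod q) := by
  have hadd : ∀ (k : C) (c n : ℤ), r k (c + n * q) = r k c + n * q := by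
    intro k c n
    induction n using Int.induction_on with
    | zero => simp
    | succ i ih =>
      rw [show c + ((i : ℤ) + 1) * q = (c + i * q) + q by ring, hq, ih]; ring
    | pred i ih =>
      have := hq k (c + (-(i : ℤ) - 1) * q)
      rw [show c + (-(i : ℤ) - 1) * q + q = c + (-(i : ℤ)) * q by ring, ih] at this
      linarith
  have hwd : ∀ (k : C) (c d : ℤ), (c : ZMod q) = (d : ZMod q) →
      ((r k c : ℤ) : ZMod q) = ((r k d : ℤ) : ZMod q) := by
    intro k c d h
    rw [ZMod.intCast_eq_intCast_iff_dvd_sub] at h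
    obtain ⟨n, hn⟩ := h
    have : d = c + n * q := by linarith
    rw [this, hadd]
    simp
  have hval : ∀ c : ZMod q, (((c.val : ℕ) : ℤ) : ZMod q) = c := by
    intro c
    rw [Int.cast_natCast, ZMod.natCast_zmod_val]
  let act : MulAction C (ZMod q) :=
    { smul := fun k c => ((r k ((c.val : ℕ) : ℤ) : ℤ) : ZMod q)
      one_smul := by
        intro c
        show ((r 1 ((c.val : ℕ) : ℤ) : ℤ) : ZMod q) = c
        rw [map_one, Equiv.Perm.one_apply, hval]
      mul_smul := by
        intro a b c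
        show ((r (a * b) ((c.val : ℕ) : ℤ) : ℤ) : ZMod q) =
          ((r a (((((r b ((c.val : ℕ) : ℤ) : ℤ) : ZMod q)).val : ℕ) : ℤ) : ℤ) : ZMod q)
        rw [map_mul, Equiv.Perm.mul_apply]
        apply hwd
        rw [hval] }
  refine ⟨MulAction.toPermHom C (ZMod q), fun k c => ?_⟩
  show ((r k ((((c : ZMod q)).val : ℕ) : ℤ) : ℤ) : ZMod q) = _
  apply hwd
  rw [hval]

/-- Groups of permutations of `ℤ` commuting with a translation are in the class. -/
theorem Cls.periodic {P : ∀ (G : Type) [Group G], Prop} (hP : Cls P) (C : Subgroup (Equiv.Perm ℤ))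
    (p : ℤ) (hp : 0 < p) (hC : ∀ g ∈ C, ∀ c, g (c + p) = g c + p) : P C := by
  obtain ⟨q, hq⟩ : ∃ q : ℕ, (q : ℤ) = p := ⟨p.toNat, Int.toNat_of_nonneg hp.le⟩
  have : NeZero q := ⟨by rintro rfl; simp at hq; omega⟩
  subst hq
  have hadd : ∀ g ∈ C, ∀ (c n : ℤ), g (c + n * q) = g c + n * q := by
    intro g hg c n
    induction n using Int.induction_on with
    | zero => simp
    | succ i ih =>
      rw [show c + ((i : ℤ) + 1) * q = (c + i * q) + q by ring, hC g hg, ih]; ring
    | pred i ih =>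
      have := hC g hg (c + (-(i : ℤ) - 1) * q)
      rw [show c + (-(i : ℤ) - 1) * q + q = c + (-(i : ℤ)) * q by ring, ih] at this
      linarith
  obtain ⟨a, ha⟩ := modAction_gen C.subtype q (fun k c => hC k k.2 c)
  refine hP.extHom a ?_ (hP.fin _)
  refine hP.ab _ ?_
  have hdiff : ∀ g : a.ker, ∀ c : ℤ, ∃ n : ℤ, ((g : C) : Equiv.Perm ℤ) c = c + n * q := by
    intro g c
    have h1 : a g = 1 := g.2
    have h2 := ha g c
    rw [h1, Equiv.Perm.one_apply, ZMod.intCast_eq_intCast_iff_dvd_sub] at h2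
    obtain ⟨n, hn⟩ := h2
    refine ⟨n, ?_⟩
    have hn' : ((g : C) : Equiv.Perm ℤ) c - c = q * n := hn
    linarith
  intro g h
  apply Subtype.ext
  apply Subtype.ext
  ext c
  show ((g : C) : Equiv.Perm ℤ) (((h : C) : Equiv.Perm ℤ) c) =
    ((h : C) : Equiv.Perm ℤ) (((g : C) : Equiv.Perm ℤ) c)
  obtain ⟨n, hn⟩ := hdiff g c
  obtain ⟨n', hn'⟩ := hdiff h c
  rw [hn, hn', hadd _ (g : C).2, hadd _ (h : C).2, hn, hn']
  ring

end Pool.Agent.FG76
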