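import Mathlib
import Pool.Agent.FG76.Build

set_option autoImplicit false

namespace Pool.Agent.FG76

/-- Finite windows together with a residue. -/
abbrev QT (A : Type) (r : ℕ) : Type := ((Set.Icc (-(r : ℤ)) r : Set ℤ) → A) × ZMod (r + 1)

namespace Sys

variable {A K : Type} [Group K] (S : Sys A K)

/-- bad positions -/
def Bad (x : ℤ → A) (r : ℤ) : Set ℤ :=
  {i | ∀ z ∈ S.Sig, Per z → ∃ j : ℤ, |j| ≤ r ∧ z (i + j) ≠ x (i + j)}

theorem per_PP {z : ℤ → A} (hz : z ∈ S.Sig) (hp : Per z) : z ∈ S.PP :=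
  fun _ => ⟨z, hz, hp, fun _ _ => rfl⟩

/-- window and residue -/
def qt (x : ℤ → A) (r : ℕ) (i : ℤ) : QT A r := (fun j => x (i + (j : ℤ)), (i : ZMod (r + 1)))

theorem bad_inj {x : ℤ → A} (hx : x ∈ S.Sig) (r : ℕ) (hr1 : S.R1 ≤ r) :
    Function.Injective (fun i : S.Bad x r => qt x r i) := by
  have key : ∀ i i' : S.Bad x r, qt x r i = qt x r i' → ¬ (i : ℤ) < i' := by
    intro i i' h hlt
    have h1 : (fun j : (Set.Icc (-(r : ℤ)) r : Set ℤ) => x (i + (j : ℤ))) =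
        fun j : (Set.Icc (-(r : ℤ)) r : Set ℤ) => x (i' + (j : ℤ)) := congrArg Prod.fst h
    have h2 : ((i : ℤ) : ZMod (r + 1)) = ((i' : ℤ) : ZMod (r + 1)) := congrArg Prod.snd h
    rw [show ((i : ℤ) : ZMod (r + 1)) = ((i' : ℤ) : ZMod (r + 1)) ↔ _ from
      ZMod.intCast_eq_intCast_iff_dvd_sub _ _ _] at h2
    have h3 : (((r + 1 : ℕ) : ℤ)) ≤ i' - i := Int.le_of_dvd (by linarith) h2
    push_cast at h3
    have hw : ∀ k : ℤ, |k| ≤ r → x (i + k) = x (i + (i' - i) + k) := by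
      intro k hk
      rw [abs_le] at hk
      have := congrFun h1 ⟨k, hk⟩
      rw [show (i : ℤ) + (i' - i) + k = i' + k by ring]
      exact this
    have hmem := S.glue_mem hx i (i' - i) r (by linarith) (by positivity) hr1 hw
    obtain ⟨j, hj, hne⟩ := i.2 _ hmem ⟨i' - i, by linarith, glue_period x i (i' - i)⟩
    apply hne
    rw [abs_le] at hj
    exact glue_eq x i (i' - i) r (by linarith) hw (i + j) (by linarith) (by linarith)
  intro i i' h
  have h1 := key i i' h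
  have h2 := key i' i h.symm
  exact Subtype.ext (le_antisymm (not_lt.1 h2) (not_lt.1 h1))

theorem exists_theta {ι : Type} [Finite ι] (k : ι → K) (hk : ∀ j, ∀ x ∈ S.PP, S.ρ x (k j) = 1) :
    ∃ r : ℕ, ∀ x ∈ S.Sig, ∃ θ : FreeGroup ι →* Equiv.Perm (QT A r), ∀ a, θ a = 1 →
      S.ρ x (FreeGroup.lift k a) = 1 := by
  classical
  have hrad := fun j => S.exists_rad (k j)
  choose r0 hr0 _ hr2 using hrad
  have := Fintype.ofFinite ι
  obtain ⟨r, hr⟩ : ∃ r : ℕ, (r : ℤ) = |S.R1| + ∑ j, r0 j := by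
    refine ⟨(|S.R1| + ∑ j, r0 j).toNat, Int.toNat_of_nonneg ?_⟩
    have : 0 ≤ ∑ j, r0 j := Finset.sum_nonneg fun j _ => hr0 j
    have := abs_nonneg S.R1
    linarith
  have hrj : ∀ j, r0 j ≤ r := by
    intro j
    have h1 := Finset.single_le_sum (f := r0) (fun j _ => hr0 j) (Finset.mem_univ j)
    have := abs_nonneg S.R1
    linarith
  have hr1 : S.R1 ≤ r := by
    have : 0 ≤ ∑ j, r0 j := Finset.sum_nonneg fun j _ => hr0 j
    have := le_abs_self S.R1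
    linarith
  refine ⟨r, fun x hx => ?_⟩
  have hgood : ∀ j, ∀ i, i ∉ S.Bad x r → S.ρ x (k j) i = i := by
    intro j i hi
    have hi' : ∃ z ∈ S.Sig, Per z ∧ ∀ l : ℤ, |l| ≤ r → z (i + l) = x (i + l) := by
      by_contra hcon
      apply hi
      intro z hz hp
      by_contra hcon2
      push Not at hcon2
      exact hcon ⟨z, hz, hp, hcon2⟩
    obtain ⟨z, hz, hp, h⟩ := hi'
    have h1 := hr2 j x hx z hz i i (fun l hl => (h l (hl.trans (hrj j))).symm)
    rw [hk j z (S.per_PP hz hp), Equiv.Perm.one_apply] at h1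
    linarith
  have hbad : ∀ j, ∀ i, S.ρ x (k j) i ∈ S.Bad x r ↔ i ∈ S.Bad x r := by
    intro j i
    constructor
    · intro h
      by_contra hi
      rw [hgood j i hi] at h
      exact hi h
    · intro h
      by_contra hi
      have := hgood j _ hi
      have := (S.ρ x (k j)).injective this
      rw [this] at hi
      exact hi h
  let e : S.Bad x r ↪ QT A r := ⟨_, S.bad_inj hx r hr1⟩
  let pm : ι → Equiv.Perm (S.Bad x r) := fun j => (S.ρ x (k j)).subtypePerm (hbad j)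
  refine ⟨(Equiv.Perm.viaEmbeddingHom e).comp (FreeGroup.lift pm), fun a ha => ?_⟩
  have h1 : FreeGroup.lift pm a = 1 := by
    apply Equiv.Perm.viaEmbeddingHom_injective e
    rw [map_one]; exact ha
  have h2 : (Equiv.Perm.ofSubtype.comp (FreeGroup.lift pm) : FreeGroup ι →* Equiv.Perm ℤ) =
      (S.ρ x).comp (FreeGroup.lift k) := by
    apply FreeGroup.ext_hom
    intro j
    rw [MonoidHom.comp_apply, MonoidHom.comp_apply, FreeGroup.lift_apply_of,
      FreeGroup.lift_apply_of]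
    refine Equiv.Perm.ofSubtype_subtypePerm (hbad j) ?_
    intro i hi
    by_contra h
    exact hi (hgood j i h)
  have h3 := DFunLike.congr_fun h2 a
  rw [MonoidHom.comp_apply, MonoidHom.comp_apply, h1, map_one] at h3
  exact h3.symm

end Sys

/-- Finiteness of an image. -/
theorem finite_range {ι Q E G : Type} [Finite ι] [Finite Q] [Finite E] [Group G]
    (τ : FreeGroup ι →* Equiv.Perm E) (Ψ : FreeGroup ι →* G)
    (h : ∀ a, (∀ θ : FreeGroup ι →* Equiv.Perm Q, θ a = 1) → τ a = 1 → Ψ a = 1) :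
    Finite Ψ.range := by
  classical
  have hfin : Finite (FreeGroup ι →* Equiv.Perm Q) :=
    Finite.of_equiv _ (FreeGroup.lift (α := ι) (β := Equiv.Perm Q))
  let g : FreeGroup ι → ((FreeGroup ι →* Equiv.Perm Q) → Equiv.Perm Q) × Equiv.Perm E :=
    fun a => (fun θ => θ a, τ a)
  have hg : ∀ a b, g a = g b → Ψ a = Ψ b := by
    intro a b hab
    have h1 : ∀ θ : FreeGroup ι →* Equiv.Perm Q, θ a = θ b :=
      fun θ => congrFun (congrArg Prod.fst hab) θ
    have h2 : τ a = τ b := congrArg Prod.snd hab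
    have := h (a⁻¹ * b) (fun θ => by rw [map_mul, map_inv, h1, inv_mul_cancel])
      (by rw [map_mul, map_inv, h2, inv_mul_cancel])
    rw [map_mul, map_inv] at this
    exact (inv_mul_eq_one.1 this)
  let s : Ψ.range → ((FreeGroup ι →* Equiv.Perm Q) → Equiv.Perm Q) × Equiv.Perm E :=
    fun y => g y.2.choose
  refine Finite.of_injective s ?_
  intro y y' hyy
  have h1 := hg _ _ hyy
  rw [y.2.choose_spec, y'.2.choose_spec] at h1
  exact Subtype.ext h1

/-- The local rule of one map. -/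
theorem local_rule {A : Type} [Finite A] (Ω : Set (ℤ → A))
    (hcl : ∀ x : ℤ → A, (∀ N : ℤ, ∃ y ∈ Ω, ∀ i : ℤ, |i| ≤ N → y i = x i) → x ∈ Ω)
    (g : Ω → Ω)
    (hg : ∀ x : Ω, ∃ N : ℕ, ∃ m : ℤ, ∀ y : Ω,
      (∀ i : ℤ, |i| ≤ (N : ℤ) → (y : ℤ → A) i = (x : ℤ → A) i) →
        ((g y : Ω) : ℤ → A) = fun i => (y : ℤ → A) (i + m)) :
    ∃ R : ℤ, 0 ≤ R ∧ ∃ ℓ : (ℤ → A) → ℤ, (∀ y, |ℓ y| ≤ R) ∧
      (∀ y y', (∀ i, |i| ≤ R → y i = y' i) → ℓ y = ℓ y') ∧
      ∀ x : Ω, ((g x : Ω) : ℤ → A) = fun i => (x : ℤ → A) (i + ℓ x) := by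
  classical
  have h : ∀ x : ℤ → A, ∃ N : ℕ, ∃ m : ℤ, x ∈ Ω → ∀ y : Ω,
      (∀ i : ℤ, |i| ≤ (N : ℤ) → (y : ℤ → A) i = x i) →
        ((g y : Ω) : ℤ → A) = fun i => (y : ℤ → A) (i + m) := by
    intro x
    by_cases hx : x ∈ Ω
    · obtain ⟨N, m, h⟩ := hg ⟨x, hx⟩
      exact ⟨N, m, fun _ => h⟩
    · exact ⟨0, 0, fun h => absurd h hx⟩
  choose N mm hN using h
  obtain ⟨t, ht1, ht2⟩ := cyl_cover Ω hcl (fun x => (N x : ℤ))
  obtain ⟨R, hR⟩ : ∃ R : ℤ, R = ∑ x ∈ t, ((N x : ℤ) + |mm x|) := ⟨_, rfl⟩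
  have hpos : ∀ x ∈ t, 0 ≤ (N x : ℤ) + |mm x| := fun x _ => by positivity
  have hRx : ∀ x ∈ t, (N x : ℤ) + |mm x| ≤ R := fun x hx => by
    rw [hR]; exact Finset.single_le_sum (f := fun x => (N x : ℤ) + |mm x|) hpos hx
  have hR0 : 0 ≤ R := by rw [hR]; exact Finset.sum_nonneg hpos
  let Q : (ℤ → A) → Set (ℤ → A) := fun y => {x | x ∈ t ∧ ∀ i : ℤ, |i| ≤ (N x : ℤ) → y i = x i}
  let G : Set (ℤ → A) → ℤ := fun Q => if h : Q.Nonempty then mm h.some else 0
  refine ⟨R, hR0, fun y => G (Q y), ?_, ?_, ?_⟩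
  · intro y
    show |if h : (Q y).Nonempty then mm h.some else 0| ≤ R
    split_ifs with h
    · have h1 := h.some_mem.1
      have := hRx _ h1
      have h3 : (0 : ℤ) ≤ (N h.some : ℤ) := by positivity
      linarith
    · simpa using hR0
  · intro y y' hyy
    show G (Q y) = G (Q y')
    congr 1
    ext x
    constructor
    · rintro ⟨h1, h2⟩
      refine ⟨h1, fun i hi => ?_⟩
      rw [← hyy i (by have := hRx x h1; have := abs_nonneg (mm x); linarith)]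
      exact h2 i hi
    · rintro ⟨h1, h2⟩
      refine ⟨h1, fun i hi => ?_⟩
      rw [hyy i (by have := hRx x h1; have := abs_nonneg (mm x); linarith)]
      exact h2 i hi
  · intro x
    have hne : (Q x).Nonempty := by
      obtain ⟨x0, hx0, h0⟩ := ht2 x x.2
      exact ⟨x0, hx0, h0⟩
    have hval : G (Q x) = mm hne.some := dif_pos hne
    have h1 := hne.some_mem
    show ((g x : Ω) : ℤ → A) = fun i => (x : ℤ → A) (i + G (Q x))
    rw [hval]
    exact hN _ (ht1 _ h1.1) x h1.2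

/-- The local rule of finitely many maps. -/
theorem local_rules {A J : Type} [Finite A] [Finite J] (Ω : Set (ℤ → A))
    (hcl : ∀ x : ℤ → A, (∀ N : ℤ, ∃ y ∈ Ω, ∀ i : ℤ, |i| ≤ N → y i = x i) → x ∈ Ω)
    (g : J → Ω → Ω)
    (hg : ∀ j, ∀ x : Ω, ∃ N : ℕ, ∃ m : ℤ, ∀ y : Ω,
      (∀ i : ℤ, |i| ≤ (N : ℤ) → (y : ℤ → A) i = (x : ℤ → A) i) →
        ((g j y : Ω) : ℤ → A) = fun i => (y : ℤ → A) (i + m)) :
    ∃ R : ℤ, 0 < R ∧ ∃ ℓ : J → (ℤ → A) → ℤ, (∀ j y, |ℓ j y| ≤ R) ∧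
      (∀ j y y', (∀ i, |i| ≤ R → y i = y' i) → ℓ j y = ℓ j y') ∧
      ∀ j, ∀ x : Ω, ((g j x : Ω) : ℤ → A) = fun i => (x : ℤ → A) (i + ℓ j x) := by
  have h := fun j => local_rule Ω hcl (g j) (hg j)
  choose R hR ℓ h1 h2 h3 using h
  have := Fintype.ofFinite J
  have hRj : ∀ j, R j ≤ ∑ j, R j + 1 := fun j => by
    have := Finset.single_le_sum (f := R) (fun j _ => hR j) (Finset.mem_univ j)
    linarith
  refine ⟨∑ j, R j + 1, ?_, ℓ, ?_, ?_, h3⟩
  · have : 0 ≤ ∑ j, R j := Finset.sum_nonneg fun j _ => hR j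
    linarith
  · exact fun j y => (h1 j y).trans (hRj j)
  · exact fun j y y' h => h2 j y y' fun i hi => h i (hi.trans (hRj j))

end Pool.Agent.FG76
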