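import Mathlib
import Pool.Agent.FG76.LocFin
import Pool.Agent.FG76.ClassP

set_option autoImplicit false

namespace Pool.Agent.FG76

/-- Finitely many points of bounded period. -/
theorem finite_per {A : Type} [Finite A] (M : ℤ) :
    {x : ℤ → A | ∃ d : ℤ, 0 < d ∧ d ≤ M ∧ ∀ i, x (i + d) = x i}.Finite := by
  have h1 : ∀ d : ℤ, 0 < d → {x : ℤ → A | ∀ i, x (i + d) = x i}.Finite := by
    intro d hd
    let f : {x : ℤ → A | ∀ i, x (i + d) = x i} → ((Set.Ico 0 d : Set ℤ) → A) :=
      fun x j => (x : ℤ → A) j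
    have hf : Function.Injective f := by
      intro x x' h
      apply Subtype.ext
      funext c
      have h2 : (x : ℤ → A) (c % d) = (x' : ℤ → A) (c % d) :=
        congrFun h ⟨c % d, Int.emod_nonneg c hd.ne', Int.emod_lt_of_pos c hd⟩
      have e : ∀ z : ℤ → A, (∀ i, z (i + d) = z i) → z c = z (c % d) := by
        intro z hz
        have := period_mul hz (c / d) (c % d)
        rw [← this]
        congr 1
        rw [Int.emod_def]; ring
      rw [e _ x.2, e _ x'.2, h2]
    have : Finite {x : ℤ → A | ∀ i, x (i + d) = x i} := Finite.of_injective f hf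
    exact Set.toFinite _
  have h2 : {x : ℤ → A | ∃ d : ℤ, 0 < d ∧ d ≤ M ∧ ∀ i, x (i + d) = x i} ⊆
      ⋃ d ∈ Set.Icc 1 M, {x : ℤ → A | ∀ i, x (i + d) = x i} := by
    rintro x ⟨d, hd, hdM, h⟩
    exact Set.mem_biUnion (show d ∈ Set.Icc 1 M from ⟨hd, hdM⟩) h
  refine Set.Finite.subset (Set.Finite.biUnion (Set.finite_Icc 1 M) ?_) h2
  intro d hd
  exact h1 d (by have := hd.1; omega)

/-- The normal subgroup of elements acting trivially over all of `PP`. -/
def Sys.N0 {A K : Type} [Group K] (S : Sys A K) : Subgroup K where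
  carrier := {k | ∀ x ∈ S.PP, S.ρ x k = 1}
  mul_mem' := by
    intro a b ha hb x hx
    rw [map_mul, ha x hx, hb x hx, one_mul]
  one_mem' := fun x _ => map_one _
  inv_mem' := by
    intro a ha x hx
    rw [map_inv, ha x hx, inv_one]

theorem Sys.N0_normal {A K : Type} [Group K] (S : Sys A K) : S.N0.Normal where
  conj_mem := by
    intro a ha g x hx
    rw [map_mul, map_mul, ha x hx, mul_one, ← map_mul, mul_inv_cancel, map_one]

/-- A group in the class detecting finitely many periodic actions. -/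
theorem exists_detect {P : ∀ (G : Type) [Group G], Prop} (hP : Cls P) {A K : Type} [Group K]
    (S : Sys A K) (F : Finset (ℤ → A)) (hF : ∀ y ∈ F, y ∈ S.Sig ∧ Sys.Per y) :
    ∃ (G : Type) (_ : Group G) (f : K →* G), P G ∧ ∀ k, f k = 1 → ∀ y ∈ F, S.ρ y k = 1 := by
  classical
  induction F using Finset.induction_on with
  | empty => exact ⟨Unit, inferInstance, 1, hP.fin Unit, fun k _ y hy => by simp at hy⟩
  | insert y F hy ih =>
    obtain ⟨G, hG, f, hPG, hf⟩ := ih fun y' hy' => hF y' (Finset.mem_insert_of_mem hy')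
    obtain ⟨hyS, p, hp, hyp⟩ := hF y (Finset.mem_insert_self y F)
    refine ⟨(S.ρ y).range × G, inferInstance, (S.ρ y).rangeRestrict.prod f, ?_, ?_⟩
    · refine hP.prod (hP.periodic _ p hp ?_) hPG
      rintro _ ⟨k, rfl⟩ c
      exact S.rho_add_period hyS hyp k c
    · intro k hk y' hy'
      have h1 : (S.ρ y).rangeRestrict k = 1 := congrArg Prod.fst hk
      have h2 : f k = 1 := congrArg Prod.snd hk
      rcases Finset.mem_insert.1 hy' with rfl | hy'
      · exact congrArg Subtype.val h1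
      · exact hf k h2 y' hy'

theorem final {A : Type} [Finite A] (Ω : Set (ℤ → A))
    (hsh : ∀ x : ℤ → A, x ∈ Ω ↔ (fun i => x (i + 1)) ∈ Ω)
    (hcl : ∀ x : ℤ → A, (∀ N : ℤ, ∃ y ∈ Ω, ∀ i : ℤ, |i| ≤ N → y i = x i) → x ∈ Ω)
    (H : Subgroup (Equiv.Perm ↥Ω))
    (hH : ∀ g ∈ H, ∀ x : ↥Ω, ∃ N : ℕ, ∃ m : ℤ, ∀ y : ↥Ω,
        (∀ i : ℤ, |i| ≤ (N : ℤ) → (y : ℤ → A) i = (x : ℤ → A) i) →
          ((g y : ↥Ω) : ℤ → A) = fun i => (y : ℤ → A) (i + m))
    {m : ℕ} (rels : Set (FreeGroup (Fin m))) (hrels : rels.Finite)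
    (φ : PresentedGroup rels →* ↥H) (hφ : Function.Surjective φ)
    (noF : ¬ ∃ f : FreeGroup (Fin 2) →* PresentedGroup rels, Function.Injective f)
    {P : ∀ (G : Type) [Group G], Prop} (hP : Cls P) : P ↥H := by
  classical
  -- shift invariance
  have hsh1 : ∀ x ∈ Ω, (fun i => x (i + 1)) ∈ Ω := fun x hx => (hsh x).1 hx
  have hsh2 : ∀ x ∈ Ω, (fun i => x (i + -1)) ∈ Ω := fun x hx => by
    rw [hsh]
    have e : (fun i : ℤ => x (i + 1 + -1)) = x := by funext i; congr 1; ring
    show (fun i : ℤ => x (i + 1 + -1)) ∈ Ω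
    rw [e]; exact hx
  have hshc : ∀ c : ℤ, ∀ x ∈ Ω, (fun i => x (i + c)) ∈ Ω := by
    intro c
    induction c using Int.induction_on with
    | zero => intro x hx; simpa using hx
    | succ j ih =>
      intro x hx
      have := hsh1 _ (ih x hx)
      have e : (fun i : ℤ => x (i + ((j : ℤ) + 1))) = fun i : ℤ => x (i + 1 + j) := by
        funext i; congr 1; ring
      rw [e]; exact this
    | pred j ih =>
      intro x hx
      have := hsh2 _ (ih x hx)
      have e : (fun i : ℤ => x (i + (-(j : ℤ) - 1))) = fun i : ℤ => x (i + -1 + -j) := by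
        funext i; congr 1; ring
      rw [e]; exact this
  -- local rule
  obtain ⟨R, hR, ℓ, hdisp, hloc, hrule⟩ := local_rules (J := Fin m × Bool) Ω hcl
    (fun s x => ((φ (lt rels s) : ↥H) : Equiv.Perm ↥Ω) x)
    (fun s x => hH _ (φ (lt rels s)).2 x)
  obtain ⟨S, hSig, -, hρ⟩ := exists_sys hrels hdisp hloc hR
  -- words act by shifts
  have hword : ∀ (L : List (Fin m × Bool)) (x : ↥Ω),
      ((((φ (L.map (lt rels)).prod : ↥H) : Equiv.Perm ↥Ω) x : ↥Ω) : ℤ → A) =
        fun i => (x : ℤ → A) (i + run ℓ x L 0) := by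
    intro L x
    induction L with
    | nil =>
      simp [run]
    | cons s L ih =>
      rw [List.map_cons, List.prod_cons, map_mul, Subgroup.coe_mul, Equiv.Perm.mul_apply,
        hrule s, run_cons]
      unfold stp
      rw [ih]
      funext i
      show (x : ℤ → A) (i + ℓ s (fun i => (x : ℤ → A) (i + run ℓ x L 0)) + run ℓ x L 0) =
        (x : ℤ → A) (i + (run ℓ x L 0 + ℓ s (fun i => (x : ℤ → A) (i + run ℓ x L 0))))
      generalize ℓ s (fun i => (x : ℤ → A) (i + run ℓ x L 0)) = e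
      ring_nf
  have hshiftk : ∀ (k : PresentedGroup rels) (x : ↥Ω), ∃ d : ℤ,
      ((((φ k : ↥H) : Equiv.Perm ↥Ω) x : ↥Ω) : ℤ → A) = fun i => (x : ℤ → A) (i + d) := by
    intro k x
    obtain ⟨L, rfl⟩ := exists_word k
    exact ⟨_, hword L x⟩
  have hfixk : ∀ (k : PresentedGroup rels) (x : ↥Ω), (x : ℤ → A) ∈ S.Sig → S.ρ x k 0 = 0 →
      ((φ k : ↥H) : Equiv.Perm ↥Ω) x = x := by
    intro k x hx h0
    obtain ⟨L, rfl⟩ := exists_word k
    rw [hρ _ (by rw [← hSig]; exact hx)] at h0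
    apply Subtype.ext
    rw [hword, h0]
    funext i; ring_nf
  -- the bad points
  let Bd : Set ↥Ω := {x | (x : ℤ → A) ∉ S.Sig}
  have hBdfin : Finite Bd := by
    obtain ⟨L, hL⟩ := TW_length hrels
    have hsub : ∀ x ∈ Bd, (x : ℤ → A) ∈
        {x : ℤ → A | ∃ d : ℤ, 0 < d ∧ d ≤ L * R ∧ ∀ i, x (i + d) = x i} := by
      intro x hx
      have hx' : (x : ℤ → A) ∉ SigOf rels ℓ := by rw [← hSig]; exact hx
      unfold SigOf at hx'
      rw [Set.mem_ofPred_eq] at hx'
      push Not at hx'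
      obtain ⟨w, hw, c, hc⟩ := hx'
      have h1 := run_loc hdisp hloc hR.le (fun i => (x : ℤ → A) (i + c)) x w 0 c (fun i _ => by
        show (x : ℤ → A) (0 + i + c) = _
        ring_nf)
      have h2 := hword w ⟨fun i => (x : ℤ → A) (i + c), hshc c x x.2⟩
      rw [TW_prod hw, map_one] at h2
      obtain ⟨d, hd⟩ : ∃ d, d = run ℓ (fun i => (x : ℤ → A) (i + c)) w 0 := ⟨_, rfl⟩
      have h3 : (fun i => (x : ℤ → A) (i + c)) = fun i => (x : ℤ → A) (i + d + c) := by
        rw [hd]; exact h2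
      have h4 : ∀ i, (x : ℤ → A) (i + d) = (x : ℤ → A) i := by
        intro i
        have := congrFun h3 (i - c)
        simp only [sub_add_cancel] at this
        rw [this]; ring_nf
      have h5 : d ≠ 0 := by
        intro h; rw [← hd, h] at h1; apply hc; linarith
      have h6 : |d| ≤ L * R := by
        have := run_disp hdisp (fun i => (x : ℤ → A) (i + c)) w 0
        rw [← hd, sub_zero] at this
        refine this.trans ?_
        exact mul_le_mul_of_nonneg_right (by exact_mod_cast hL w hw) hR.le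
      rw [abs_le] at h6
      rcases lt_or_gt_of_ne h5 with h | h
      · refine ⟨-d, by linarith, by linarith, fun i => ?_⟩
        rw [← h4 (i + -d)]; ring_nf
      · exact ⟨d, h, by linarith, h4⟩
    have hf := finite_per (A := A) (L * R)
    have : Finite {x : ℤ → A | ∃ d : ℤ, 0 < d ∧ d ≤ L * R ∧ ∀ i, x (i + d) = x i} := hf
    refine Finite.of_injective (fun x : Bd =>
      (⟨(x : ↥Ω), hsub x x.2⟩ :
        {x : ℤ → A | ∃ d : ℤ, 0 < d ∧ d ≤ L * R ∧ ∀ i, x (i + d) = x i})) ?_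
    intro x x' h
    have h1 := congrArg Subtype.val h
    exact Subtype.ext (Subtype.ext h1)
  have hBdinv : ∀ h : ↥H, ∀ x : ↥Ω, ((h : Equiv.Perm ↥Ω) x ∈ Bd ↔ x ∈ Bd) := by
    intro h x
    obtain ⟨k, rfl⟩ := hφ h
    obtain ⟨d, hd⟩ := hshiftk k x
    show ((((φ k : ↥H) : Equiv.Perm ↥Ω) x : ↥Ω) : ℤ → A) ∉ S.Sig ↔ (x : ℤ → A) ∉ S.Sig
    rw [hd, not_iff_not]
    constructor
    · intro h
      have := S.shift_mem h (-d)
      have e : (fun c : ℤ => (fun i => (x : ℤ → A) (i + d)) (c + -d)) = (x : ℤ → A) := by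
        funext c
        show (x : ℤ → A) (c + -d + d) = _
        ring_nf
      rwa [e] at this
    · intro h; exact S.shift_mem h d
  let restr : ↥H →* Equiv.Perm Bd :=
    { toFun := fun h => (h : Equiv.Perm ↥Ω).subtypePerm (hBdinv h)
      map_one' := by ext x; rfl
      map_mul' := by intro a b; ext x; rfl }
  -- local finiteness
  have hlf : ∀ (ι : Type) [Finite ι] (k : ι → PresentedGroup rels), (∀ j, k j ∈ S.N0) →
      Finite (φ.comp (FreeGroup.lift k)).range := by
    intro ι _ k hk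
    obtain ⟨r, hr⟩ := S.exists_theta k (fun j x hx => hk j x hx)
    refine finite_range (Q := QT A r) (restr.comp (φ.comp (FreeGroup.lift k))) _ ?_
    intro a h1 h2
    apply Subtype.ext
    ext x : 1
    show ((φ (FreeGroup.lift k a) : ↥H) : Equiv.Perm ↥Ω) x = x
    by_cases hx : (x : ℤ → A) ∈ S.Sig
    · obtain ⟨θ, hθ⟩ := hr x hx
      apply hfixk _ x hx
      rw [hθ a (h1 θ), Equiv.Perm.one_apply]
    · have h3 := DFunLike.congr_fun h2 (⟨x, hx⟩ : Bd)
      exact congrArg Subtype.val h3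
  -- the radical
  obtain ⟨RH, hRH⟩ : ∃ RH : Subgroup ↥H, RH = S.N0.map φ := ⟨_, rfl⟩
  have hN0 := S.N0_normal
  have hRHn : RH.Normal := by rw [hRH]; exact hN0.map φ hφ
  have hPR : P RH := by
    refine hP.dir _ fun G hG => ?_
    obtain ⟨F, hF⟩ := hG
    have hlift : ∀ j : F, ∃ k ∈ S.N0, φ k = ((j : RH) : ↥H) := by
      intro j
      exact Subgroup.mem_map.1 (hRH.le (j : RH).2)
    choose k hk1 hk2 using hlift
    have hfin := hlf F k hk1
    have hle : G ≤ ((φ.comp (FreeGroup.lift k)).range).comap RH.subtype := by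
      rw [← hF, Subgroup.closure_le]
      intro j hj
      refine ⟨FreeGroup.of ⟨j, hj⟩, ?_⟩
      rw [MonoidHom.comp_apply, FreeGroup.lift_apply_of, hk2]
      rfl
    have : Finite G := Finite.of_injective
      (fun g : G => (⟨((g : RH) : ↥H), hle g.2⟩ : (φ.comp (FreeGroup.lift k)).range)) (by
        intro g g' h
        have h1 := congrArg Subtype.val h
        exact Subtype.ext (Subtype.ext h1))
    exact hP.fin G
  have hPQ : P (↥H ⧸ RH) := by
    obtain ⟨F, hF1, hF2⟩ := S.cover_fin noF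
    obtain ⟨G, hG, f, hPG, hf⟩ := exists_detect hP S F hF1
    have hker : f.ker ≤ ((QuotientGroup.mk' RH).comp φ).ker := by
      intro k hk
      rw [MonoidHom.mem_ker, MonoidHom.comp_apply, QuotientGroup.mk'_apply,
        QuotientGroup.eq_one_iff, hRH]
      exact Subgroup.mem_map.2 ⟨k, fun x hx => hF2 k (hf k hk) x hx, rfl⟩
    have h1 : P (PresentedGroup rels ⧸ f.ker) :=
      hP.inj (QuotientGroup.kerLift f) (QuotientGroup.kerLift_injective f) hPG
    refine hP.surj (QuotientGroup.lift f.ker ((QuotientGroup.mk' RH).comp φ) hker) ?_ h1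
    intro q
    obtain ⟨h, rfl⟩ := QuotientGroup.mk'_surjective RH q
    obtain ⟨k, rfl⟩ := hφ h
    exact ⟨QuotientGroup.mk k, rfl⟩
  exact hP.ext _ RH hPR hPQ

end Pool.Agent.FG76
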